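import Pool.Agent.Helper51.SV.Final

/-!
Large values of the representation function of a thick set, general form.
-/

set_option autoImplicit false

namespace Pool.Agent.Helper51.SV

open Finset

/-- the exponent: the sum over primes of the truncated sieve weights -/
noncomputable def expo (G : ℝ) (A : Set ℕ) (n : ℕ) : ℝ :=
  ∑ p ∈ (Finset.Icc 1 n).filter Nat.Prime, min G (((p : ℝ) / (classes A p : ℝ) - 1) ^ 2) / p

theorem expo_term_nonneg {G : ℝ} (hG : 0 < G) (A : Set ℕ) (p : ℕ) :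
    0 ≤ min G (((p : ℝ) / (classes A p : ℝ) - 1) ^ 2) / p :=
  div_nonneg (le_min hG.le (sq_nonneg _)) (by positivity)

theorem expo_mono {G : ℝ} (hG : 0 < G) (A : Set ℕ) {m n : ℕ} (h : m ≤ n) :
    expo G A m ≤ expo G A n := by
  unfold expo
  refine Finset.sum_le_sum_of_subset_of_nonneg ?_ (fun p _ _ => expo_term_nonneg hG A p)
  intro p hp
  have hp' := Finset.mem_filter.1 hp
  have hp2 := Finset.mem_Icc.1 hp'.1
  exact Finset.mem_filter.2 ⟨Finset.mem_Icc.2 ⟨hp2.1, hp2.2.trans h⟩, hp'.2⟩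

theorem expo_double {G : ℝ} (hG : 0 < G) (A : Set ℕ) {x : ℕ} (hx : 0 < x) :
    expo G A (2 * x) ≤ expo G A x + G := by
  classical
  have hx' : (0 : ℝ) < x := by exact_mod_cast hx
  have h1 : (Finset.Icc 1 (2 * x)).filter Nat.Prime ⊆
      (Finset.Icc 1 x).filter Nat.Prime ∪ Finset.Ioc x (2 * x) := by
    intro p hp
    have hp' := Finset.mem_filter.1 hp
    have hp2 := Finset.mem_Icc.1 hp'.1
    by_cases h : p ≤ x
    · exact Finset.mem_union_left _ (Finset.mem_filter.2 ⟨Finset.mem_Icc.2 ⟨hp2.1, h⟩, hp'.2⟩)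
    · exact Finset.mem_union_right _ (Finset.mem_Ioc.2 ⟨not_le.1 h, hp2.2⟩)
  have h2 : ∑ p ∈ Finset.Ioc x (2 * x), min G (((p : ℝ) / (classes A p : ℝ) - 1) ^ 2) / p ≤ G := by
    calc ∑ p ∈ Finset.Ioc x (2 * x), min G (((p : ℝ) / (classes A p : ℝ) - 1) ^ 2) / p
        ≤ ∑ p ∈ Finset.Ioc x (2 * x), G / x := by
          refine Finset.sum_le_sum fun p hp => ?_
          have hp2 := Finset.mem_Ioc.1 hp
          have hxp : (x : ℝ) ≤ p := by exact_mod_cast hp2.1.le
          exact div_le_div₀ hG.le (min_le_left _ _) hx' hxp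
      _ = G := by
          rw [Finset.sum_const, Nat.card_Ioc, nsmul_eq_mul]
          have : ((2 * x - x : ℕ) : ℝ) = x := by
            have : 2 * x - x = x := by omega
            rw [this]
          rw [this]
          field_simp
  calc expo G A (2 * x) ≤ ∑ p ∈ (Finset.Icc 1 x).filter Nat.Prime ∪ Finset.Ioc x (2 * x),
        min G (((p : ℝ) / (classes A p : ℝ) - 1) ^ 2) / p :=
        Finset.sum_le_sum_of_subset_of_nonneg h1 (fun p _ _ => expo_term_nonneg hG A p)
    _ ≤ expo G A x + ∑ p ∈ Finset.Ioc x (2 * x),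
        min G (((p : ℝ) / (classes A p : ℝ) - 1) ^ 2) / p := by
        have h3 := Finset.sum_union_inter (s₁ := (Finset.Icc 1 x).filter Nat.Prime)
          (s₂ := Finset.Ioc x (2 * x))
          (f := fun p : ℕ => min G (((p : ℝ) / (classes A p : ℝ) - 1) ^ 2) / p)
        have h4 : 0 ≤ ∑ p ∈ (Finset.Icc 1 x).filter Nat.Prime ∩ Finset.Ioc x (2 * x),
            min G (((p : ℝ) / (classes A p : ℝ) - 1) ^ 2) / p :=
          Finset.sum_nonneg fun p _ => expo_term_nonneg hG A p
        unfold expo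
        linarith
    _ ≤ _ := by linarith

theorem classes_pos {A : Set ℕ} (hA : A.Nonempty) (p : ℕ) (hp : 0 < p) : 0 < classes A p := by
  unfold classes
  have hfin : ((fun a => a % p) '' A).Finite := by
    refine (Set.finite_Iio p).subset ?_
    rintro r ⟨a, _, rfl⟩
    exact Nat.mod_lt _ hp
  exact (Set.ncard_pos hfin).2 (hA.image _)

/-- a smaller set meets fewer classes, so its weight is larger -/
theorem weight_mono {A : Set ℕ} {B : Finset ℕ} (hB : B.Nonempty) (hBA : ∀ b ∈ B, b ∈ A) (p : ℕ)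
    (hp : 0 < p) :
    ((p : ℝ) / (classes A p : ℝ) - 1) ^ 2 ≤ ((p : ℝ) / (classes (B : Set ℕ) p : ℝ) - 1) ^ 2 := by
  have hpR : (0 : ℝ) < p := by exact_mod_cast hp
  have hfin : ((fun a => a % p) '' A).Finite := by
    refine (Set.finite_Iio p).subset ?_
    rintro r ⟨a, _, rfl⟩
    exact Nat.mod_lt _ hp
  have h1 : 0 < classes (B : Set ℕ) p := classes_pos (Finset.coe_nonempty.2 hB) p hp
  have h2 : classes (B : Set ℕ) p ≤ classes A p := by
    unfold classes
    refine Set.ncard_le_ncard (Set.image_mono ?_) hfin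
    intro b hb
    exact hBA b (Finset.mem_coe.1 hb)
  have h3 : classes A p ≤ p := by
    unfold classes
    calc ((fun a => a % p) '' A).ncard ≤ (Set.Iio p).ncard := by
          refine Set.ncard_le_ncard ?_ (Set.finite_Iio p)
          rintro r ⟨a, _, rfl⟩
          exact Nat.mod_lt _ hp
      _ = p := by
          rw [← Finset.coe_range, Set.ncard_coe_finset, Finset.card_range]
  have h1' : (0 : ℝ) < (classes (B : Set ℕ) p : ℝ) := by exact_mod_cast h1
  have h2' : (classes (B : Set ℕ) p : ℝ) ≤ (classes A p : ℝ) := by exact_mod_cast h2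
  have h3' : (classes A p : ℝ) ≤ p := by exact_mod_cast h3
  have h4 : 0 ≤ (p : ℝ) / (classes A p : ℝ) - 1 := by
    rw [sub_nonneg, le_div_iff₀ (lt_of_lt_of_le h1' h2'), one_mul]
    exact h3'
  have h5 : (p : ℝ) / (classes A p : ℝ) ≤ (p : ℝ) / (classes (B : Set ℕ) p : ℝ) :=
    div_le_div_of_nonneg_left hpR.le h1' h2'
  gcongr

/-- part (2) -/
theorem part_gen (A : Set ℕ) (hT : Thick A) (G : ℝ) (hG : 0 < G) :
    ∃ c : ℝ, 0 < c ∧ ∀ N : ℕ, ∃ n : ℕ, N ≤ n ∧
      c * Real.exp (∑ p ∈ (Finset.Icc 1 n).filter Nat.Prime,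
          min G (((p : ℝ) / (classes A p : ℝ) - 1) ^ 2) / p) ≤ (rep A n : ℝ) := by
  show ∃ c : ℝ, 0 < c ∧ ∀ N : ℕ, ∃ n : ℕ, N ≤ n ∧ c * Real.exp (expo G A n) ≤ (rep A n : ℝ)
  obtain ⟨c1, hc1, h⟩ := part1 G hG
  obtain ⟨c, hc, hx⟩ := hT
  -- the set is infinite
  have hinf : ∀ N : ℕ, ∃ a ∈ A, N ≤ a := by
    intro N
    by_contra hcon
    push Not at hcon
    obtain ⟨X, hX⟩ := exists_nat_gt ((N / c) ^ 2)
    obtain ⟨x, hXx, hcx⟩ := hx (max X 1)
    have hle : count A x ≤ N := by
      unfold count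
      calc {a : ℕ | a ∈ A ∧ a < x}.ncard ≤ (Set.Iio N).ncard :=
            Set.ncard_le_ncard (fun a ha => hcon a ha.1) (Set.finite_Iio N)
        _ = N := by rw [← Finset.coe_range, Set.ncard_coe_finset, Finset.card_range]
    have hle' : (count A x : ℝ) ≤ N := by exact_mod_cast hle
    have h1 : Real.sqrt x ≤ N / c := by
      rw [le_div_iff₀ hc]
      linarith
    have h2 : (x : ℝ) ≤ (N / c) ^ 2 := by
      calc (x : ℝ) = Real.sqrt x ^ 2 := (Real.sq_sqrt (by positivity)).symm
        _ ≤ _ := by gcongr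
    have h3 : (X : ℝ) ≤ x := by exact_mod_cast (le_max_left X 1).trans hXx
    linarith
  by_cases hbd : ∃ B : ℝ, ∀ n, expo G A n ≤ B
  · obtain ⟨B, hB⟩ := hbd
    refine ⟨Real.exp (-B), Real.exp_pos _, fun N => ?_⟩
    obtain ⟨a, haA, haN⟩ := hinf N
    refine ⟨a + a, by omega, ?_⟩
    have h1 : (1 : ℝ) ≤ (rep A (a + a) : ℝ) := by
      have : 0 < rep A (a + a) := by
        unfold rep
        rw [Set.ncard_pos (finite_rs A (a + a))]
        exact ⟨(a, a), haA, haA, rfl⟩
      exact_mod_cast this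
    refine le_trans ?_ h1
    rw [← Real.exp_add, Real.exp_le_one_iff]
    linarith [hB (a + a)]
  · push Not at hbd
    refine ⟨c1 * c ^ 2 * Real.exp (-G), by positivity, fun N => ?_⟩
    -- a bound for the values below `N`
    obtain ⟨V, hV⟩ : ∃ V : ℝ, ∀ n < N, (rep A n : ℝ) < V := by
      refine ⟨∑ n ∈ Finset.range N, (rep A n : ℝ) + 1, fun n hn => ?_⟩
      have := Finset.single_le_sum (f := fun n => (rep A n : ℝ)) (s := Finset.range N)
        (fun n _ => by positivity) (Finset.mem_range.2 hn)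
      linarith
    obtain ⟨X0, hX0⟩ := hbd (V / (c1 * c ^ 2))
    obtain ⟨x, hxX, hxc⟩ := hx (max X0 1)
    have hx1 : 1 ≤ x := (le_max_right _ _).trans hxX
    have hxX0 : X0 ≤ x := (le_max_left _ _).trans hxX
    have hxpos : (0 : ℝ) < x := by positivity
    rw [count_eq] at hxc
    have hTpos : (0 : ℝ) < ((tr A x).card : ℝ) :=
      lt_of_lt_of_le (mul_pos hc (Real.sqrt_pos.2 hxpos)) hxc
    have hne : (tr A x).Nonempty := Finset.card_pos.1 (by exact_mod_cast hTpos)
    have hT2 : c ^ 2 * x ≤ ((tr A x).card : ℝ) ^ 2 := by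
      calc c ^ 2 * x = (c * Real.sqrt x) ^ 2 := by
            rw [mul_pow, Real.sq_sqrt hxpos.le]
        _ ≤ _ := by gcongr
    have h2 := h x (tr A x) (fun a ha => (mem_tr.1 ha).1)
    have hexp : expo G A x ≤ ∑ p ∈ (Finset.Icc 1 x).filter Nat.Prime,
        min G (((p : ℝ) / (classes ((tr A x : Finset ℕ) : Set ℕ) p : ℝ) - 1) ^ 2) / p := by
      unfold expo
      refine Finset.sum_le_sum fun p hp => ?_
      have hp' := (Finset.mem_filter.1 hp).2
      have hpR : (0 : ℝ) < p := by exact_mod_cast hp'.pos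
      have := weight_mono (A := A) hne (fun b hb => (mem_tr.1 hb).2) p hp'.pos
      gcongr
    have h3 : c1 * ((tr A x).card : ℝ) ^ 4 * Real.exp (expo G A x) ≤
        x * ∑ n ∈ Finset.range (2 * x), (rr (tr A x) n : ℝ) ^ 2 := by
      simp only [rep_coe] at h2
      refine le_trans ?_ h2
      gcongr
    obtain ⟨n, hn2, hn⟩ := large_value (tr A x) x (fun a ha => (mem_tr.1 ha).1) hne
      (c1 * c ^ 2 * Real.exp (expo G A x)) (by
        have h4 : x * (c1 * c ^ 2 * Real.exp (expo G A x) * ((tr A x).card : ℝ) ^ 2) ≤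
            x * ∑ n ∈ Finset.range (2 * x), (rr (tr A x) n : ℝ) ^ 2 := by
          refine le_trans ?_ h3
          calc x * (c1 * c ^ 2 * Real.exp (expo G A x) * ((tr A x).card : ℝ) ^ 2)
              = c1 * Real.exp (expo G A x) * ((tr A x).card : ℝ) ^ 2 * (c ^ 2 * x) := by ring
            _ ≤ c1 * Real.exp (expo G A x) * ((tr A x).card : ℝ) ^ 2 *
                ((tr A x).card : ℝ) ^ 2 := by gcongr
            _ = _ := by ring
        exact le_of_mul_le_mul_left h4 hxpos)
    have hn' : c1 * c ^ 2 * Real.exp (expo G A x) ≤ (rep A n : ℝ) :=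
      hn.trans (by exact_mod_cast rr_tr_le A x n)
    refine ⟨n, ?_, ?_⟩
    · by_contra hlt
      push Not at hlt
      have h5 := hn'.trans_lt (hV n hlt)
      have h6 : V / (c1 * c ^ 2) < Real.exp (expo G A x) := by
        calc V / (c1 * c ^ 2) < expo G A X0 := hX0
          _ ≤ expo G A x := expo_mono hG A hxX0
          _ ≤ expo G A x + 1 := by linarith
          _ ≤ _ := Real.add_one_le_exp _
      rw [div_lt_iff₀ (by positivity)] at h6
      linarith [mul_comm (Real.exp (expo G A x)) (c1 * c ^ 2)]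
    · refine le_trans ?_ hn'
      have h5 : expo G A n ≤ expo G A x + G :=
        (expo_mono hG A hn2.le).trans (expo_double hG A hx1)
      calc c1 * c ^ 2 * Real.exp (-G) * Real.exp (expo G A n)
          ≤ c1 * c ^ 2 * Real.exp (-G) * Real.exp (expo G A x + G) := by gcongr
        _ = c1 * c ^ 2 * (Real.exp (-G) * Real.exp (expo G A x + G)) := by ring
        _ = c1 * c ^ 2 * Real.exp (expo G A x) := by
            rw [← Real.exp_add]
            congr 2
            ring

end Pool.Agent.Helper51.SV
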