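import Pool.Agent.Helper51.SV.CopSum
import Pool.Agent.Helper51.SV.Gen

/-!
Large values of the representation function of a thick set, for pairwise coprime moduli.
-/

set_option autoImplicit false

namespace Pool.Agent.Helper51.SV

open Finset

/-- part (1) for pairwise coprime moduli -/
theorem part1C (G : ℝ) (hG : 0 < G) : ∃ c : ℝ, 0 < c ∧ ∀ (x : ℕ) (A M : Finset ℕ),
    (∀ a ∈ A, a < x) → (∀ m ∈ M, 2 ≤ m ∧ m ≤ x) → (M : Set ℕ).Pairwise Nat.Coprime →
      c * (A.card : ℝ) ^ 4 * Real.exp (∑ m ∈ M,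
          min G (((m : ℝ) / (classes (A : Set ℕ) m : ℝ) - 1) ^ 2) / m) ≤
        x * ∑ n ∈ Finset.range (2 * x), (rep (A : Set ℕ) n : ℝ) ^ 2 := by
  obtain ⟨c, hc, h⟩ := energyC G hG
  refine ⟨c, hc, fun x A M hA hM hcop => ?_⟩
  have h1 := h x A M hA (fun m hm => (hM m hm).1) (fun m hm => (hM m hm).2)
    (fun m hm k hk hne => hcop (mem_coe.2 hm) (mem_coe.2 hk) hne)
  simp only [rep_coe, classes_coe]
  exact h1

/-- the sum over the moduli -/
noncomputable def sm (G : ℝ) (A : Set ℕ) (M : Finset ℕ) : ℝ :=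
  ∑ m ∈ M, min G (((m : ℝ) / (classes A m : ℝ) - 1) ^ 2) / m

theorem sm_mono {G : ℝ} (hG : 0 < G) (A : Set ℕ) {M N : Finset ℕ} (h : M ⊆ N) :
    sm G A M ≤ sm G A N :=
  Finset.sum_le_sum_of_subset_of_nonneg h (fun p _ _ => expo_term_nonneg hG A p)

theorem sm_split {G : ℝ} (hG : 0 < G) (A : Set ℕ) {x : ℕ} (hx : 0 < x) (M : Finset ℕ)
    (hM : ∀ m ∈ M, m ≤ 2 * x) : sm G A M ≤ sm G A (M.filter (fun m => m ≤ x)) + G := by
  classical
  have hx' : (0 : ℝ) < x := by exact_mod_cast hx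
  have h1 : sm G A M = sm G A (M.filter (fun m => m ≤ x)) +
      sm G A (M.filter (fun m => ¬ m ≤ x)) := by
    unfold sm
    rw [Finset.sum_filter_add_sum_filter_not]
  have h2 : sm G A (M.filter (fun m => ¬ m ≤ x)) ≤ G := by
    calc sm G A (M.filter (fun m => ¬ m ≤ x)) ≤ sm G A (Finset.Ioc x (2 * x)) := by
          refine sm_mono hG A fun m hm => ?_
          have hm' := mem_filter.1 hm
          exact Finset.mem_Ioc.2 ⟨not_le.1 hm'.2, hM m hm'.1⟩
      _ ≤ ∑ p ∈ Finset.Ioc x (2 * x), G / x := by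
          refine Finset.sum_le_sum fun p hp => ?_
          have hp2 := Finset.mem_Ioc.1 hp
          have hxp : (x : ℝ) ≤ p := by exact_mod_cast hp2.1.le
          exact div_le_div₀ hG.le (min_le_left _ _) hx' hxp
      _ = G := by
          rw [Finset.sum_const, Nat.card_Ioc, nsmul_eq_mul]
          have : ((2 * x - x : ℕ) : ℝ) = x := by
            have : 2 * x - x = x := by omega
            rw [this]
          rw [this]
          field_simp
  linarith

theorem thick_inf {A : Set ℕ} (hT : Thick A) (N : ℕ) : ∃ a ∈ A, N ≤ a := by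
  obtain ⟨c, hc, hx⟩ := hT
  by_contra hcon
  push Not at hcon
  obtain ⟨X, hX⟩ := exists_nat_gt ((N / c) ^ 2)
  obtain ⟨x, hXx, hcx⟩ := hx (max X 1)
  have hle : count A x ≤ N := by
    unfold count
    calc {a : ℕ | a ∈ A ∧ a < x}.ncard ≤ (Set.Iio N).ncard :=
          Set.ncard_le_ncard (fun a ha => hcon a ha.1) (Set.finite_Iio N)
      _ = N := by rw [← Finset.coe_range, Set.ncard_coe_finset, Finset.card_range]
  have hle' : (count A x : ℝ) ≤ N := by exact_mod_cast hle
  have h1 : Real.sqrt x ≤ N / c := by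
    rw [le_div_iff₀ hc]
    linarith
  have h2 : (x : ℝ) ≤ (N / c) ^ 2 := by
    calc (x : ℝ) = Real.sqrt x ^ 2 := (Real.sq_sqrt (by positivity)).symm
      _ ≤ _ := by gcongr
  have h3 : (X : ℝ) ≤ x := by exact_mod_cast (le_max_left X 1).trans hXx
  linarith

/-- part (2) for all sets of pairwise coprime moduli at once -/
theorem part2C (A : Set ℕ) (hT : Thick A) (G : ℝ) (hG : 0 < G) :
    ∃ c : ℝ, 0 < c ∧ ∀ N : ℕ, ∃ n : ℕ, N ≤ n ∧ ∀ M : Finset ℕ,
      (∀ m ∈ M, 2 ≤ m ∧ m ≤ n) → (M : Set ℕ).Pairwise Nat.Coprime →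
      c * Real.exp (∑ m ∈ M,
          min G (((m : ℝ) / (classes A m : ℝ) - 1) ^ 2) / m) ≤ (rep A n : ℝ) := by
  classical
  show ∃ c : ℝ, 0 < c ∧ ∀ N : ℕ, ∃ n : ℕ, N ≤ n ∧ ∀ M : Finset ℕ,
      (∀ m ∈ M, 2 ≤ m ∧ m ≤ n) → (M : Set ℕ).Pairwise Nat.Coprime →
      c * Real.exp (sm G A M) ≤ (rep A n : ℝ)
  obtain ⟨c1, hc1, h⟩ := part1C G hG
  have hinf := thick_inf hT
  obtain ⟨c, hc, hx⟩ := hT
  by_cases hbd : ∃ B : ℝ, ∀ M : Finset ℕ, (∀ m ∈ M, 2 ≤ m) →
      (M : Set ℕ).Pairwise Nat.Coprime → sm G A M ≤ B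
  · obtain ⟨B, hB⟩ := hbd
    refine ⟨Real.exp (-B), Real.exp_pos _, fun N => ?_⟩
    obtain ⟨a, haA, haN⟩ := hinf N
    refine ⟨a + a, by omega, fun M hM hcop => ?_⟩
    have h1 : (1 : ℝ) ≤ (rep A (a + a) : ℝ) := by
      have : 0 < rep A (a + a) := by
        unfold rep
        rw [Set.ncard_pos (finite_rs A (a + a))]
        exact ⟨(a, a), haA, haA, rfl⟩
      exact_mod_cast this
    refine le_trans ?_ h1
    rw [← Real.exp_add, Real.exp_le_one_iff]
    linarith [hB M (fun m hm => (hM m hm).1) hcop]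
  · push Not at hbd
    refine ⟨c1 * c ^ 2 * Real.exp (-G), by positivity, fun N => ?_⟩
    -- a bound for the values below `N`
    obtain ⟨V, hV⟩ : ∃ V : ℝ, ∀ n < N, (rep A n : ℝ) < V := by
      refine ⟨∑ n ∈ Finset.range N, (rep A n : ℝ) + 1, fun n hn => ?_⟩
      have := Finset.single_le_sum (f := fun n => (rep A n : ℝ)) (s := Finset.range N)
        (fun n _ => by positivity) (Finset.mem_range.2 hn)
      linarith
    obtain ⟨M0, hM02, hM0c, hM0⟩ := hbd (V / (c1 * c ^ 2))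
    obtain ⟨x, hxX, hxc⟩ := hx (max (M0.sup id) 1)
    have hx1 : 1 ≤ x := (le_max_right _ _).trans hxX
    have hM0x : ∀ m ∈ M0, m ≤ x := fun m hm =>
      (Finset.le_sup (f := id) hm).trans ((le_max_left _ _).trans hxX)
    have hxpos : (0 : ℝ) < x := by positivity
    rw [count_eq] at hxc
    have hTpos : (0 : ℝ) < ((tr A x).card : ℝ) :=
      lt_of_lt_of_le (mul_pos hc (Real.sqrt_pos.2 hxpos)) hxc
    have hne : (tr A x).Nonempty := Finset.card_pos.1 (by exact_mod_cast hTpos)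
    have hT2 : c ^ 2 * x ≤ ((tr A x).card : ℝ) ^ 2 := by
      calc c ^ 2 * x = (c * Real.sqrt x) ^ 2 := by
            rw [mul_pow, Real.sq_sqrt hxpos.le]
        _ ≤ _ := by gcongr
    -- the energy over the square of the size
    set E : ℝ := ∑ n ∈ Finset.range (2 * x), (rr (tr A x) n : ℝ) ^ 2 with hE
    have hkey : ∀ M : Finset ℕ, (∀ m ∈ M, 2 ≤ m ∧ m ≤ x) → (M : Set ℕ).Pairwise Nat.Coprime →
        c1 * c ^ 2 * Real.exp (sm G A M) ≤ E / ((tr A x).card : ℝ) ^ 2 := by
      intro M hM hcop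
      have h2 := h x (tr A x) M (fun a ha => (mem_tr.1 ha).1) hM hcop
      have hexp : sm G A M ≤ ∑ m ∈ M,
          min G (((m : ℝ) / (classes ((tr A x : Finset ℕ) : Set ℕ) m : ℝ) - 1) ^ 2) / m := by
        unfold sm
        refine Finset.sum_le_sum fun m hm => ?_
        have hm2 : 0 < m := by have := (hM m hm).1; omega
        have hmR : (0 : ℝ) < m := by exact_mod_cast hm2
        have := weight_mono (A := A) hne (fun b hb => (mem_tr.1 hb).2) m hm2
        gcongr
      simp only [rep_coe] at h2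
      have h3 : c1 * ((tr A x).card : ℝ) ^ 4 * Real.exp (sm G A M) ≤ x * E := by
        refine le_trans ?_ h2
        gcongr
      rw [le_div_iff₀ (by positivity)]
      have h4 : x * (c1 * c ^ 2 * Real.exp (sm G A M) * ((tr A x).card : ℝ) ^ 2) ≤ x * E := by
        refine le_trans ?_ h3
        calc x * (c1 * c ^ 2 * Real.exp (sm G A M) * ((tr A x).card : ℝ) ^ 2)
            = c1 * Real.exp (sm G A M) * ((tr A x).card : ℝ) ^ 2 * (c ^ 2 * x) := by ring
          _ ≤ c1 * Real.exp (sm G A M) * ((tr A x).card : ℝ) ^ 2 *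
              ((tr A x).card : ℝ) ^ 2 := by gcongr
          _ = _ := by ring
      exact le_of_mul_le_mul_left h4 hxpos
    obtain ⟨n, hn2, hn⟩ := large_value (tr A x) x (fun a ha => (mem_tr.1 ha).1) hne
      (E / ((tr A x).card : ℝ) ^ 2) (by
        rw [div_mul_cancel₀ _ (by positivity)])
    have hn' : E / ((tr A x).card : ℝ) ^ 2 ≤ (rep A n : ℝ) :=
      hn.trans (by exact_mod_cast rr_tr_le A x n)
    refine ⟨n, ?_, fun M hM hcop => ?_⟩
    · by_contra hlt
      push Not at hlt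
      have h5 := (hkey M0 (fun m hm => ⟨hM02 m hm, hM0x m hm⟩) hM0c).trans hn'
      have h6 := h5.trans_lt (hV n hlt)
      have h7 : V / (c1 * c ^ 2) < Real.exp (sm G A M0) := by
        calc V / (c1 * c ^ 2) < sm G A M0 := hM0
          _ ≤ sm G A M0 + 1 := by linarith
          _ ≤ _ := Real.add_one_le_exp _
      rw [div_lt_iff₀ (by positivity)] at h7
      linarith [mul_comm (Real.exp (sm G A M0)) (c1 * c ^ 2)]
    · have h5 : sm G A M ≤ sm G A (M.filter (fun m => m ≤ x)) + G :=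
        sm_split hG A hx1 M (fun m hm => by have := (hM m hm).2; omega)
      have h6 := hkey (M.filter (fun m => m ≤ x)) (fun m hm =>
        ⟨(hM m (mem_filter.1 hm).1).1, (mem_filter.1 hm).2⟩) (hcop.mono (by
          intro m hm
          exact mem_coe.2 (mem_filter.1 (mem_coe.1 hm)).1))
      calc c1 * c ^ 2 * Real.exp (-G) * Real.exp (sm G A M)
          ≤ c1 * c ^ 2 * Real.exp (-G) *
            Real.exp (sm G A (M.filter (fun m => m ≤ x)) + G) := by gcongr
        _ = c1 * c ^ 2 * (Real.exp (-G) *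
            Real.exp (sm G A (M.filter (fun m => m ≤ x)) + G)) := by ring
        _ = c1 * c ^ 2 * Real.exp (sm G A (M.filter (fun m => m ≤ x))) := by
            rw [← Real.exp_add]
            congr 2
            ring
        _ ≤ _ := h6.trans hn'

end Pool.Agent.Helper51.SV
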