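import Pool.Agent.Helper25.RC.Thick
import Pool.Agent.Helper51.SV.GenC

/-!
The large sieve for the additive energy relative to an arbitrary set: few elements of a set with
small energy lie in a sieved set.
-/

set_option autoImplicit false

namespace Pool.Agent.Helper51.Rel

open Finset Filter Pool.Agent.Helper25.RC

theorem rep_mono {A B : Set ℕ} (h : A ⊆ B) (n : ℕ) : rep A n ≤ rep B n := by
  classical
  unfold rep
  refine card_le_card fun p hp => ?_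
  have := mem_filter.1 hp
  exact mem_filter.2 ⟨this.1, h this.2.1, h this.2.2⟩

theorem sum_rep_mono {A B : Set ℕ} (h : A ⊆ B) (s : Finset ℕ) :
    ∑ n ∈ s, (rep A n : ℝ) ^ 2 ≤ ∑ n ∈ s, (rep B n : ℝ) ^ 2 := by
  refine sum_le_sum fun n _ => ?_
  have : (rep A n : ℝ) ≤ rep B n := by exact_mod_cast rep_mono h n
  gcongr

theorem below_coe_sub (A : Set ℕ) (x : ℕ) : ((below A x : Finset ℕ) : Set ℕ) ⊆ A := fun _ hn =>
  (mem_below.1 (mem_coe.1 hn)).2

/-- coprime moduli, relative to `T` -/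
theorem cop (G : ℝ) (hG : 0 < G) : ∃ c : ℝ, 0 < c ∧ ∀ (x : ℕ) (A T : Set ℕ) (M : Finset ℕ),
    (∀ m ∈ M, 2 ≤ m ∧ m ≤ x) → (M : Set ℕ).Pairwise Nat.Coprime →
    c * (#(below (A ∩ T) x) : ℝ) ^ 4 *
        Real.exp (∑ m ∈ M, min G (((m : ℝ) / classes T m - 1) ^ 2) / m) ≤
      x * ∑ n ∈ range (2 * x), (rep A n : ℝ) ^ 2 := by
  obtain ⟨c, hc, h⟩ := Pool.Agent.Helper51.SV.part1C G hG
  refine ⟨c, hc, fun x A T M hM hco => ?_⟩
  have hE0 : (0 : ℝ) ≤ x * ∑ n ∈ range (2 * x), (rep A n : ℝ) ^ 2 := by positivity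
  rcases (below (A ∩ T) x).eq_empty_or_nonempty with h0 | hne
  · rw [h0]
    simpa using hE0
  have h1 := h x (below (A ∩ T) x) M (fun a ha => (mem_below.1 ha).1) hM hco
  simp only [rep51] at h1
  have h2 : ∑ n ∈ range (2 * x), (rep ((below (A ∩ T) x : Finset ℕ) : Set ℕ) n : ℝ) ^ 2 ≤
      ∑ n ∈ range (2 * x), (rep A n : ℝ) ^ 2 :=
    sum_rep_mono ((below_coe_sub _ x).trans Set.inter_subset_left) _
  have h3 : ∑ m ∈ M, min G (((m : ℝ) / classes T m - 1) ^ 2) / m ≤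
      ∑ m ∈ M, min G (((m : ℝ) / (Pool.Agent.Helper51.SV.classes
        ((below (A ∩ T) x : Finset ℕ) : Set ℕ) m : ℝ) - 1) ^ 2) / m := by
    refine sum_le_sum fun m hm => ?_
    have hm0 : 0 < m := by have := (hM m hm).1; omega
    have := Pool.Agent.Helper51.SV.weight_mono (A := T) hne (fun b hb => (mem_below.1 hb).2.2) m hm0
    have hmR : (0 : ℝ) < m := by exact_mod_cast hm0
    rw [classes51] at this
    gcongr
  calc _ ≤ c * (#(below (A ∩ T) x) : ℝ) ^ 4 * Real.exp (∑ m ∈ M,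
        min G (((m : ℝ) / (Pool.Agent.Helper51.SV.classes
        ((below (A ∩ T) x : Finset ℕ) : Set ℕ) m : ℝ) - 1) ^ 2) / m) := by gcongr
    _ ≤ _ := h1
    _ ≤ _ := by gcongr

/-- chains of moduli, relative to `T` -/
theorem chain (x : ℕ) (A T : Set ℕ) (m : ℕ → ℕ) (J : ℕ) (hdvd : ∀ j, m j ∣ m (j + 1))
    (hlt : ∀ j, m j < m (j + 1)) (hJ : m J ≤ x) :
    (#(below (A ∩ T) x) : ℝ) ^ 4 * ∑ j ∈ range (J + 1), (m j : ℝ) / (classes T (m j) : ℝ) ^ 2 ≤
      21 * x * ∑ n ∈ range (2 * x), (rep A n : ℝ) ^ 2 := by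
  have hE0 : (0 : ℝ) ≤ 21 * x * ∑ n ∈ range (2 * x), (rep A n : ℝ) ^ 2 := by positivity
  rcases (below (A ∩ T) x).eq_empty_or_nonempty with h0 | hne
  · rw [h0]
    simpa using hE0
  have h1 := chain_set x (below (A ∩ T) x) (fun a ha => (mem_below.1 ha).1) m J hdvd hlt hJ
  have h2 : ∑ n ∈ range (2 * x), (rep ((below (A ∩ T) x : Finset ℕ) : Set ℕ) n : ℝ) ^ 2 ≤
      ∑ n ∈ range (2 * x), (rep A n : ℝ) ^ 2 :=
    sum_rep_mono ((below_coe_sub _ x).trans Set.inter_subset_left) _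
  have hsub : ((below (A ∩ T) x : Finset ℕ) : Set ℕ) ⊆ T :=
    (below_coe_sub _ x).trans Set.inter_subset_right
  have h3 : ∑ j ∈ range (J + 1), (m j : ℝ) / (classes T (m j) : ℝ) ^ 2 ≤
      ∑ j ∈ range (J + 1), (m j : ℝ) /
        (classes ((below (A ∩ T) x : Finset ℕ) : Set ℕ) (m j) : ℝ) ^ 2 := by
    refine sum_le_sum fun j _ => ?_
    rcases Nat.eq_zero_or_pos (m j) with hj | hj
    · rw [hj]; simp
    have hc1 : 0 < classes ((below (A ∩ T) x : Finset ℕ) : Set ℕ) (m j) := by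
      rw [← classes51]
      exact Pool.Agent.Helper51.SV.classes_pos (coe_nonempty.2 hne) _ hj
    have hc2 := classes_mono hsub hj
    have hc1' : (0 : ℝ) < (classes ((below (A ∩ T) x : Finset ℕ) : Set ℕ) (m j) : ℝ) := by
      exact_mod_cast hc1
    have hc2' : (classes ((below (A ∩ T) x : Finset ℕ) : Set ℕ) (m j) : ℝ) ≤ classes T (m j) := by
      exact_mod_cast hc2
    gcongr
  calc _ ≤ (#(below (A ∩ T) x) : ℝ) ^ 4 * ∑ j ∈ range (J + 1), (m j : ℝ) /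
        (classes ((below (A ∩ T) x : Finset ℕ) : Set ℕ) (m j) : ℝ) ^ 2 := by gcongr
    _ ≤ _ := h1
    _ ≤ _ := by gcongr

/-- the polynomial form, relative to `T` -/
theorem dim (δ K : ℝ) (hδ : 0 < δ) (hδ2 : δ ≤ 1 / 2) : ∃ c : ℝ, 0 < c ∧ ∀ (A T : Set ℕ),
    (∀ p : ℕ, p.Prime → (classes T p : ℝ) ≤ (1 - δ) * p + K) → ∀ x : ℕ, 2 ≤ x →
    c * (#(below (A ∩ T) x) : ℝ) ^ 4 * Real.log x ^ ((δ / (1 - δ)) ^ 2) ≤
      x * ∑ n ∈ range (2 * x), (rep A n : ℝ) ^ 2 := by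
  obtain ⟨c, hc, h⟩ := Pool.Agent.Helper51.SV.finite_form (by norm_num : (0 : ℝ) < 53) Pool.Agent.Helper51.SV.energy_ineq Pool.Agent.Helper51.SV.sum_lower' δ K hδ hδ2
  refine ⟨c, hc, fun A T hT x hx => ?_⟩
  have h1 := h (below (A ∩ T) x) x hx (fun a ha => (mem_below.1 ha).1) (fun p hp => by
    refine le_trans ?_ (hT p hp)
    rw [← Pool.Agent.Helper25.RC.classes_coe]
    exact_mod_cast classes_mono ((below_coe_sub _ x).trans Set.inter_subset_right) hp.pos)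
  have h2 : ∑ n ∈ range (2 * x), (Pool.Agent.Helper51.SV.rr (below (A ∩ T) x) n : ℝ) ^ 2 ≤
      ∑ n ∈ range (2 * x), (rep A n : ℝ) ^ 2 := by
    refine le_trans (le_of_eq ?_)
      (sum_rep_mono ((below_coe_sub (A ∩ T) x).trans Set.inter_subset_left) (range (2 * x)))
    refine sum_congr rfl fun n _ => ?_
    rw [← rep51, Pool.Agent.Helper51.SV.rep_coe]
  exact h1.trans (by gcongr)

/-- Few elements of a set with small energy lie in a sieved set. -/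
theorem few (δ K C : ℝ) (hδ : 0 < δ) (hδ2 : δ ≤ 1 / 2) : ∃ C' : ℝ, ∀ A T : Set ℕ,
    (∀ x : ℕ, ∑ n ∈ range x, (rep A n : ℝ) ^ 2 ≤ C * x) →
    (∀ p : ℕ, p.Prime → (classes T p : ℝ) ≤ (1 - δ) * p + K) →
    ∀ x : ℕ, 2 ≤ x → (#(below (A ∩ T) x) : ℝ) * Real.log x ^ ((δ / (1 - δ)) ^ 2 / 4) ≤
      C' * √x := by
  obtain ⟨c, hc, h⟩ := dim δ K hδ hδ2
  refine ⟨(2 * max C 0 / c) ^ ((1 : ℝ) / 4), fun A T hA hT x hx => ?_⟩
  have hx0 : (0 : ℝ) < x := by positivity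
  have hl : 0 ≤ Real.log x := Real.log_natCast_nonneg x
  have h1 := h A T hT x hx
  have h2 : ∑ n ∈ range (2 * x), (rep A n : ℝ) ^ 2 ≤ max C 0 * (2 * x) := by
    refine (hA (2 * x)).trans ?_
    push_cast
    gcongr
    exact le_max_left _ _
  have hC0 : 0 ≤ max C 0 := le_max_right _ _
  set b : ℝ := (#(below (A ∩ T) x) : ℝ) with hb
  have hb0 : 0 ≤ b := by positivity
  have h3 : (b * Real.log x ^ ((δ / (1 - δ)) ^ 2 / 4)) ^ 4 ≤
      ((2 * max C 0 / c) ^ ((1 : ℝ) / 4) * √x) ^ 4 := by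
    have e1 : (Real.log x ^ ((δ / (1 - δ)) ^ 2 / 4)) ^ 4 = Real.log x ^ ((δ / (1 - δ)) ^ 2) := by
      rw [← Real.rpow_natCast, ← Real.rpow_mul hl]
      congr 1
      push_cast
      ring
    have e2 : ((2 * max C 0 / c) ^ ((1 : ℝ) / 4)) ^ 4 = 2 * max C 0 / c := by
      rw [← Real.rpow_natCast, ← Real.rpow_mul (by positivity)]
      norm_num
    have e3 : (√(x : ℝ)) ^ 4 = (x : ℝ) ^ 2 := by
      rw [show (√(x : ℝ)) ^ 4 = ((√(x : ℝ)) ^ 2) ^ 2 by ring, Real.sq_sqrt hx0.le]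
    rw [mul_pow, mul_pow, e1, e2, e3, div_mul_eq_mul_div, le_div_iff₀ hc]
    calc b ^ 4 * Real.log x ^ ((δ / (1 - δ)) ^ 2) * c
        = c * b ^ 4 * Real.log x ^ ((δ / (1 - δ)) ^ 2) := by ring
      _ ≤ x * ∑ n ∈ range (2 * x), (rep A n : ℝ) ^ 2 := h1
      _ ≤ x * (max C 0 * (2 * x)) := by gcongr
      _ = 2 * max C 0 * (x : ℝ) ^ 2 := by ring
  exact le_of_pow_le_pow_left₀ (by norm_num) (by positivity) h3

/-- the squares meet at most `p / 2 + 1` classes modulo `p` -/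
theorem squares_classes (p : ℕ) (hp : 0 < p) :
    (classes {n : ℕ | IsSquare n} p : ℝ) ≤ (1 - 1 / 2) * p + 1 := by
  have h1 : classes {n : ℕ | IsSquare n} p ≤ p / 2 + 1 := by
    classical
    unfold classes
    have hsub : (fun a => a % p) '' {n : ℕ | IsSquare n} ⊆
        (((range (p / 2 + 1)).image fun r => r * r % p : Finset ℕ) : Set ℕ) := by
      rintro _ ⟨n, ⟨s, rfl⟩, rfl⟩
      rw [coe_image]
      have hs : s % p < p := Nat.mod_lt _ hp
      by_cases h : s % p ≤ p / 2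
      · refine ⟨s % p, ?_, ?_⟩
        · rw [mem_coe, mem_range]; omega
        · show s % p * (s % p) % p = s * s % p
          rw [← Nat.mul_mod]
      · refine ⟨p - s % p, ?_, ?_⟩
        · rw [mem_coe, mem_range]; omega
        · show (p - s % p) * (p - s % p) % p = s * s % p
          have e : (p - s % p) * (p - s % p) ≡ s % p * (s % p) [MOD p] := by
            have : ((p : ℤ) - (s % p : ℕ)) * ((p : ℤ) - (s % p : ℕ)) ≡
                ((s % p : ℕ) : ℤ) * ((s % p : ℕ) : ℤ) [ZMOD p] := by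
              refine (Int.modEq_iff_dvd.2 ⟨2 * ((s % p : ℕ) : ℤ) - p, ?_⟩)
              ring
            rw [← Int.natCast_modEq_iff]
            push_cast [Nat.cast_sub hs.le]
            push_cast at this
            exact this
          rw [e, ← Nat.mul_mod]
    calc _ ≤ (((range (p / 2 + 1)).image fun r => r * r % p : Finset ℕ) : Set ℕ).ncard :=
          Set.ncard_le_ncard hsub (Finset.finite_toSet _)
      _ = #((range (p / 2 + 1)).image fun r => r * r % p) := Set.ncard_coe_finset _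
      _ ≤ #(range (p / 2 + 1)) := card_image_le
      _ = _ := card_range _
  have h2 : ((p / 2 : ℕ) : ℝ) ≤ (p : ℝ) / 2 := Nat.cast_div_le
  calc (classes {n : ℕ | IsSquare n} p : ℝ) ≤ ((p / 2 + 1 : ℕ) : ℝ) := by exact_mod_cast h1
    _ ≤ _ := by push_cast; linarith

/-- Few elements of a set with small energy are squares. -/
theorem few_squares (C : ℝ) : ∃ C' : ℝ, ∀ A : Set ℕ,
    (∀ x : ℕ, ∑ n ∈ range x, (rep A n : ℝ) ^ 2 ≤ C * x) →
    ∀ x : ℕ, 2 ≤ x → (#(below (A ∩ {n | IsSquare n}) x) : ℝ) ≤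
      C' * √x / Real.log x ^ (1 / 4 : ℝ) := by
  obtain ⟨C', h⟩ := few (1 / 2) 1 C (by norm_num) le_rfl
  refine ⟨C', fun A hA x hx => ?_⟩
  have hl : 0 < Real.log x := Real.log_pos (by
    have : (2 : ℝ) ≤ x := by exact_mod_cast hx
    linarith)
  rw [le_div_iff₀ (Real.rpow_pos_of_pos hl _)]
  have h1 := h A {n | IsSquare n} hA (fun p hp => squares_classes p hp.pos) x hx
  have e : ((1 / 2 : ℝ) / (1 - 1 / 2)) ^ 2 / 4 = 1 / 4 := by norm_num
  rw [e] at h1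
  exact h1

/-- coprime moduli, rates -/
theorem cop_rate {A T : Set ℕ} (hA : ¬ Null (A ∩ T)) (G : ℝ) (hG : 0 < G) :
    ∃ c : ℝ, 0 < c ∧ ∀ N : ℕ, ∃ n : ℕ, N ≤ n ∧ ∀ M : Finset ℕ,
      (∀ m ∈ M, 2 ≤ m ∧ m ≤ n) → (M : Set ℕ).Pairwise Nat.Coprime →
      c * Real.exp (∑ m ∈ M, min G (((m : ℝ) / classes T m - 1) ^ 2) / m) ≤ rep A n := by
  obtain ⟨c, hc, h⟩ := Pool.Agent.Helper51.SV.part2C (A ∩ T) (thick51 hA) G hG
  have hne : (A ∩ T).Nonempty := by
    obtain ⟨a, ha, _⟩ := Pool.Agent.Helper51.SV.thick_inf (thick51 hA) 0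
    exact ⟨a, ha⟩
  refine ⟨c, hc, fun N => ?_⟩
  obtain ⟨n, hn, h'⟩ := h N
  refine ⟨n, hn, fun M hM hco => ?_⟩
  have h1 := h' M hM hco
  rw [rep51] at h1
  have h2 : (rep (A ∩ T) n : ℝ) ≤ rep A n := by
    exact_mod_cast rep_mono Set.inter_subset_left n
  refine le_trans ?_ (h1.trans h2)
  have h3 : ∑ m ∈ M, min G (((m : ℝ) / classes T m - 1) ^ 2) / m ≤
      ∑ m ∈ M, min G (((m : ℝ) / (Pool.Agent.Helper51.SV.classes (A ∩ T) m : ℝ) - 1) ^ 2) / m := by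
    refine sum_le_sum fun m hm => ?_
    have hm0 : 0 < m := by have := (hM m hm).1; omega
    have hmR : (0 : ℝ) < m := by exact_mod_cast hm0
    have hc1 : 0 < Pool.Agent.Helper51.SV.classes (A ∩ T) m := Pool.Agent.Helper51.SV.classes_pos hne m hm0
    have hc2 : Pool.Agent.Helper51.SV.classes (A ∩ T) m ≤ classes T m :=
      classes_mono Set.inter_subset_right hm0
    have hc3 : classes T m ≤ m := by
      unfold classes
      calc ((fun a => a % m) '' T).ncard ≤ (Set.Iio m).ncard := by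
            refine Set.ncard_le_ncard ?_ (Set.finite_Iio m)
            rintro r ⟨a, _, rfl⟩
            exact Nat.mod_lt _ hm0
        _ = m := by rw [← Finset.coe_range, Set.ncard_coe_finset, Finset.card_range]
    have hc1' : (0 : ℝ) < (Pool.Agent.Helper51.SV.classes (A ∩ T) m : ℝ) := by exact_mod_cast hc1
    have hc2' : (Pool.Agent.Helper51.SV.classes (A ∩ T) m : ℝ) ≤ classes T m := by
      exact_mod_cast hc2
    have hc3' : (classes T m : ℝ) ≤ m := by exact_mod_cast hc3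
    have h4 : 0 ≤ (m : ℝ) / classes T m - 1 := by
      rw [sub_nonneg, le_div_iff₀ (lt_of_lt_of_le hc1' hc2'), one_mul]
      exact hc3'
    have h5 : (m : ℝ) / classes T m ≤ (m : ℝ) / (Pool.Agent.Helper51.SV.classes (A ∩ T) m : ℝ) :=
      div_le_div_of_nonneg_left hmR.le hc1' hc2'
    gcongr
  gcongr

/-- polynomial form, rates -/
theorem dim_rate {A T : Set ℕ} (hA : ¬ Null (A ∩ T)) (δ K : ℝ) (hδ : 0 < δ) (hδ2 : δ ≤ 1 / 2)
    (hT : ∀ p : ℕ, p.Prime → (classes T p : ℝ) ≤ (1 - δ) * p + K) :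
    ∃ c : ℝ, 0 < c ∧ ∀ N : ℕ, ∃ n : ℕ, N ≤ n ∧
      c * Real.log n ^ ((δ / (1 - δ)) ^ 2) ≤ rep A n := by
  obtain ⟨c, hc, h⟩ := Pool.Agent.Helper51.SV.part2' (A ∩ T) (thick51 hA) δ K hδ hδ2 (fun p hp => by
    refine le_trans ?_ (hT p hp)
    exact_mod_cast classes_mono Set.inter_subset_right hp.pos)
  refine ⟨c, hc, fun N => ?_⟩
  obtain ⟨n, hn, h'⟩ := h N
  refine ⟨n, hn, h'.trans ?_⟩
  rw [rep51]
  exact_mod_cast rep_mono Set.inter_subset_left n

/-- squares, rates -/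
theorem squares_rate {A : Set ℕ} (hA : ¬ Null (A ∩ {n | IsSquare n})) :
    ∃ c : ℝ, 0 < c ∧ ∀ N : ℕ, ∃ n : ℕ, N ≤ n ∧ c * Real.log n ≤ rep A n := by
  have h := dim_rate hA (1 / 2) 1 (by norm_num) le_rfl (fun p hp => squares_classes p hp.pos)
  have e : ((1 / 2 : ℝ) / (1 - 1 / 2)) ^ 2 = 1 := by norm_num
  rw [e] at h
  simpa using h

/-- chains, rates -/
theorem chain_rate' {A T : Set ℕ} (hA : ¬ Null (A ∩ T)) :
    ∃ c : ℝ, 0 < c ∧ ∀ N : ℕ, ∃ n : ℕ, N ≤ n ∧ ∀ (m : ℕ → ℕ) (J : ℕ), (∀ j, m j ∣ m (j + 1)) →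
      (∀ j, m j < m (j + 1)) → m J ≤ n →
      c * ∑ j ∈ range (J + 1), (m j : ℝ) / (classes T (m j) : ℝ) ^ 2 ≤ (rep A n : ℝ) := by
  obtain ⟨c, hc, h⟩ := chain_rate hA
  have hne : (A ∩ T).Nonempty := by
    obtain ⟨a, ha, _⟩ := Pool.Agent.Helper51.SV.thick_inf (thick51 hA) 0
    exact ⟨a, ha⟩
  refine ⟨c, hc, fun N => ?_⟩
  obtain ⟨n, hn, h'⟩ := h N
  refine ⟨n, hn, fun m J hdvd hlt hJ => ?_⟩
  have h1 := h' m J hdvd hlt hJ
  have h2 : (rep (A ∩ T) n : ℝ) ≤ rep A n := by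
    exact_mod_cast rep_mono Set.inter_subset_left n
  refine le_trans ?_ (h1.trans h2)
  have h3 : ∑ j ∈ range (J + 1), (m j : ℝ) / (classes T (m j) : ℝ) ^ 2 ≤
      ∑ j ∈ range (J + 1), (m j : ℝ) / (classes (A ∩ T) (m j) : ℝ) ^ 2 := by
    refine sum_le_sum fun j _ => ?_
    rcases Nat.eq_zero_or_pos (m j) with hj | hj
    · rw [hj]; simp
    have hc1 : 0 < classes (A ∩ T) (m j) := by
      rw [← classes51]
      exact Pool.Agent.Helper51.SV.classes_pos hne _ hj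
    have hc2 : classes (A ∩ T) (m j) ≤ classes T (m j) := classes_mono Set.inter_subset_right hj
    have hc1' : (0 : ℝ) < (classes (A ∩ T) (m j) : ℝ) := by exact_mod_cast hc1
    have hc2' : (classes (A ∩ T) (m j) : ℝ) ≤ classes T (m j) := by exact_mod_cast hc2
    gcongr
  gcongr

end Pool.Agent.Helper51.Rel
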