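import Pool.Agent.Helper51.SV.GenC

/-!
SievedSets: the candidate statement.
-/

set_option autoImplicit false

namespace Pool.Agent.Helper51.SV

/-- Large sieve for the additive energy, and representation functions of sets that miss residue
classes modulo the primes. -/
theorem result :
    (∀ G : ℝ, 0 < G → ∃ c : ℝ, 0 < c ∧ ∀ (x : ℕ) (A M : Finset ℕ),
      (∀ a ∈ A, a < x) → (∀ m ∈ M, 2 ≤ m ∧ m ≤ x) → (M : Set ℕ).Pairwise Nat.Coprime →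
      c * (A.card : ℝ) ^ 4 * Real.exp (∑ m ∈ M,
          min G (((m : ℝ) / (classes (A : Set ℕ) m : ℝ) - 1) ^ 2) / m) ≤
        x * ∑ n ∈ Finset.range (2 * x), (rep (A : Set ℕ) n : ℝ) ^ 2) ∧
    (∀ A : Set ℕ, Thick A →
      (∀ G : ℝ, 0 < G → ∃ c : ℝ, 0 < c ∧ ∀ N : ℕ, ∃ n : ℕ, N ≤ n ∧ ∀ M : Finset ℕ,
        (∀ m ∈ M, 2 ≤ m ∧ m ≤ n) → (M : Set ℕ).Pairwise Nat.Coprime →
        c * Real.exp (∑ m ∈ M,
          min G (((m : ℝ) / (classes A m : ℝ) - 1) ^ 2) / m) ≤ (rep A n : ℝ)) ∧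
      (∀ δ K : ℝ, 0 < δ → δ ≤ 1 / 2 →
        (∀ p : ℕ, p.Prime → (classes A p : ℝ) ≤ (1 - δ) * p + K) →
        ∃ c : ℝ, 0 < c ∧ ∀ N : ℕ, ∃ n : ℕ, N ≤ n ∧
          c * Real.log n ^ ((δ / (1 - δ)) ^ 2) ≤ (rep A n : ℝ))) :=
  ⟨part1C, fun A hT => ⟨part2C A hT,
    fun δ K hδ hδ2 hA => part2' A hT δ K hδ hδ2 hA⟩⟩

end Pool.Agent.Helper51.SV
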