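import Pool.Agent.Helper51.SV.Sharp
import Pool.Agent.Helper25.RC.Thick

/-!
Sharpness of the energy bound for pairwise coprime moduli, in the notation of the joint text.
-/

set_option autoImplicit false

open Finset Filter

namespace Pool.Agent.Helper51.SV

theorem classes_lt {p : ℕ} (hp : p.Prime) (hp3 : p % 4 = 3) {A : Finset ℕ}
    (hA : ∀ a ∈ A, (a : ZMod p) ≠ 0 ∧ IsSquare (a : ZMod p)) :
    2 * Pool.Agent.Helper25.RC.classes (A : Set ℕ) p < p := by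
  have : Fact p.Prime := ⟨hp⟩
  have h1 : Pool.Agent.Helper25.RC.classes (A : Set ℕ) p ≤ (sq p).card := by
    unfold Pool.Agent.Helper25.RC.classes
    rw [← Set.ncard_coe_finset]
    refine Set.ncard_le_ncard ?_ (Finset.finite_toSet _)
    rintro _ ⟨a, ha, rfl⟩
    have h2 := hA a ha
    simp only [mem_coe, mem_sq, ZMod.natCast_mod]
    exact ⟨Nat.mod_lt _ hp.pos, h2⟩
  have h3 := card_sqs (p := p) hp3
  rw [← card_sq] at h3
  omega

theorem sharp_coprime : ∃ C : ℝ, ∀ P : Finset ℕ, (∀ p ∈ P, p.Prime ∧ p % 4 = 3) →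
    ∀ᶠ x : ℕ in atTop, ∃ A : Finset ℕ, (∀ a ∈ A, a < x) ∧ √x ≤ (A.card : ℝ) ∧
      (∀ p ∈ P, 2 * Pool.Agent.Helper25.RC.classes (A : Set ℕ) p < p) ∧
      ∑ n ∈ range (2 * x), (Pool.Agent.Helper25.RC.rep (A : Set ℕ) n : ℝ) ^ 2 ≤
        C * x * Real.exp (∑ p ∈ P, 1 / (p : ℝ)) := by
  obtain ⟨C, _, h⟩ := sharp
  refine ⟨C, fun P hP => ?_⟩
  obtain ⟨X, hX⟩ := h P hP
  refine eventually_atTop.2 ⟨X, fun x hx => ?_⟩
  obtain ⟨A, h1, h2, h3, h4⟩ := hX x hx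
  refine ⟨A, h1, h2, fun p hp => classes_lt (hP p hp).1 (hP p hp).2 (h3 p hp), ?_⟩
  simp only [Pool.Agent.Helper25.RC.rep51] at h4
  exact h4

end Pool.Agent.Helper51.SV
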