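import Pool.Agent.Helper51.SV.Main

/-!
The energy inequality in exponential form.
-/

set_option autoImplicit false

namespace Pool.Agent.Helper51.SV

open Finset

/-- Mertens type upper bound as a proposition -/
def LogSum : Prop := ∃ C1 : ℝ, ∀ Y : ℕ, 2 ≤ Y →
  ∑ p ∈ (Finset.Icc 1 Y).filter Nat.Prime, Real.log p / ((p : ℝ) - 1) ≤ C1 * Real.log Y

/-- the exponential lower bound for sums of multiplicative functions as a proposition -/
def SumExp : Prop := ∀ G : ℝ, 0 < G → ∃ c > 0, ∀ g : ℕ → ℝ,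
  (∀ p, p.Prime → 0 ≤ g p) → (∀ p, p.Prime → g p ≤ G) → ∀ Q : ℕ, 1 ≤ Q →
    c * Real.exp (∑ p ∈ (Finset.Icc 1 Q).filter Nat.Prime, g p / p) ≤
      ∑ q ∈ (Finset.Icc 1 Q).filter Squarefree, ∏ p ∈ q.primeFactors, (g p / ((p : ℝ) - 1))

theorem split_sum (g : ℕ → ℝ) (x : ℕ) :
    ∑ p ∈ (Finset.Icc 1 x).filter Nat.Prime, g p =
      ∑ p ∈ (Finset.Icc 1 (Nat.sqrt x)).filter Nat.Prime, g p +
      ∑ p ∈ ((Finset.Icc 1 x).filter Nat.Prime).filter (fun p => Nat.sqrt x < p), g p := by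
  rw [← Finset.sum_filter_add_sum_filter_not ((Finset.Icc 1 x).filter Nat.Prime)
    (fun p => p ≤ Nat.sqrt x)]
  congr 1
  · refine Finset.sum_congr ?_ fun _ _ => rfl
    ext p
    simp only [Finset.mem_filter, Finset.mem_Icc]
    constructor
    · rintro ⟨⟨⟨h1, h2⟩, h3⟩, h4⟩
      exact ⟨⟨h1, h4⟩, h3⟩
    · rintro ⟨⟨h1, h4⟩, h3⟩
      exact ⟨⟨⟨h1, h4.trans (Nat.sqrt_le_self x)⟩, h3⟩, h4⟩
  · refine Finset.sum_congr ?_ fun _ _ => rfl
    ext p
    simp only [Finset.mem_filter, not_le]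

theorem tail (R : LogSum) : ∃ C : ℝ, 0 ≤ C ∧ ∀ x : ℕ, 1 ≤ x →
    ∑ p ∈ ((Finset.Icc 1 x).filter Nat.Prime).filter (fun p => Nat.sqrt x < p), (1 : ℝ) / p ≤
      C := by
  obtain ⟨C1, hC1⟩ := R
  refine ⟨max (4 * C1) 1, le_max_of_le_right zero_le_one, fun x hx => ?_⟩
  have hlp : ∀ p : ℕ, p.Prime → 0 ≤ Real.log p / ((p : ℝ) - 1) := by
    intro p hp
    have : (2 : ℝ) ≤ p := by exact_mod_cast hp.two_le
    exact div_nonneg (Real.log_natCast_nonneg p) (by linarith)
  by_cases hx4 : 4 ≤ x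
  · refine le_max_of_le_left ?_
    have hQ : 2 ≤ Nat.sqrt x := by
      rw [Nat.le_sqrt']; omega
    have hQR : (2 : ℝ) ≤ (Nat.sqrt x : ℝ) := by exact_mod_cast hQ
    have hlQ : 0 < Real.log (Nat.sqrt x) := Real.log_pos (by linarith)
    have h1 : ∀ p ∈ ((Finset.Icc 1 x).filter Nat.Prime).filter (fun p => Nat.sqrt x < p),
        (1 : ℝ) / p ≤ (Real.log p / ((p : ℝ) - 1)) / Real.log (Nat.sqrt x) := by
      intro p hp
      have hp1 := Finset.mem_filter.1 hp
      have hp2 := (Finset.mem_filter.1 hp1.1).2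
      have hpR : (2 : ℝ) ≤ p := by exact_mod_cast hp2.two_le
      have hlt : (Nat.sqrt x : ℝ) < p := by exact_mod_cast hp1.2
      have hlog : Real.log (Nat.sqrt x) ≤ Real.log p := Real.log_le_log (by linarith) hlt.le
      rw [le_div_iff₀ hlQ, div_mul_eq_mul_div, one_mul]
      calc Real.log (Nat.sqrt x) / p ≤ Real.log p / p := by gcongr
        _ ≤ Real.log p / ((p : ℝ) - 1) :=
            div_le_div_of_nonneg_left (Real.log_natCast_nonneg p) (by linarith) (by linarith)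
    calc ∑ p ∈ ((Finset.Icc 1 x).filter Nat.Prime).filter (fun p => Nat.sqrt x < p), (1 : ℝ) / p
        ≤ ∑ p ∈ ((Finset.Icc 1 x).filter Nat.Prime).filter (fun p => Nat.sqrt x < p),
          (Real.log p / ((p : ℝ) - 1)) / Real.log (Nat.sqrt x) := Finset.sum_le_sum h1
      _ = (∑ p ∈ ((Finset.Icc 1 x).filter Nat.Prime).filter (fun p => Nat.sqrt x < p),
          (Real.log p / ((p : ℝ) - 1))) / Real.log (Nat.sqrt x) := by rw [Finset.sum_div]
      _ ≤ (∑ p ∈ (Finset.Icc 1 x).filter Nat.Prime,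
          (Real.log p / ((p : ℝ) - 1))) / Real.log (Nat.sqrt x) := by
          refine div_le_div_of_nonneg_right ?_ hlQ.le
          exact Finset.sum_le_sum_of_subset_of_nonneg
            (Finset.filter_subset (fun p => Nat.sqrt x < p) _)
            (fun p hp _ => hlp p (Finset.mem_filter.1 hp).2)
      _ ≤ (C1 * Real.log x) / Real.log (Nat.sqrt x) := by
          gcongr
          exact hC1 x (by omega)
      _ ≤ 4 * C1 := by
          have hC0 : 0 ≤ C1 := by
            have h2 := hC1 2 le_rfl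
            have h3 : 0 ≤ ∑ p ∈ (Finset.Icc 1 2).filter Nat.Prime, Real.log p / ((p : ℝ) - 1) :=
              Finset.sum_nonneg fun p hp => hlp p (Finset.mem_filter.1 hp).2
            have h4 : 0 ≤ C1 * Real.log (2 : ℕ) := h3.trans h2
            have h5 : 0 < Real.log ((2 : ℕ) : ℝ) := Real.log_pos (by norm_num)
            exact nonneg_of_mul_nonneg_left h4 h5
          rw [div_le_iff₀ hlQ]
          have := sqrt_log hx4
          nlinarith
  · push Not at hx4
    refine le_max_of_le_right ?_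
    have hsub : ((Finset.Icc 1 x).filter Nat.Prime).filter (fun p => Nat.sqrt x < p) ⊆
        ({2, 3} : Finset ℕ) := by
      intro p hp
      have hp1 := Finset.mem_filter.1 hp
      have hp2 := Finset.mem_filter.1 hp1.1
      have hp3 := Finset.mem_Icc.1 hp2.1
      have := hp2.2.two_le
      simp only [Finset.mem_insert, Finset.mem_singleton]
      omega
    calc ∑ p ∈ ((Finset.Icc 1 x).filter Nat.Prime).filter (fun p => Nat.sqrt x < p), (1 : ℝ) / p
        ≤ ∑ p ∈ ({2, 3} : Finset ℕ), (1 : ℝ) / p :=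
          Finset.sum_le_sum_of_subset_of_nonneg hsub (fun _ _ _ => by positivity)
      _ ≤ 1 := by
          rw [Finset.sum_pair (by norm_num)]
          norm_num

/-- the absolute inequality -/
theorem abs_form {D : ℝ} (hD : 0 < D) (E : EnergyIneq D) (SE : SumExp) (R : LogSum)
    (G : ℝ) (hG : 0 < G) :
    ∃ c > 0, ∀ (x : ℕ) (A : Finset ℕ), (∀ a ∈ A, a < x) →
      c * (A.card : ℝ) ^ 4 *
          Real.exp (∑ p ∈ (Finset.Icc 1 x).filter Nat.Prime, min G (gg A p) / p) ≤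
        x * ∑ n ∈ Finset.range (2 * x), (rr A n : ℝ) ^ 2 := by
  obtain ⟨c, hc, hcs⟩ := SE G hG
  obtain ⟨C, hC0, hC⟩ := tail R
  refine ⟨c * Real.exp (-(G * C)) / D, by positivity, fun x A hA => ?_⟩
  have hsum0 : 0 ≤ ∑ n ∈ Finset.range (2 * x), (rr A n : ℝ) ^ 2 :=
    Finset.sum_nonneg fun n _ => sq_nonneg _
  by_cases hAe : A = ∅
  · subst hAe
    have : (0 : ℝ) ≤ x * ∑ n ∈ Finset.range (2 * x), (rr ∅ n : ℝ) ^ 2 := by positivity
    refine le_trans (le_of_eq ?_) this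
    simp only [Finset.card_empty, Nat.cast_zero]
    ring
  obtain ⟨a0, ha0⟩ := Finset.nonempty_iff_ne_empty.2 hAe
  have hx1 : 1 ≤ x := by have := hA a0 ha0; omega
  have hQ1 : 1 ≤ Nat.sqrt x := by rw [Nat.le_sqrt']; omega
  set g : ℕ → ℝ := fun p => min G (gg A p) with hg
  have hg0 : ∀ p, p.Prime → 0 ≤ g p := fun p _ => le_min hG.le (sq_nonneg _)
  have hgG : ∀ p, p.Prime → g p ≤ G := fun p _ => min_le_left _ _
  have h1 := hcs g hg0 hgG (Nat.sqrt x) hQ1
  have h2 : ∑ q ∈ (Finset.Icc 1 (Nat.sqrt x)).filter Squarefree,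
      ∏ p ∈ q.primeFactors, (g p / ((p : ℝ) - 1)) ≤
      ∑ q ∈ (Finset.Icc 1 (Nat.sqrt x)).filter Squarefree,
        ∏ p ∈ q.primeFactors, (gg A p / ((p : ℝ) - 1)) := by
    refine Finset.sum_le_sum fun q _ => Finset.prod_le_prod (fun p hp => ?_) (fun p hp => ?_)
    · have hp' := Nat.prime_of_mem_primeFactors hp
      have : (2 : ℝ) ≤ p := by exact_mod_cast hp'.two_le
      exact div_nonneg (hg0 p hp') (by linarith)
    · have hp' := Nat.prime_of_mem_primeFactors hp
      have : (2 : ℝ) ≤ p := by exact_mod_cast hp'.two_le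
      have h3 : (0 : ℝ) < (p : ℝ) - 1 := by linarith
      gcongr
      exact min_le_right _ _
  have h3 := split_sum (fun p => g p / p) x
  have h4 : ∑ p ∈ ((Finset.Icc 1 x).filter Nat.Prime).filter (fun p => Nat.sqrt x < p), g p / p ≤
      G * C := by
    calc ∑ p ∈ ((Finset.Icc 1 x).filter Nat.Prime).filter (fun p => Nat.sqrt x < p), g p / p
        ≤ ∑ p ∈ ((Finset.Icc 1 x).filter Nat.Prime).filter (fun p => Nat.sqrt x < p),
          G * (1 / (p : ℝ)) := by
          refine Finset.sum_le_sum fun p hp => ?_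
          have hp' := (Finset.mem_filter.1 (Finset.mem_filter.1 hp).1).2
          have : (0 : ℝ) < p := by exact_mod_cast hp'.pos
          rw [mul_one_div]
          gcongr
          exact hgG p hp'
      _ = G * ∑ p ∈ ((Finset.Icc 1 x).filter Nat.Prime).filter (fun p => Nat.sqrt x < p),
          1 / (p : ℝ) := by rw [Finset.mul_sum]
      _ ≤ G * C := by gcongr; exact hC x hx1
  have h5 : Real.exp (-(G * C)) * Real.exp (∑ p ∈ (Finset.Icc 1 x).filter Nat.Prime, g p / p) ≤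
      Real.exp (∑ p ∈ (Finset.Icc 1 (Nat.sqrt x)).filter Nat.Prime, g p / p) := by
    rw [← Real.exp_add]
    refine Real.exp_le_exp.2 ?_
    linarith
  have h6 : c * Real.exp (-(G * C)) *
      Real.exp (∑ p ∈ (Finset.Icc 1 x).filter Nat.Prime, g p / p) ≤
      ∑ q ∈ (Finset.Icc 1 (Nat.sqrt x)).filter Squarefree,
        ∏ p ∈ q.primeFactors, (gg A p / ((p : ℝ) - 1)) := by
    calc c * Real.exp (-(G * C)) *
      Real.exp (∑ p ∈ (Finset.Icc 1 x).filter Nat.Prime, g p / p) =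
        c * (Real.exp (-(G * C)) *
          Real.exp (∑ p ∈ (Finset.Icc 1 x).filter Nat.Prime, g p / p)) := by ring
      _ ≤ c * Real.exp (∑ p ∈ (Finset.Icc 1 (Nat.sqrt x)).filter Nat.Prime, g p / p) := by gcongr
      _ ≤ _ := h1.trans h2
  have h7 := (mul_le_mul_of_nonneg_left h6 (by positivity : (0 : ℝ) ≤ (A.card : ℝ) ^ 4)).trans
    (E x A hA)
  have h8 : c * Real.exp (-(G * C)) / D * (A.card : ℝ) ^ 4 *
      Real.exp (∑ p ∈ (Finset.Icc 1 x).filter Nat.Prime, g p / p) =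
      ((A.card : ℝ) ^ 4 * (c * Real.exp (-(G * C)) *
      Real.exp (∑ p ∈ (Finset.Icc 1 x).filter Nat.Prime, g p / p))) / D := by ring
  show c * Real.exp (-(G * C)) / D * (A.card : ℝ) ^ 4 *
      Real.exp (∑ p ∈ (Finset.Icc 1 x).filter Nat.Prime, g p / p) ≤ _
  rw [h8, div_le_iff₀ hD]
  calc _ ≤ _ := h7
    _ = _ := by ring

end Pool.Agent.Helper51.SV
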