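import Pool.Agent.Helper78.SV.Exp

/-!
Sums over subsets of a set of pairwise coprime moduli.
-/

set_option autoImplicit false

namespace Pool.Agent.Helper51.SV

open Finset
open Pool.Agent.Helper9.Fam (pr mem_pr sum_log_div_le)

/-- Rankin's trick with the exact cutoff, for positive integers -/
theorem rankin_cut (P : Finset ℕ) (hP : ∀ p ∈ P, 1 ≤ p) (f : ℕ → ℝ) (hf : ∀ p ∈ P, 0 ≤ f p)
    (Y : ℕ) (hY : 2 ≤ Y) (hPY : ∀ p ∈ P, p ≤ Y) (C₁ : ℝ)
    (hC₁ : ∑ p ∈ P, f p * Real.log p ≤ C₁ * Real.log Y) (Q : ℕ) (hQ1 : 1 ≤ Q)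
    (hQ : (2 * C₁ + 1) * Real.log Y ≤ Real.log Q) :
    1 / 2 * ∏ p ∈ P, (1 + f p) ≤
      ∑ T ∈ P.powerset.filter (fun T => ∏ p ∈ T, p ≤ Q), ∏ p ∈ T, f p := by
  classical
  have hlY : 0 < Real.log Y := Real.log_pos (by exact_mod_cast (by omega : 1 < Y))
  set s : ℝ := 1 / Real.log Y with hs
  have hs0 : 0 < s := by positivity
  have hsY : s * Real.log Y = 1 := by
    rw [hs]
    field_simp
  have hx0 : ∀ p ∈ P, 0 ≤ s * Real.log p := fun p hp =>
    mul_nonneg hs0.le (Real.log_nonneg (by exact_mod_cast hP p hp))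
  have hx1 : ∀ p ∈ P, s * Real.log p ≤ 1 := by
    intro p hp
    rw [← hsY]
    refine mul_le_mul_of_nonneg_left (Real.log_le_log ?_ ?_) hs0.le
    · exact_mod_cast hP p hp
    · exact_mod_cast hPY p hp
  have hprod : ∀ T : Finset ℕ, T ⊆ P →
      ∏ p ∈ T, Real.exp (s * Real.log p) = Real.exp (s * Real.log ((∏ p ∈ T, p : ℕ) : ℝ)) := by
    intro T hT
    rw [← Real.exp_sum, ← mul_sum]
    congr 2
    push_cast
    rw [Real.log_prod]
    intro p hp
    have := hP p (hT hp)
    exact_mod_cast (by omega : p ≠ 0)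
  have h0 : 0 ≤ ∏ p ∈ P, (1 + f p) := prod_nonneg fun p hp => by
    have := hf p hp
    linarith
  have h1 : ∏ p ∈ P, (1 + f p) =
      ∑ T ∈ P.powerset.filter (fun T => ∏ p ∈ T, p ≤ Q), ∏ p ∈ T, f p +
      ∑ T ∈ P.powerset.filter (fun T => ¬ ∏ p ∈ T, p ≤ Q), ∏ p ∈ T, f p := by
    rw [prod_one_add, sum_filter_add_sum_filter_not]
  have h2 : ∑ T ∈ P.powerset.filter (fun T => ¬ ∏ p ∈ T, p ≤ Q), ∏ p ∈ T, f p ≤
      Real.exp (-(2 * C₁ + 1)) * ∏ p ∈ P, (1 + f p * Real.exp (s * Real.log p)) := by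
    rw [prod_one_add, mul_sum]
    refine (sum_le_sum (g := fun T => Real.exp (-(2 * C₁ + 1)) *
      ∏ p ∈ T, f p * Real.exp (s * Real.log p)) ?_).trans
      (sum_le_sum_of_subset_of_nonneg (filter_subset _ _) ?_)
    · intro T hT
      have hT1 := mem_powerset.1 (mem_filter.1 hT).1
      have hT2 : Q ≤ ∏ p ∈ T, p := (not_le.1 (mem_filter.1 hT).2).le
      have h0 : 0 ≤ ∏ p ∈ T, f p := prod_nonneg fun p hp => hf p (hT1 hp)
      show ∏ p ∈ T, f p ≤ Real.exp (-(2 * C₁ + 1)) * ∏ p ∈ T, f p * Real.exp (s * Real.log p)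
      rw [prod_mul_distrib, hprod T hT1]
      have h3 : 1 ≤ Real.exp (-(2 * C₁ + 1)) *
          Real.exp (s * Real.log ((∏ p ∈ T, p : ℕ) : ℝ)) := by
        rw [← Real.exp_add, Real.one_le_exp_iff]
        have h4 : Real.log Q ≤ Real.log ((∏ p ∈ T, p : ℕ) : ℝ) :=
          Real.log_le_log (by exact_mod_cast hQ1) (by exact_mod_cast hT2)
        have h5 : s * ((2 * C₁ + 1) * Real.log Y) ≤ s * Real.log ((∏ p ∈ T, p : ℕ) : ℝ) :=
          mul_le_mul_of_nonneg_left (hQ.trans h4) hs0.le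
        have h6 : s * ((2 * C₁ + 1) * Real.log Y) = (2 * C₁ + 1) * (s * Real.log Y) := by ring
        rw [h6, hsY] at h5
        linarith
      nlinarith
    · intro T hT _
      refine mul_nonneg (Real.exp_pos _).le (prod_nonneg fun p hp => ?_)
      exact mul_nonneg (hf p (mem_powerset.1 hT hp)) (Real.exp_pos _).le
  have h3 : ∏ p ∈ P, (1 + f p * Real.exp (s * Real.log p)) ≤
      Real.exp (2 * C₁) * ∏ p ∈ P, (1 + f p) := by
    have h4 : ∏ p ∈ P, (1 + f p * Real.exp (s * Real.log p)) ≤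
        ∏ p ∈ P, ((1 + f p) * Real.exp (2 * (s * (f p * Real.log p)))) := by
      refine prod_le_prod (fun p hp => ?_) fun p hp => ?_
      · have := mul_nonneg (hf p hp) (Real.exp_pos (s * Real.log p)).le
        linarith
      · have hfp := hf p hp
        have hx := hx0 p hp
        have h5 : Real.exp (s * Real.log p) - 1 ≤ 2 * (s * Real.log p) := by
          have h6 := Real.abs_exp_sub_one_le (x := s * Real.log p)
            (by rw [abs_of_nonneg hx]; exact hx1 p hp)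
          rw [abs_of_nonneg hx] at h6
          exact (le_abs_self _).trans h6
        have h7 : 0 ≤ Real.exp (s * Real.log p) - 1 := by
          have := Real.add_one_le_exp (s * Real.log p)
          linarith
        have h8 : 1 + f p * (Real.exp (s * Real.log p) - 1) ≤
            Real.exp (2 * (s * (f p * Real.log p))) := by
          have h9 := Real.add_one_le_exp (2 * (s * (f p * Real.log p)))
          have h10 : f p * (Real.exp (s * Real.log p) - 1) ≤ f p * (2 * (s * Real.log p)) :=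
            mul_le_mul_of_nonneg_left h5 hfp
          have h11 : f p * (2 * (s * Real.log p)) = 2 * (s * (f p * Real.log p)) := by ring
          linarith
        have h12 : (1 + f p) * (1 + f p * (Real.exp (s * Real.log p) - 1)) ≤
            (1 + f p) * Real.exp (2 * (s * (f p * Real.log p))) :=
          mul_le_mul_of_nonneg_left h8 (by linarith)
        have h13 : 0 ≤ f p * (f p * (Real.exp (s * Real.log p) - 1)) :=
          mul_nonneg hfp (mul_nonneg hfp h7)
        have h14 : (1 + f p) * (1 + f p * (Real.exp (s * Real.log p) - 1)) =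
            1 + f p * Real.exp (s * Real.log p) +
              f p * (f p * (Real.exp (s * Real.log p) - 1)) := by ring
        linarith
    refine h4.trans ?_
    rw [prod_mul_distrib, ← Real.exp_sum, mul_comm]
    refine mul_le_mul_of_nonneg_right (Real.exp_le_exp.2 ?_) h0
    rw [← mul_sum, ← mul_sum]
    have h5 : s * ∑ p ∈ P, f p * Real.log p ≤ s * (C₁ * Real.log Y) :=
      mul_le_mul_of_nonneg_left hC₁ hs0.le
    have h6 : s * (C₁ * Real.log Y) = C₁ * (s * Real.log Y) := by ring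
    rw [h6, hsY] at h5
    linarith
  have h4 : Real.exp (-(2 * C₁ + 1)) * ∏ p ∈ P, (1 + f p * Real.exp (s * Real.log p)) ≤
      1 / 2 * ∏ p ∈ P, (1 + f p) := by
    calc Real.exp (-(2 * C₁ + 1)) * ∏ p ∈ P, (1 + f p * Real.exp (s * Real.log p))
        ≤ Real.exp (-(2 * C₁ + 1)) * (Real.exp (2 * C₁) * ∏ p ∈ P, (1 + f p)) :=
          mul_le_mul_of_nonneg_left h3 (Real.exp_pos _).le
      _ = Real.exp (-1) * ∏ p ∈ P, (1 + f p) := by
          rw [← mul_assoc, ← Real.exp_add]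
          congr 2
          ring
      _ ≤ 1 / 2 * ∏ p ∈ P, (1 + f p) := by
          refine mul_le_mul_of_nonneg_right ?_ h0
          rw [Real.exp_neg, one_div]
          refine inv_anti₀ (by norm_num) ?_
          have := Real.add_one_le_exp (1 : ℝ)
          linarith
  linarith

/-- `log t / (t - 1)` decreases -/
theorem log_div_anti {m p : ℝ} (hp : 1 < p) (hpm : p ≤ m) :
    Real.log m / (m - 1) ≤ Real.log p / (p - 1) := by
  have hp1 : 0 < p - 1 := by linarith
  have hm1 : 0 < m - 1 := by linarith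
  rw [div_le_div_iff₀ hm1 hp1]
  have hconc := strictConcaveOn_log_Ioi.concaveOn
  have ha : 0 ≤ (m - p) / (m - 1) := div_nonneg (by linarith) hm1.le
  have hb : 0 ≤ (p - 1) / (m - 1) := div_nonneg hp1.le hm1.le
  have hab : (m - p) / (m - 1) + (p - 1) / (m - 1) = 1 := by
    rw [← add_div, div_eq_one_iff_eq hm1.ne']
    ring
  have h := hconc.2 (Set.mem_Ioi.2 one_pos : (1 : ℝ) ∈ Set.Ioi (0 : ℝ))
    (Set.mem_Ioi.2 (by linarith) : m ∈ Set.Ioi (0 : ℝ)) ha hb hab
  simp only [smul_eq_mul, Real.log_one, mul_zero, zero_add, mul_one] at h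
  have h2 : (m - p) / (m - 1) + (p - 1) / (m - 1) * m = p := by
    field_simp
    ring
  rw [h2, div_mul_eq_mul_div, div_le_iff₀ hm1] at h
  linarith

/-- the sum of `log m / (m - 1)` over pairwise coprime integers is at most the sum over primes -/
theorem sum_log_C (M : Finset ℕ) (hM : ∀ m ∈ M, 2 ≤ m)
    (hc : ∀ m ∈ M, ∀ k ∈ M, m ≠ k → Nat.Coprime m k) (Y : ℕ) (hY : 2 ≤ Y)
    (hMY : ∀ m ∈ M, m ≤ Y) :
    ∑ m ∈ M, Real.log m / ((m : ℝ) - 1) ≤ 6 * Real.log Y := by
  classical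
  have hp : ∀ m ∈ M, (Nat.minFac m).Prime := fun m hm =>
    Nat.minFac_prime (by have := hM m hm; omega)
  have hle : ∀ m ∈ M, Nat.minFac m ≤ m := fun m hm =>
    Nat.minFac_le (by have := hM m hm; omega)
  have hinj : Set.InjOn Nat.minFac (M : Set ℕ) := by
    intro m hm k hk h
    by_contra hne
    have h1 := hc m (mem_coe.1 hm) k (mem_coe.1 hk) hne
    have h2 := hp m (mem_coe.1 hm)
    have h3 : Nat.minFac m ∣ m := Nat.minFac_dvd m
    have h4 : Nat.minFac m ∣ k := by rw [h]; exact Nat.minFac_dvd k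
    exact Nat.Prime.not_coprime_iff_dvd.2 ⟨Nat.minFac m, h2, h3, h4⟩ h1
  calc ∑ m ∈ M, Real.log m / ((m : ℝ) - 1)
      ≤ ∑ m ∈ M, (fun p : ℕ => 1 / ((p : ℝ) - 1) * Real.log p) (Nat.minFac m) := by
        refine Finset.sum_le_sum fun m hm => ?_
        have h1 : (1 : ℝ) < (Nat.minFac m : ℝ) := by exact_mod_cast (hp m hm).one_lt
        have h2 : ((Nat.minFac m : ℕ) : ℝ) ≤ m := by exact_mod_cast hle m hm
        refine (log_div_anti h1 h2).trans (le_of_eq ?_)
        show _ = 1 / ((Nat.minFac m : ℝ) - 1) * Real.log (Nat.minFac m)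
        rw [one_div, mul_comm, div_eq_mul_inv]
    _ = ∑ p ∈ M.image Nat.minFac, (fun p : ℕ => 1 / ((p : ℝ) - 1) * Real.log p) p := by
        rw [Finset.sum_image hinj]
    _ ≤ ∑ p ∈ pr Y, 1 / ((p : ℝ) - 1) * Real.log p := by
        refine Finset.sum_le_sum_of_subset_of_nonneg ?_ ?_
        · intro p hpp
          obtain ⟨m, hm, rfl⟩ := Finset.mem_image.1 hpp
          exact mem_pr.2 ⟨hp m hm, (hle m hm).trans (hMY m hm)⟩
        · intro p hpp _
          have h2 : (1 : ℝ) ≤ p := by exact_mod_cast (mem_pr.1 hpp).1.one_le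
          exact mul_nonneg (div_nonneg zero_le_one (by linarith)) (Real.log_nonneg h2)
    _ ≤ 6 * Real.log Y := Helper78.SV.sum_log_div_sub_one_le Y hY

theorem sum_sq_C (M : Finset ℕ) (hM : ∀ m ∈ M, 1 ≤ m) : ∑ m ∈ M, (1 / (m : ℝ)) ^ 2 ≤ 2 := by
  have h : ∀ n : ℕ, 1 ≤ n → ∑ p ∈ Icc 1 n, (1 / (p : ℝ)) ^ 2 ≤ 2 - 1 / (n : ℝ) := by
    intro n hn
    induction n, hn using Nat.le_induction with
    | base => norm_num
    | succ n hn ih =>
      rw [Finset.sum_Icc_succ_top (by omega)]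
      have hnr : (1 : ℝ) ≤ n := by exact_mod_cast hn
      have h1 : (1 / ((n + 1 : ℕ) : ℝ)) ^ 2 ≤ 1 / (n : ℝ) - 1 / ((n + 1 : ℕ) : ℝ) := by
        push_cast
        rw [div_sub_div _ _ (by linarith) (by linarith), div_pow, div_le_div_iff₀ (by positivity)
          (by positivity)]
        nlinarith
      linarith
  rcases M.eq_empty_or_nonempty with hE | hne
  · rw [hE]; norm_num
  · have hsub : M ⊆ Icc 1 (M.sup id) := fun m hm => mem_Icc.2 ⟨hM m hm, Finset.le_sup (f := id) hm⟩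
    obtain ⟨m0, hm0⟩ := hne
    have h1 : 1 ≤ M.sup id := (hM m0 hm0).trans (Finset.le_sup (f := id) hm0)
    have h2 : (0 : ℝ) ≤ 1 / ((M.sup id : ℕ) : ℝ) := by positivity
    calc ∑ m ∈ M, (1 / (m : ℝ)) ^ 2 ≤ ∑ m ∈ Icc 1 (M.sup id), (1 / (m : ℝ)) ^ 2 :=
          Finset.sum_le_sum_of_subset_of_nonneg hsub (fun _ _ _ => by positivity)
      _ ≤ _ := by linarith [h _ h1]

end Pool.Agent.Helper51.SV
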