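import Mathlib

/-!
Sets restricted modulo all primes: from the energy inequality to representation functions.
-/

set_option autoImplicit false

namespace Pool.Agent.Helper51.SV

open Finset

/-- ordered pairs of elements of the finite set `A` with sum `n` -/
def rr (A : Finset ℕ) (n : ℕ) : ℕ := ((A ×ˢ A).filter (fun u => u.1 + u.2 = n)).card

/-- the sieve weight of the finite set `A` modulo `p` -/
noncomputable def gg (A : Finset ℕ) (p : ℕ) : ℝ :=
  ((p : ℝ) / ((A.image (· % p)).card : ℝ) - 1) ^ 2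

theorem g_lower {δ K p ν : ℝ} (hδ : 0 < δ) (hδ2 : δ ≤ 1 / 2) (hK : 0 ≤ K) (hp : 0 < p)
    (hν : 0 < ν) (h : ν ≤ (1 - δ) * p + K) :
    (δ / (1 - δ)) ^ 2 - 8 * K / p ≤ (p / ν - 1) ^ 2 := by
  have h1 : 0 < 1 - δ := by linarith
  have h1' : 1 / 2 ≤ 1 - δ := by linarith
  set κ : ℝ := δ / (1 - δ) with hκ
  have hκ0 : 0 < κ := div_pos hδ h1
  have hκ1 : κ ≤ 1 := by
    rw [hκ, div_le_one h1]; linarith
  set D : ℝ := (1 - δ) * p + K with hD
  have hD0 : 0 < D := lt_of_lt_of_le hν h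
  set y : ℝ := p / D - 1 with hy
  have hy1 : κ - y ≤ 4 * K / p := by
    have e1 : κ - y = K * (κ + 1) / D := by
      have hκδ : κ * (1 - δ) = δ := by rw [hκ]; field_simp
      rw [hy]
      field_simp
      rw [hD]
      linear_combination p * hκδ
    rw [e1, div_le_div_iff₀ hD0 hp]
    have e2 : K * (κ + 1) * p ≤ K * 2 * p := by
      have : K * (κ + 1) ≤ K * 2 := mul_le_mul_of_nonneg_left (by linarith) hK
      exact mul_le_mul_of_nonneg_right this hp.le
    have e3 : 4 * K * (p / 2) ≤ 4 * K * D := by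
      have : p / 2 ≤ D := by
        rw [hD]; nlinarith
      exact mul_le_mul_of_nonneg_left this (by linarith)
    nlinarith
  have hy2 : κ ^ 2 - 8 * K / p ≤ κ ^ 2 - 2 * κ * (κ - y) := by
    have hKp : 0 ≤ 4 * K / p := by positivity
    have e1 : κ * (κ - y) ≤ 4 * K / p := by
      by_cases hc : 0 ≤ κ - y
      · calc κ * (κ - y) ≤ 1 * (κ - y) := mul_le_mul_of_nonneg_right hκ1 hc
          _ ≤ _ := by linarith
      · push Not at hc
        exact (mul_nonpos_of_nonneg_of_nonpos hκ0.le hc.le).trans hKp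
    have e2 : 8 * K / p = 2 * (4 * K / p) := by ring
    rw [e2]
    linarith
  refine hy2.trans ?_
  by_cases hc : 0 ≤ y
  · have e1 : y ≤ p / ν - 1 := by
      have : p / D ≤ p / ν := div_le_div_of_nonneg_left hp.le hν h
      rw [hy]; linarith
    have e2 : y ^ 2 ≤ (p / ν - 1) ^ 2 := by gcongr
    refine le_trans ?_ e2
    nlinarith [sq_nonneg (κ - y)]
  · push Not at hc
    have : κ ^ 2 - 2 * κ * (κ - y) ≤ 0 := by nlinarith
    exact this.trans (sq_nonneg _)

/-- the energy inequality as a proposition -/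
def EnergyIneq (D : ℝ) : Prop := ∀ (x : ℕ) (A : Finset ℕ), (∀ a ∈ A, a < x) →
  (A.card : ℝ) ^ 4 * ∑ q ∈ (Finset.Icc 1 (Nat.sqrt x)).filter Squarefree,
    ∏ p ∈ q.primeFactors, (gg A p / ((p : ℝ) - 1)) ≤
      D * x * ∑ n ∈ Finset.range (2 * x), (rr A n : ℝ) ^ 2

/-- the lower bound for sums of multiplicative functions as a proposition -/
def SumLower : Prop := ∀ h C : ℝ, 0 < h → h ≤ 1 → 0 ≤ C → ∃ c > 0, ∀ g : ℕ → ℝ,
  (∀ p, p.Prime → 0 ≤ g p) → (∀ p, p.Prime → h - C / p ≤ g p) → ∀ Q : ℕ, 2 ≤ Q →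
    c * (Real.log Q) ^ h ≤ ∑ q ∈ (Finset.Icc 1 Q).filter Squarefree,
      ∏ p ∈ q.primeFactors, (g p / ((p : ℝ) - 1))

theorem sqrt_log {x : ℕ} (hx : 4 ≤ x) : (1 / 4 : ℝ) * Real.log x ≤ Real.log (Nat.sqrt x) := by
  have hQ : 2 ≤ Nat.sqrt x := by
    rw [Nat.le_sqrt']; omega
  have h1 : x ≤ (Nat.sqrt x) ^ 4 := by
    have h2 : x < (Nat.sqrt x + 1) * (Nat.sqrt x + 1) := Nat.lt_succ_sqrt x
    have h3 : Nat.sqrt x + 1 ≤ Nat.sqrt x * Nat.sqrt x := by nlinarith
    calc x ≤ (Nat.sqrt x + 1) * (Nat.sqrt x + 1) := h2.le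
      _ ≤ (Nat.sqrt x * Nat.sqrt x) * (Nat.sqrt x * Nat.sqrt x) := Nat.mul_le_mul h3 h3
      _ = _ := by ring
  have h4 : Real.log x ≤ Real.log ((Nat.sqrt x : ℝ) ^ 4) := by
    refine Real.log_le_log (by positivity) ?_
    exact_mod_cast h1
  rw [Real.log_pow] at h4
  push_cast at h4
  linarith

/-- the finite form of part (2) -/
theorem finite_form {D : ℝ} (hD : 0 < D) (E : EnergyIneq D) (SL : SumLower)
    (δ K : ℝ) (hδ : 0 < δ) (hδ2 : δ ≤ 1 / 2) :
    ∃ c > 0, ∀ (A : Finset ℕ) (x : ℕ), 2 ≤ x → (∀ a ∈ A, a < x) →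
      (∀ p : ℕ, p.Prime → ((A.image (· % p)).card : ℝ) ≤ (1 - δ) * p + K) →
      c * (A.card : ℝ) ^ 4 * (Real.log x) ^ ((δ / (1 - δ)) ^ 2) ≤
        x * ∑ n ∈ Finset.range (2 * x), (rr A n : ℝ) ^ 2 := by
  set h : ℝ := (δ / (1 - δ)) ^ 2 with hh
  have h1 : 0 < 1 - δ := by linarith
  have hκ0 : 0 < δ / (1 - δ) := div_pos hδ h1
  have hκ1 : δ / (1 - δ) ≤ 1 := by
    rw [div_le_one h1]; linarith
  have h0 : 0 < h := by positivity
  have hle : h ≤ 1 := by
    rw [hh]; exact pow_le_one₀ hκ0.le hκ1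
  obtain ⟨c, hc, hcs⟩ := SL h (8 * max K 0) h0 hle (by positivity)
  refine ⟨min (1 / 2) (c / 4) / D, by positivity, ?_⟩
  intro A x hx hA hν
  have hE := E x A hA
  have hsum0 : 0 ≤ ∑ n ∈ Finset.range (2 * x), (rr A n : ℝ) ^ 2 :=
    Finset.sum_nonneg fun n _ => sq_nonneg _
  have hlogx : 0 ≤ Real.log x := Real.log_natCast_nonneg x
  by_cases hAe : A = ∅
  · subst hAe
    simp only [Finset.card_empty, Nat.cast_zero]
    have : (0 : ℝ) ≤ x * ∑ n ∈ Finset.range (2 * x), (rr ∅ n : ℝ) ^ 2 := by positivity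
    refine le_trans (le_of_eq ?_) this
    ring
  have hne : A.Nonempty := Finset.nonempty_iff_ne_empty.2 hAe
  -- lower bound for the sieve sum
  have key : min (1 / 2) (c / 4) * (Real.log x) ^ h ≤
      ∑ q ∈ (Finset.Icc 1 (Nat.sqrt x)).filter Squarefree,
        ∏ p ∈ q.primeFactors, (gg A p / ((p : ℝ) - 1)) := by
    by_cases hx4 : 4 ≤ x
    · have hQ : 2 ≤ Nat.sqrt x := by
        rw [Nat.le_sqrt']; omega
      have h2 := hcs (gg A) (fun p _ => sq_nonneg _) (fun p hp => by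
        have hν' : (0 : ℝ) < ((A.image (· % p)).card : ℝ) := by
          exact_mod_cast Finset.card_pos.2 (hne.image _)
        have hp0 : (0 : ℝ) < p := by exact_mod_cast hp.pos
        refine g_lower hδ hδ2 (le_max_right K 0) hp0 hν' ?_
        exact (hν p hp).trans (by linarith [le_max_left K 0])) (Nat.sqrt x) hQ
      refine le_trans ?_ h2
      have h3 : (1 / 4 : ℝ) * Real.log x ≤ Real.log (Nat.sqrt x) := sqrt_log hx4
      have h4 : ((1 / 4 : ℝ) * Real.log x) ^ h ≤ (Real.log (Nat.sqrt x)) ^ h :=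
        Real.rpow_le_rpow (by positivity) h3 h0.le
      rw [Real.mul_rpow (by norm_num) hlogx] at h4
      have h5 : (1 / 4 : ℝ) ≤ (1 / 4 : ℝ) ^ h := by
        calc (1 / 4 : ℝ) = (1 / 4 : ℝ) ^ (1 : ℝ) := by rw [Real.rpow_one]
          _ ≤ (1 / 4 : ℝ) ^ h := Real.rpow_le_rpow_of_exponent_ge (by norm_num) (by norm_num) hle
      have h6 : 0 ≤ (Real.log x) ^ h := Real.rpow_nonneg hlogx h
      calc min (1 / 2) (c / 4) * (Real.log x) ^ h ≤ c / 4 * (Real.log x) ^ h := by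
            gcongr
            exact min_le_right _ _
        _ = c * (1 / 4 * (Real.log x) ^ h) := by ring
        _ ≤ c * ((1 / 4 : ℝ) ^ h * (Real.log x) ^ h) := by gcongr
        _ ≤ _ := by gcongr
    · push Not at hx4
      have hsq : Nat.sqrt x = 1 := by
        have h2 : 1 ≤ Nat.sqrt x := by rw [Nat.le_sqrt']; omega
        have h3 : Nat.sqrt x < 2 := by rw [Nat.sqrt_lt']; omega
        omega
      rw [hsq]
      have hf : (Finset.Icc 1 1).filter Squarefree = ({1} : Finset ℕ) := by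
        ext a
        simp only [Finset.mem_filter, Finset.mem_Icc, Finset.mem_singleton]
        constructor
        · rintro ⟨⟨h2, h3⟩, _⟩; omega
        · rintro rfl; exact ⟨⟨le_rfl, le_rfl⟩, squarefree_one⟩
      rw [hf, Finset.sum_singleton]
      simp only [Nat.primeFactors_one, Finset.prod_empty]
      have hl : Real.log x ≤ 2 := by
        have hx' : (0 : ℝ) < x := by positivity
        have := Real.log_le_sub_one_of_pos hx'
        have hx3 : (x : ℝ) ≤ 3 := by exact_mod_cast (by omega : x ≤ 3)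
        linarith
      have h2 : (Real.log x) ^ h ≤ 2 := by
        calc (Real.log x) ^ h ≤ (2 : ℝ) ^ h := Real.rpow_le_rpow hlogx hl h0.le
          _ ≤ (2 : ℝ) ^ (1 : ℝ) := Real.rpow_le_rpow_of_exponent_le (by norm_num) hle
          _ = 2 := Real.rpow_one 2
      have h6 : 0 ≤ (Real.log x) ^ h := Real.rpow_nonneg hlogx h
      calc min (1 / 2) (c / 4) * (Real.log x) ^ h ≤ 1 / 2 * (Real.log x) ^ h := by
            gcongr
            exact min_le_left _ _
        _ ≤ 1 / 2 * 2 := by gcongr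
        _ = 1 := by norm_num
  have h7 : (A.card : ℝ) ^ 4 * (min (1 / 2) (c / 4) * (Real.log x) ^ h) ≤
      D * x * ∑ n ∈ Finset.range (2 * x), (rr A n : ℝ) ^ 2 :=
    (mul_le_mul_of_nonneg_left key (by positivity)).trans hE
  have h8 : min (1 / 2) (c / 4) / D * (A.card : ℝ) ^ 4 * (Real.log x) ^ h =
      ((A.card : ℝ) ^ 4 * (min (1 / 2) (c / 4) * (Real.log x) ^ h)) / D := by ring
  rw [h8, div_le_iff₀ hD]
  calc _ ≤ _ := h7
    _ = _ := by ring

theorem sum_rr (A : Finset ℕ) (x : ℕ) (hA : ∀ a ∈ A, a < x) :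
    ∑ n ∈ Finset.range (2 * x), (rr A n : ℝ) = (A.card : ℝ) ^ 2 := by
  have h : (A ×ˢ A).card = ∑ n ∈ Finset.range (2 * x), rr A n := by
    unfold rr
    refine Finset.card_eq_sum_card_fiberwise (f := fun u : ℕ × ℕ => u.1 + u.2) ?_
    intro u hu
    have hu' := Finset.mem_product.1 (Finset.mem_coe.1 hu)
    have h1 := hA _ hu'.1
    have h2 := hA _ hu'.2
    exact Finset.mem_coe.2 (Finset.mem_range.2 (by show u.1 + u.2 < 2 * x; omega))
  rw [Finset.card_product] at h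
  have h2 : ((A.card * A.card : ℕ) : ℝ) = ((∑ n ∈ Finset.range (2 * x), rr A n : ℕ) : ℝ) := by
    rw [h]
  push_cast at h2
  rw [← h2]
  ring

/-- a large value of the representation function -/
theorem large_value (A : Finset ℕ) (x : ℕ) (hA : ∀ a ∈ A, a < x) (hne : A.Nonempty) (R : ℝ)
    (h : R * (A.card : ℝ) ^ 2 ≤ ∑ n ∈ Finset.range (2 * x), (rr A n : ℝ) ^ 2) :
    ∃ n < 2 * x, R ≤ rr A n := by
  by_contra hcon
  push Not at hcon
  have hpos : 0 < ∑ n ∈ Finset.range (2 * x), (rr A n : ℝ) := by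
    rw [sum_rr A x hA]
    have : 0 < A.card := Finset.card_pos.2 hne
    positivity
  have hex : ∃ n ∈ Finset.range (2 * x), 0 < (rr A n : ℝ) := by
    by_contra h'
    push Not at h'
    exact absurd (Finset.sum_nonpos h') (not_le.2 hpos)
  obtain ⟨n0, hn0, hn0'⟩ := hex
  have h1 : ∑ n ∈ Finset.range (2 * x), (rr A n : ℝ) ^ 2 <
      ∑ n ∈ Finset.range (2 * x), R * (rr A n : ℝ) := by
    refine Finset.sum_lt_sum (fun n hn => ?_) ⟨n0, hn0, ?_⟩
    · have := (hcon n (Finset.mem_range.1 hn)).le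
      have h2 : (0 : ℝ) ≤ rr A n := by positivity
      nlinarith
    · have := hcon n0 (Finset.mem_range.1 hn0)
      nlinarith
  rw [← Finset.mul_sum, sum_rr A x hA] at h1
  linarith

/-- the representation function of a set -/
noncomputable def rs (A : Set ℕ) (n : ℕ) : ℕ :=
  {u : ℕ × ℕ | u.1 ∈ A ∧ u.2 ∈ A ∧ u.1 + u.2 = n}.ncard

theorem finite_rs (A : Set ℕ) (n : ℕ) :
    {u : ℕ × ℕ | u.1 ∈ A ∧ u.2 ∈ A ∧ u.1 + u.2 = n}.Finite := by
  refine ((Finset.range (n + 1) ×ˢ Finset.range (n + 1)).finite_toSet).subset ?_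
  rintro u ⟨_, _, h⟩
  simp only [Finset.coe_product, Finset.coe_range, Set.mem_prod, Set.mem_Iio]
  omega

open Classical in
/-- the truncation of a set -/
noncomputable def tr (A : Set ℕ) (x : ℕ) : Finset ℕ := (Finset.range x).filter (· ∈ A)

theorem mem_tr {A : Set ℕ} {x a : ℕ} : a ∈ tr A x ↔ a < x ∧ a ∈ A := by
  classical
  unfold tr
  rw [Finset.mem_filter, Finset.mem_range]

theorem card_tr (A : Set ℕ) (x : ℕ) : (tr A x).card = {a ∈ A | a < x}.ncard := by
  rw [← Set.ncard_coe_finset]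
  congr 1
  ext a
  rw [Finset.mem_coe, mem_tr]
  exact ⟨fun h => ⟨h.2, h.1⟩, fun h => ⟨h.2, h.1⟩⟩

theorem rr_tr_le (A : Set ℕ) (x n : ℕ) : rr (tr A x) n ≤ rs A n := by
  unfold rr rs
  rw [← Set.ncard_coe_finset]
  refine Set.ncard_le_ncard ?_ (finite_rs A n)
  intro u hu
  have hu' := Finset.mem_filter.1 (Finset.mem_coe.1 hu)
  have hu2 := Finset.mem_product.1 hu'.1
  exact ⟨(mem_tr.1 hu2.1).2, (mem_tr.1 hu2.2).2, hu'.2⟩

theorem image_tr_le (A : Set ℕ) (x p : ℕ) (hp : 0 < p) :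
    ((tr A x).image (· % p)).card ≤ ((fun a => a % p) '' A).ncard := by
  rw [← Set.ncard_coe_finset]
  refine Set.ncard_le_ncard ?_ ?_
  · intro r hr
    obtain ⟨a, ha, rfl⟩ := Finset.mem_image.1 (Finset.mem_coe.1 hr)
    exact ⟨a, (mem_tr.1 ha).2, rfl⟩
  · refine (Set.finite_Iio p).subset ?_
    rintro r ⟨a, _, rfl⟩
    exact Nat.mod_lt _ hp

/-- part (2), mean square -/
theorem part2a {D : ℝ} (hD : 0 < D) (E : EnergyIneq D) (SL : SumLower)
    (δ K : ℝ) (hδ : 0 < δ) (hδ2 : δ ≤ 1 / 2) :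
    ∃ c > 0, ∀ A : Set ℕ,
      (∀ p : ℕ, p.Prime → (((fun a => a % p) '' A).ncard : ℝ) ≤ (1 - δ) * p + K) →
      ∀ x : ℕ, 2 ≤ x →
        c * ({a ∈ A | a < x}.ncard : ℝ) ^ 4 * (Real.log x) ^ ((δ / (1 - δ)) ^ 2) ≤
          x * ∑ n ∈ Finset.range (2 * x), (rs A n : ℝ) ^ 2 := by
  obtain ⟨c, hc, h⟩ := finite_form hD E SL δ K hδ hδ2
  refine ⟨c, hc, fun A hA x hx => ?_⟩
  have h1 := h (tr A x) x hx (fun a ha => (mem_tr.1 ha).1) (fun p hp => by
    refine le_trans ?_ (hA p hp)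
    exact_mod_cast image_tr_le A x p hp.pos)
  rw [card_tr] at h1
  refine h1.trans ?_
  gcongr with n _
  exact rr_tr_le A x n

/-- part (2), large values -/
theorem part2b {D : ℝ} (hD : 0 < D) (E : EnergyIneq D) (SL : SumLower)
    (δ K : ℝ) (hδ : 0 < δ) (hδ2 : δ ≤ 1 / 2) (A : Set ℕ)
    (hA : ∀ p : ℕ, p.Prime → (((fun a => a % p) '' A).ncard : ℝ) ≤ (1 - δ) * p + K)
    (c : ℝ) (hc : 0 < c)
    (hx : ∀ X : ℕ, ∃ x : ℕ, X ≤ x ∧ c * Real.sqrt x ≤ ({a ∈ A | a < x}.ncard : ℝ)) :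
    ∃ c' > 0, ∀ N : ℕ, ∃ n : ℕ, N ≤ n ∧
      c' * (Real.log n) ^ ((δ / (1 - δ)) ^ 2) ≤ (rs A n : ℝ) := by
  obtain ⟨c1, hc1, h⟩ := finite_form hD E SL δ K hδ hδ2
  set s : ℝ := (δ / (1 - δ)) ^ 2 with hs
  have h1 : 0 < 1 - δ := by linarith
  have hκ0 : 0 < δ / (1 - δ) := div_pos hδ h1
  have hκ1 : δ / (1 - δ) ≤ 1 := by
    rw [div_le_one h1]; linarith
  have s0 : 0 < s := by positivity
  have s1 : s ≤ 1 := by
    rw [hs]; exact pow_le_one₀ hκ0.le hκ1
  refine ⟨c1 * c ^ 2 / 2, by positivity, fun N => ?_⟩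
  -- a bound for the values below `N`
  have hbd : ∃ B : ℝ, ∀ n < N, (rs A n : ℝ) < B := by
    refine ⟨∑ n ∈ Finset.range N, (rs A n : ℝ) + 1, fun n hn => ?_⟩
    have := Finset.single_le_sum (f := fun n => (rs A n : ℝ)) (s := Finset.range N)
      (fun n _ => by positivity) (Finset.mem_range.2 hn)
    linarith
  obtain ⟨B, hB⟩ := hbd
  have htend : Filter.Tendsto (fun x : ℕ => c1 * c ^ 2 * (Real.log x) ^ s) Filter.atTop
      Filter.atTop := by
    refine Filter.Tendsto.const_mul_atTop (by positivity) ?_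
    exact (tendsto_rpow_atTop s0).comp (Real.tendsto_log_atTop.comp tendsto_natCast_atTop_atTop)
  obtain ⟨X0, hX0⟩ := (Filter.eventually_atTop.1 (htend.eventually_ge_atTop B))
  obtain ⟨x, hxX, hxc⟩ := hx (max X0 2)
  have hx2 : 2 ≤ x := (le_max_right _ _).trans hxX
  have hxX0 : X0 ≤ x := (le_max_left _ _).trans hxX
  have h2 := h (tr A x) x hx2 (fun a ha => (mem_tr.1 ha).1) (fun p hp => by
    refine le_trans ?_ (hA p hp)
    exact_mod_cast image_tr_le A x p hp.pos)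
  rw [← card_tr] at hxc
  have hxpos : (0 : ℝ) < x := by positivity
  have hTpos : (0 : ℝ) < ((tr A x).card : ℝ) :=
    lt_of_lt_of_le (mul_pos hc (Real.sqrt_pos.2 hxpos)) hxc
  have hne : (tr A x).Nonempty := Finset.card_pos.1 (by exact_mod_cast hTpos)
  have hT2 : c ^ 2 * x ≤ ((tr A x).card : ℝ) ^ 2 := by
    calc c ^ 2 * x = (c * Real.sqrt x) ^ 2 := by
          rw [mul_pow, Real.sq_sqrt hxpos.le]
      _ ≤ _ := by gcongr
  have hlogx : 0 ≤ Real.log x := Real.log_natCast_nonneg x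
  have h6 : 0 ≤ (Real.log x) ^ s := Real.rpow_nonneg hlogx s
  obtain ⟨n, hn2, hn⟩ := large_value (tr A x) x (fun a ha => (mem_tr.1 ha).1) hne
    (c1 * c ^ 2 * (Real.log x) ^ s) (by
      have h3 : x * (c1 * c ^ 2 * (Real.log x) ^ s * ((tr A x).card : ℝ) ^ 2) ≤
          x * ∑ n ∈ Finset.range (2 * x), (rr (tr A x) n : ℝ) ^ 2 := by
        refine le_trans ?_ h2
        calc x * (c1 * c ^ 2 * (Real.log x) ^ s * ((tr A x).card : ℝ) ^ 2)
            = c1 * (Real.log x) ^ s * ((tr A x).card : ℝ) ^ 2 * (c ^ 2 * x) := by ring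
          _ ≤ c1 * (Real.log x) ^ s * ((tr A x).card : ℝ) ^ 2 * ((tr A x).card : ℝ) ^ 2 := by
              gcongr
          _ = _ := by ring
      exact le_of_mul_le_mul_left h3 hxpos)
  have hn' : c1 * c ^ 2 * (Real.log x) ^ s ≤ (rs A n : ℝ) :=
    hn.trans (by exact_mod_cast rr_tr_le A x n)
  refine ⟨n, ?_, ?_⟩
  · by_contra hlt
    push Not at hlt
    exact absurd (hn'.trans_lt (hB n hlt)) (not_lt.2 (hX0 x hxX0))
  · refine le_trans ?_ hn'
    have hlogn : Real.log n ≤ 2 * Real.log x := by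
      rcases Nat.eq_zero_or_pos n with h0 | h0
      · rw [h0]; simp only [Nat.cast_zero, Real.log_zero]; positivity
      · calc Real.log n ≤ Real.log ((x : ℝ) ^ 2) := by
              refine Real.log_le_log (by exact_mod_cast h0) ?_
              have : n ≤ x ^ 2 := by nlinarith
              exact_mod_cast this
          _ = 2 * Real.log x := by rw [Real.log_pow]; push_cast; ring
    have hlogn0 : 0 ≤ Real.log n := Real.log_natCast_nonneg n
    have h8 : (Real.log n) ^ s ≤ 2 * (Real.log x) ^ s := by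
      calc (Real.log n) ^ s ≤ (2 * Real.log x) ^ s := Real.rpow_le_rpow hlogn0 hlogn s0.le
        _ = (2 : ℝ) ^ s * (Real.log x) ^ s := Real.mul_rpow (by norm_num) hlogx
        _ ≤ (2 : ℝ) ^ (1 : ℝ) * (Real.log x) ^ s :=
            mul_le_mul_of_nonneg_right
              (Real.rpow_le_rpow_of_exponent_le (by norm_num) s1) h6
        _ = 2 * (Real.log x) ^ s := by rw [Real.rpow_one]
    calc c1 * c ^ 2 / 2 * (Real.log n) ^ s ≤ c1 * c ^ 2 / 2 * (2 * (Real.log x) ^ s) := by gcongr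
      _ = _ := by ring

end Pool.Agent.Helper51.SV
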