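import Pool.Agent.Helper51.SV.Mont
import Pool.Agent.Helper38.RC.LS2

/-!
Montgomery's lemma and the large sieve for the fourth power, for pairwise coprime moduli.
-/

set_option autoImplicit false

namespace Pool.Agent.Helper51.SV

open Finset

/-- the residues modulo the product of `S` that are not divisible by any element of `S` -/
def fr (S : Finset ℕ) : Finset ℕ := (range (∏ m ∈ S, m)).filter (fun b => ∀ m ∈ S, ¬ m ∣ b)

theorem mem_fr {S : Finset ℕ} {b : ℕ} : b ∈ fr S ↔ b < ∏ m ∈ S, m ∧ ∀ m ∈ S, ¬ m ∣ b := by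
  unfold fr
  rw [mem_filter, mem_range]

theorem crt_stepC (A : Finset ℕ) {m : ℕ} (S : Finset ℕ) (hm : 0 < m) (hS : ∀ k ∈ S, 0 < k)
    (hmS : m ∉ S) (hc : ∀ k ∈ S, Nat.Coprime m k) (β : ℝ) :
    ∑ a ∈ fr S, ∑ j ∈ (range m).erase 0,
        ‖F A (β + (a : ℝ) / ((∏ k ∈ S, k : ℕ) : ℝ) + (j : ℝ) / m)‖ ^ 2 ≤
      ∑ b ∈ fr (insert m S), ‖F A (β + (b : ℝ) / ((∏ k ∈ insert m S, k : ℕ) : ℝ))‖ ^ 2 := by
  classical
  have hq : 0 < ∏ k ∈ S, k := Finset.prod_pos hS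
  have hmq : Nat.Coprime m (∏ k ∈ S, k) := Nat.Coprime.prod_right hc
  rw [Finset.prod_insert hmS]
  set q : ℕ := ∏ k ∈ S, k with hqd
  have hpos : 0 < m * q := Nat.mul_pos hm hq
  have hm0 : (m : ℝ) ≠ 0 := by exact_mod_cast hm.ne'
  have hq0 : (q : ℝ) ≠ 0 := by exact_mod_cast hq.ne'
  rw [← Finset.sum_product']
  set f : ℕ × ℕ → ℕ := fun u => (u.1 * m + u.2 * q) % (m * q) with hf
  have hval : ∀ u : ℕ × ℕ, ‖F A (β + (u.1 : ℝ) / q + (u.2 : ℝ) / m)‖ ^ 2 =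
      ‖F A (β + (f u : ℝ) / ((m * q : ℕ) : ℝ))‖ ^ 2 := by
    intro u
    have h1 : ((u.1 * m + u.2 * q : ℕ) : ℝ) =
        ((m * q : ℕ) : ℝ) * (((u.1 * m + u.2 * q) / (m * q) : ℕ) : ℝ) + (f u : ℝ) := by
      exact_mod_cast (Nat.div_add_mod (u.1 * m + u.2 * q) (m * q)).symm
    have h2 : β + (u.1 : ℝ) / q + (u.2 : ℝ) / m =
        β + (f u : ℝ) / ((m * q : ℕ) : ℝ) + (((u.1 * m + u.2 * q) / (m * q) : ℕ) : ℝ) := by
      have h3 : (u.1 : ℝ) / q + (u.2 : ℝ) / m =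
          ((u.1 * m + u.2 * q : ℕ) : ℝ) / ((m * q : ℕ) : ℝ) := by
        push_cast
        field_simp
      rw [add_assoc, h3, h1]
      push_cast
      field_simp
      ring
    rw [h2, F_add_nat]
  rw [Finset.sum_congr rfl (fun u _ => hval u)]
  have hinj : Set.InjOn f ((fr S ×ˢ (range m).erase 0 : Finset (ℕ × ℕ)) : Set (ℕ × ℕ)) := by
    intro u hu v hv huv
    have hu' := Finset.mem_product.1 (Finset.mem_coe.1 hu)
    have hv' := Finset.mem_product.1 (Finset.mem_coe.1 hv)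
    have hu1 := (mem_fr.1 hu'.1).1
    have hv1 := (mem_fr.1 hv'.1).1
    have hu2 := mem_range.1 (Finset.mem_erase.1 hu'.2).2
    have hv2 := mem_range.1 (Finset.mem_erase.1 hv'.2).2
    have hmod : u.1 * m + u.2 * q ≡ v.1 * m + v.2 * q [MOD m * q] := huv
    have hmq' : u.1 * m + u.2 * q ≡ v.1 * m + v.2 * q [MOD q] := hmod.of_mul_left _
    have hmm' : u.1 * m + u.2 * q ≡ v.1 * m + v.2 * q [MOD m] := hmod.of_mul_right _
    have e1 : u.1 * m ≡ v.1 * m [MOD q] := by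
      have := hmq'
      simp only [Nat.ModEq, Nat.add_mul_mod_self_right] at this
      exact this
    have e2 : u.2 * q ≡ v.2 * q [MOD m] := by
      have := hmm'
      simp only [Nat.ModEq] at this
      rw [add_comm (u.1 * m), add_comm (v.1 * m), Nat.add_mul_mod_self_right,
        Nat.add_mul_mod_self_right] at this
      exact this
    have e3 : u.1 ≡ v.1 [MOD q] := Nat.ModEq.cancel_right_of_coprime hmq.symm.gcd_eq_one e1
    have e4 : u.2 ≡ v.2 [MOD m] := Nat.ModEq.cancel_right_of_coprime hmq.gcd_eq_one e2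
    have e5 : u.1 = v.1 := Nat.ModEq.eq_of_lt_of_lt e3 hu1 hv1
    have e6 : u.2 = v.2 := Nat.ModEq.eq_of_lt_of_lt e4 hu2 hv2
    exact Prod.ext e5 e6
  rw [← Finset.sum_image (f := fun b : ℕ => ‖F A (β + (b : ℝ) / ((m * q : ℕ) : ℝ))‖ ^ 2) hinj]
  refine Finset.sum_le_sum_of_subset_of_nonneg ?_ (fun _ _ _ => by positivity)
  intro b hb
  obtain ⟨u, hu, rfl⟩ := Finset.mem_image.1 hb
  have hu' := Finset.mem_product.1 hu
  have hu1 := mem_fr.1 hu'.1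
  have hu2 := Finset.mem_erase.1 hu'.2
  rw [mem_fr, Finset.prod_insert hmS]
  refine ⟨Nat.mod_lt _ hpos, ?_⟩
  intro k hk hd
  have hdvd : k ∣ u.1 * m + u.2 * q := by
    have hkq : k ∣ m * q := by
      rcases Finset.mem_insert.1 hk with rfl | hk'
      · exact dvd_mul_right _ _
      · exact (Finset.dvd_prod_of_mem (fun k => k) hk').trans (dvd_mul_left _ _)
    exact (Nat.dvd_mod_iff hkq).1 hd
  rcases Finset.mem_insert.1 hk with rfl | hk'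
  · have h1 : k ∣ u.2 * q := (Nat.dvd_add_right (dvd_mul_left _ _)).1 hdvd
    have h2 : k ∣ u.2 := hmq.dvd_of_dvd_mul_right h1
    exact absurd (Nat.le_of_dvd (Nat.pos_of_ne_zero hu2.1) h2) (not_le.2 (mem_range.1 hu2.2))
  · have hkq : k ∣ q := Finset.dvd_prod_of_mem (fun k => k) hk'
    have h1 : k ∣ u.1 * m := (Nat.dvd_add_left (hkq.trans (dvd_mul_left _ _))).1 hdvd
    have h2 : k ∣ u.1 := (hc k hk').symm.dvd_of_dvd_mul_right h1
    exact hu1.2 k hk' h2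

/-- Montgomery's lemma for pairwise coprime moduli. -/
theorem montgomeryC (A : Finset ℕ) (hA : A.Nonempty) (S : Finset ℕ) (hS : ∀ m ∈ S, 2 ≤ m)
    (hc : ∀ m ∈ S, ∀ k ∈ S, m ≠ k → Nat.Coprime m k) :
    ∀ β : ℝ, (∏ m ∈ S, ((m : ℝ) / ((A.image (· % m)).card : ℝ) - 1)) * ‖F A β‖ ^ 2 ≤
      ∑ b ∈ fr S, ‖F A (β + (b : ℝ) / ((∏ m ∈ S, m : ℕ) : ℝ))‖ ^ 2 := by
  classical
  induction S using Finset.induction_on with
  | empty =>
    intro β
    simp [fr]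
  | insert m S hmS ih =>
    intro β
    have hm : 0 < m := by have := hS m (Finset.mem_insert_self _ _); omega
    have hS' : ∀ k ∈ S, 2 ≤ k := fun q hq => hS q (Finset.mem_insert_of_mem hq)
    have hS0 : ∀ k ∈ S, 0 < k := fun q hq => by have := hS' q hq; omega
    have hc' : ∀ m ∈ S, ∀ k ∈ S, m ≠ k → Nat.Coprime m k := fun a ha b hb =>
      hc a (Finset.mem_insert_of_mem ha) b (Finset.mem_insert_of_mem hb)
    have hcm : ∀ k ∈ S, Nat.Coprime m k := fun k hk =>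
      hc m (Finset.mem_insert_self _ _) k (Finset.mem_insert_of_mem hk) (fun h => hmS (h ▸ hk))
    have ih' := ih hS' hc'
    refine le_trans ?_ (crt_stepC A S hm hS0 hmS hcm β)
    have h1 : ∀ a ∈ fr S,
        ((m : ℝ) / ((A.image (· % m)).card : ℝ) - 1) *
          ‖F A (β + (a : ℝ) / ((∏ r ∈ S, r : ℕ) : ℝ))‖ ^ 2 ≤
        ∑ j ∈ (range m).erase 0, ‖F A (β + (a : ℝ) / ((∏ r ∈ S, r : ℕ) : ℝ) + (j : ℝ) / m)‖ ^ 2 :=
      fun a _ => step A hm _ hA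
    refine le_trans ?_ (Finset.sum_le_sum h1)
    rw [← Finset.mul_sum, Finset.prod_insert hmS, mul_assoc]
    exact mul_le_mul_of_nonneg_left (ih' β) (fac_nonneg A hm hA)

theorem card_fr (S : Finset ℕ) (hS : ∀ m ∈ S, 2 ≤ m)
    (hc : ∀ m ∈ S, ∀ k ∈ S, m ≠ k → Nat.Coprime m k) :
    ((fr S).card : ℝ) ≤ ∏ m ∈ S, ((m : ℝ) - 1) := by
  classical
  induction S using Finset.induction_on with
  | empty => simp [fr]
  | insert m S hmS ih =>
    have hm2 : 2 ≤ m := hS m (Finset.mem_insert_self _ _)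
    have hm : 0 < m := by omega
    have hS' : ∀ k ∈ S, 2 ≤ k := fun q hq => hS q (Finset.mem_insert_of_mem hq)
    have hS0 : ∀ k ∈ S, 0 < k := fun q hq => by have := hS' q hq; omega
    have hc' : ∀ m ∈ S, ∀ k ∈ S, m ≠ k → Nat.Coprime m k := fun a ha b hb =>
      hc a (Finset.mem_insert_of_mem ha) b (Finset.mem_insert_of_mem hb)
    have hcm : ∀ k ∈ S, Nat.Coprime m k := fun k hk =>
      hc m (Finset.mem_insert_self _ _) k (Finset.mem_insert_of_mem hk) (fun h => hmS (h ▸ hk))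
    have hq : 0 < ∏ k ∈ S, k := Finset.prod_pos hS0
    have hmq : Nat.Coprime m (∏ k ∈ S, k) := Nat.Coprime.prod_right hcm
    have h1 : (fr (insert m S)).card ≤ ((range m).erase 0 ×ˢ fr S).card := by
      refine Finset.card_le_card_of_injOn (fun b => (b % m, b % ∏ k ∈ S, k)) ?_ ?_
      · intro b hb
        have hb' := mem_fr.1 (Finset.mem_coe.1 hb)
        refine Finset.mem_coe.2 (Finset.mem_product.2 ⟨?_, ?_⟩)
        · refine Finset.mem_erase.2 ⟨?_, mem_range.2 (Nat.mod_lt _ hm)⟩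
          intro h0
          exact hb'.2 m (Finset.mem_insert_self _ _) (Nat.dvd_of_mod_eq_zero h0)
        · refine mem_fr.2 ⟨Nat.mod_lt _ hq, fun k hk hd => ?_⟩
          exact hb'.2 k (Finset.mem_insert_of_mem hk)
            ((Nat.dvd_mod_iff (Finset.dvd_prod_of_mem (fun k => k) hk)).1 hd)
      · intro b hb c hcc hbc
        have hb' := mem_fr.1 (Finset.mem_coe.1 hb)
        have hc'' := mem_fr.1 (Finset.mem_coe.1 hcc)
        have h2 := Prod.mk.inj hbc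
        have e1 : b ≡ c [MOD m] := h2.1
        have e2 : b ≡ c [MOD ∏ k ∈ S, k] := h2.2
        have e3 : b ≡ c [MOD m * ∏ k ∈ S, k] := (Nat.modEq_and_modEq_iff_modEq_mul hmq).1 ⟨e1, e2⟩
        rw [Finset.prod_insert hmS] at hb' hc''
        exact Nat.ModEq.eq_of_lt_of_lt e3 hb'.1 hc''.1
    rw [Finset.card_product, Finset.card_erase_of_mem (mem_range.2 hm), card_range] at h1
    rw [Finset.prod_insert hmS]
    calc ((fr (insert m S)).card : ℝ) ≤ (((m - 1) * (fr S).card : ℕ) : ℝ) := by exact_mod_cast h1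
      _ = ((m : ℝ) - 1) * ((fr S).card : ℝ) := by
          rw [Nat.cast_mul, Nat.cast_sub (by omega : 1 ≤ m), Nat.cast_one]
      _ ≤ _ := by
          refine mul_le_mul_of_nonneg_left (ih hS' hc') ?_
          have : (2 : ℝ) ≤ m := by exact_mod_cast hm2
          linarith

/-- the fourth moment over the fractions that belong to a set of pairwise coprime moduli -/
theorem fourthC (A : Finset ℕ) (hA : A.Nonempty) (S : Finset ℕ) (hS : ∀ m ∈ S, 2 ≤ m)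
    (hc : ∀ m ∈ S, ∀ k ∈ S, m ≠ k → Nat.Coprime m k) :
    (A.card : ℝ) ^ 4 * ∏ m ∈ S,
        (((m : ℝ) / ((A.image (· % m)).card : ℝ) - 1) ^ 2 / ((m : ℝ) - 1)) ≤
      ∑ b ∈ fr S, ‖F A ((b : ℝ) / ((∏ m ∈ S, m : ℕ) : ℝ))‖ ^ 4 := by
  have h1 := montgomeryC A hA S hS hc 0
  have h2 := card_fr S hS hc
  rw [F_zero] at h1
  simp only [zero_add, Complex.norm_natCast] at h1
  have hφ : 0 < ∏ m ∈ S, ((m : ℝ) - 1) := by
    refine Finset.prod_pos fun p hp => ?_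
    have : (2 : ℝ) ≤ p := by exact_mod_cast hS p hp
    linarith
  have hfac : 0 ≤ ∏ m ∈ S, ((m : ℝ) / ((A.image (· % m)).card : ℝ) - 1) :=
    Finset.prod_nonneg fun p hp => fac_nonneg A (by have := hS p hp; omega) hA
  set q : ℕ := ∏ m ∈ S, m with hq
  have h3 : (∑ b ∈ fr S, ‖F A ((b : ℝ) / q)‖ ^ 2) ^ 2 ≤
      ((fr S).card : ℝ) * ∑ b ∈ fr S, (‖F A ((b : ℝ) / q)‖ ^ 2) ^ 2 :=
    sq_sum_le_card_mul_sum_sq
  have h4 : ((∏ m ∈ S, ((m : ℝ) / ((A.image (· % m)).card : ℝ) - 1)) *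
      (A.card : ℝ) ^ 2) ^ 2 ≤ (∑ b ∈ fr S, ‖F A ((b : ℝ) / q)‖ ^ 2) ^ 2 := by
    gcongr
  have h5 : ∑ b ∈ fr S, (‖F A ((b : ℝ) / q)‖ ^ 2) ^ 2 = ∑ b ∈ fr S, ‖F A ((b : ℝ) / q)‖ ^ 4 :=
    Finset.sum_congr rfl fun b _ => by ring
  rw [h5] at h3
  have h6 : 0 ≤ ∑ b ∈ fr S, ‖F A ((b : ℝ) / q)‖ ^ 4 := Finset.sum_nonneg fun b _ => by positivity
  rw [Finset.prod_div_distrib, Finset.prod_pow, ← mul_div_assoc, div_le_iff₀ hφ]
  calc (A.card : ℝ) ^ 4 * (∏ m ∈ S, ((m : ℝ) / ((A.image (· % m)).card : ℝ) - 1)) ^ 2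
      = ((∏ m ∈ S, ((m : ℝ) / ((A.image (· % m)).card : ℝ) - 1)) * (A.card : ℝ) ^ 2) ^ 2 := by ring
    _ ≤ ((fr S).card : ℝ) * ∑ b ∈ fr S, ‖F A ((b : ℝ) / q)‖ ^ 4 := h4.trans h3
    _ ≤ (∏ m ∈ S, ((m : ℝ) - 1)) * ∑ b ∈ fr S, ‖F A ((b : ℝ) / q)‖ ^ 4 :=
        mul_le_mul_of_nonneg_right h2 h6
    _ = _ := by rw [mul_comm]

theorem F_eq' (A : Finset ℕ) (t : ℝ) : F A t = Helper38.RC.expSum A t := by
  unfold F Helper38.RC.expSum
  refine Finset.sum_congr rfl fun a _ => ?_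
  unfold ee
  congr 1
  push_cast
  ring

/-- the large sieve for the fourth power over all products of pairwise coprime moduli -/
theorem sieveC (A : Finset ℕ) {x Q : ℕ} (hx : 0 < x) (hQ : Q * Q ≤ x) (hA : ∀ a ∈ A, a < x)
    (M : Finset ℕ) (hM : ∀ m ∈ M, 2 ≤ m)
    (hc : ∀ m ∈ M, ∀ k ∈ M, m ≠ k → Nat.Coprime m k) :
    ∑ S ∈ M.powerset.filter (fun S => ∏ m ∈ S, m ≤ Q),
        ∑ b ∈ fr S, ‖F A ((b : ℝ) / ((∏ m ∈ S, m : ℕ) : ℝ))‖ ^ 4 ≤
      53 * x * ∑ n ∈ range (2 * x), ((Helper25.RC.repF A n : ℕ) : ℝ) ^ 2 := by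
  classical
  rw [Finset.sum_sigma']
  set D : Finset ((_ : Finset ℕ) × ℕ) :=
    (M.powerset.filter (fun S => ∏ m ∈ S, m ≤ Q)).sigma (fun S => fr S) with hD
  have hD' : ∀ p ∈ D, (p.1 ⊆ M ∧ ∏ m ∈ p.1, m ≤ Q) ∧
      (p.2 < ∏ m ∈ p.1, m ∧ ∀ m ∈ p.1, ¬ m ∣ p.2) := by
    intro p hp
    rw [hD, mem_sigma, mem_filter, mem_powerset] at hp
    exact ⟨hp.1, mem_fr.1 hp.2⟩
  have hpos : ∀ S ⊆ M, 0 < ∏ m ∈ S, m := fun S hS =>
    Finset.prod_pos fun m hm => by have := hM m (hS hm); omega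
  -- a common value determines the set
  have hsub : ∀ p ∈ D, ∀ p' ∈ D, p.2 * ∏ m ∈ p'.1, m = p'.2 * ∏ m ∈ p.1, m → p.1 ⊆ p'.1 := by
    intro p hp p' hp' h m hm
    obtain ⟨⟨h1, h2⟩, h3, h4⟩ := hD' p hp
    obtain ⟨⟨h1', h2'⟩, h3', h4'⟩ := hD' p' hp'
    by_contra hm'
    have e1 : m ∣ p.2 * ∏ m ∈ p'.1, m := by
      rw [h]
      exact (Finset.dvd_prod_of_mem (fun k => k) hm).trans (dvd_mul_left _ _)
    have e2 : Nat.Coprime m (∏ m ∈ p'.1, m) := by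
      refine Nat.Coprime.prod_right fun k hk => ?_
      exact hc m (h1 hm) k (h1' hk) (fun h => hm' (h ▸ hk))
    exact h4 m hm (e2.dvd_of_dvd_mul_right e1)
  have hcross : ∀ p ∈ D, ∀ p' ∈ D,
      (p.2 : ℝ) / ((∏ m ∈ p.1, m : ℕ) : ℝ) = (p'.2 : ℝ) / ((∏ m ∈ p'.1, m : ℕ) : ℝ) →
        p.2 * ∏ m ∈ p'.1, m = p'.2 * ∏ m ∈ p.1, m := by
    intro p hp p' hp' h
    obtain ⟨⟨h1, h2⟩, h3, h4⟩ := hD' p hp
    obtain ⟨⟨h1', h2'⟩, h3', h4'⟩ := hD' p' hp'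
    have e1 : ((∏ m ∈ p.1, m : ℕ) : ℝ) ≠ 0 := by exact_mod_cast (hpos _ h1).ne'
    have e2 : ((∏ m ∈ p'.1, m : ℕ) : ℝ) ≠ 0 := by exact_mod_cast (hpos _ h1').ne'
    rw [div_eq_div_iff e1 e2] at h
    exact_mod_cast h
  have hinj : Set.InjOn (fun p : (_ : Finset ℕ) × ℕ => (p.2 : ℝ) / ((∏ m ∈ p.1, m : ℕ) : ℝ)) D := by
    rintro ⟨S, b⟩ hp ⟨S', b'⟩ hp' h
    have e := hcross _ (mem_coe.1 hp) _ (mem_coe.1 hp') h
    have hS : S = S' := Finset.Subset.antisymm (hsub _ (mem_coe.1 hp) _ (mem_coe.1 hp') e)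
      (hsub _ (mem_coe.1 hp') _ (mem_coe.1 hp) e.symm)
    subst hS
    have h1 := (hD' _ (mem_coe.1 hp)).1.1
    have hb : b = b' := Nat.eq_of_mul_eq_mul_right (hpos _ h1) e
    subst hb
    rfl
  have hval : ∀ p ∈ D, ‖F A ((p.2 : ℝ) / ((∏ m ∈ p.1, m : ℕ) : ℝ))‖ ^ 4 =
      (fun t => ‖Helper38.RC.expSum A t‖ ^ 4) ((p.2 : ℝ) / ((∏ m ∈ p.1, m : ℕ) : ℝ)) := by
    intro p _
    rw [F_eq']
  rw [Finset.sum_congr rfl hval,
    ← Finset.sum_image (g := fun p : (_ : Finset ℕ) × ℕ => (p.2 : ℝ) / ((∏ m ∈ p.1, m : ℕ) : ℝ))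
    (f := fun t => ‖Helper38.RC.expSum A t‖ ^ 4) hinj]
  refine Helper38.RC.energy_large_sieve A hx (fun a ha => mem_range.2 (hA a ha)) _ ?_ ?_
  · intro t ht
    obtain ⟨p, hp, rfl⟩ := mem_image.1 ht
    obtain ⟨⟨h1, h2⟩, h3, h4⟩ := hD' _ hp
    have h5 : (p.2 : ℝ) ≤ ((∏ m ∈ p.1, m : ℕ) : ℝ) := by exact_mod_cast h3.le
    exact ⟨by positivity, (div_le_one (by exact_mod_cast hpos _ h1)).2 h5⟩
  · intro s hs t ht hne
    obtain ⟨p, hp, rfl⟩ := mem_image.1 hs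
    obtain ⟨p', hp', rfl⟩ := mem_image.1 ht
    obtain ⟨⟨h1, h2⟩, h3, h4⟩ := hD' _ hp
    obtain ⟨⟨h1', h2'⟩, h3', h4'⟩ := hD' _ hp'
    have q0 : (0 : ℝ) < ((∏ m ∈ p.1, m : ℕ) : ℝ) := by exact_mod_cast hpos _ h1
    have q0' : (0 : ℝ) < ((∏ m ∈ p'.1, m : ℕ) : ℝ) := by exact_mod_cast hpos _ h1'
    set q : ℕ := ∏ m ∈ p.1, m with hq
    set q' : ℕ := ∏ m ∈ p'.1, m with hq'
    have e1 : (p.2 : ℝ) / q - (p'.2 : ℝ) / q' = ((p.2 : ℝ) * q' - p'.2 * q) / (q * q') := by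
      field_simp
    rw [e1, abs_div, abs_of_pos (mul_pos q0 q0')]
    have e2 : (1 : ℝ) ≤ |(p.2 : ℝ) * q' - p'.2 * q| := by
      have e3 : (p.2 : ℤ) * q' - p'.2 * q ≠ 0 := by
        intro h0
        apply hne
        rw [div_eq_div_iff q0.ne' q0'.ne']
        have : (p.2 : ℤ) * q' = p'.2 * q := by linarith
        exact_mod_cast this
      have e4 : 1 ≤ |(p.2 : ℤ) * q' - p'.2 * q| := Int.one_le_abs e3
      exact_mod_cast e4
    have e5 : (q : ℝ) * q' ≤ x := by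
      have : q * q' ≤ x := (Nat.mul_le_mul h2 h2').trans hQ
      exact_mod_cast this
    exact div_le_div₀ (by positivity) e2 (mul_pos q0 q0') e5

end Pool.Agent.Helper51.SV
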