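import Pool.Agent.Helper51.SV.Cop
import Pool.Agent.Helper51.SV.MontC
import Pool.Agent.Helper51.SV.Main

/-!
The energy inequality for pairwise coprime moduli.
-/

set_option autoImplicit false

namespace Pool.Agent.Helper51.SV

open Finset

/-- the sum over products of pairwise coprime moduli, exponential form -/
theorem sum_expC (G : ℝ) (hG : 0 < G) : ∃ c : ℝ, 0 < c ∧ ∀ (M : Finset ℕ) (g : ℕ → ℝ) (x : ℕ),
    1 ≤ x → (∀ m ∈ M, 2 ≤ m) → (∀ m ∈ M, m ≤ x) →
    (∀ m ∈ M, ∀ k ∈ M, m ≠ k → Nat.Coprime m k) →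
    (∀ m ∈ M, 0 ≤ g m) → (∀ m ∈ M, g m ≤ G) →
    c * Real.exp (∑ m ∈ M, g m / m) ≤
      ∑ T ∈ M.powerset.filter (fun T => ∏ m ∈ T, m ≤ Nat.sqrt x),
        ∏ m ∈ T, (g m / ((m : ℝ) - 1)) := by
  classical
  have hl2 : 0 < Real.log 2 := Real.log_pos (by norm_num)
  have hl4 : Real.log 4 = 2 * Real.log 2 := by
    rw [show (4 : ℝ) = 2 ^ 2 by norm_num, Real.log_pow]
    norm_num
  set u : ℝ := 12 * G + 1 with hu
  have hu1 : 1 ≤ u := by linarith
  have hu0 : 0 < u := by linarith
  set c1 : ℝ := 1 / 2 * Real.exp (-(8 * G ^ 2) - 48 * u * G) with hc1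
  set c2 : ℝ := Real.exp (-(96 * G * u)) with hc2
  have hc1p : 0 < c1 := by positivity
  have hc2p : 0 < c2 := by positivity
  refine ⟨min c1 c2, lt_min hc1p hc2p, fun M g x hx1 hM2 hMx hc hg0 hgG => ?_⟩
  have hsub : ∀ m ∈ M, (0 : ℝ) < (m : ℝ) - 1 := by
    intro m hm
    have : (2 : ℝ) ≤ m := by exact_mod_cast hM2 m hm
    linarith
  set f : ℕ → ℝ := fun m => g m / ((m : ℝ) - 1) with hf
  have hf0 : ∀ m ∈ M, 0 ≤ f m := fun m hm => div_nonneg (hg0 m hm) (hsub m hm).le
  have hsq1 : 1 ≤ Nat.sqrt x := by rw [Nat.le_sqrt']; omega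
  have hlogx : 0 ≤ Real.log x := Real.log_natCast_nonneg x
  -- the total sum
  have hlog0 : ∀ m ∈ M, 0 ≤ Real.log m / ((m : ℝ) - 1) := fun m hm =>
    div_nonneg (Real.log_natCast_nonneg m) (hsub m hm).le
  have htot : ∑ m ∈ M, Real.log m / ((m : ℝ) - 1) ≤ 6 * Real.log x := by
    by_cases hx2 : 2 ≤ x
    · exact sum_log_C M hM2 hc x hx2 hMx
    · have hE : M = ∅ := by
        rw [Finset.eq_empty_iff_forall_notMem]
        intro m hm
        have h1 := hM2 m hm
        have h2 := hMx m hm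
        omega
      rw [hE, Finset.sum_empty]
      positivity
  rcases lt_or_ge (Real.log x) (8 * u * Real.log 4) with hsmall | hbig
  · -- small `x`
    have h2 : (1 : ℝ) ≤ ∑ T ∈ M.powerset.filter (fun T => ∏ m ∈ T, m ≤ Nat.sqrt x),
        ∏ m ∈ T, f m := by
      have h3 : ∏ m ∈ (∅ : Finset ℕ), f m ≤
          ∑ T ∈ M.powerset.filter (fun T => ∏ m ∈ T, m ≤ Nat.sqrt x), ∏ m ∈ T, f m := by
        refine single_le_sum (f := fun T : Finset ℕ => ∏ m ∈ T, f m) (fun T hT => ?_) ?_
        · exact prod_nonneg fun m hm => hf0 m (mem_powerset.1 (mem_filter.1 hT).1 hm)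
        · rw [mem_filter, mem_powerset, prod_empty]
          exact ⟨empty_subset _, hsq1⟩
      simpa using h3
    refine le_trans ?_ h2
    have h3 : ∑ m ∈ M, g m / m ≤ 96 * G * u := by
      have h4 : ∑ m ∈ M, g m / m ≤ G / Real.log 2 * ∑ m ∈ M, Real.log m / ((m : ℝ) - 1) := by
        rw [mul_sum]
        refine sum_le_sum fun m hm => ?_
        have hm2 : (2 : ℝ) ≤ m := by exact_mod_cast hM2 m hm
        have h5 : Real.log 2 ≤ Real.log m := Real.log_le_log (by norm_num) hm2
        have h6 : g m ≤ G / Real.log 2 * Real.log m := by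
          rw [div_mul_eq_mul_div, le_div_iff₀ hl2]
          exact mul_le_mul (hgG m hm) h5 hl2.le hG.le
        have h7 : 0 ≤ G / Real.log 2 * Real.log m := (hg0 m hm).trans h6
        calc g m / m ≤ G / Real.log 2 * Real.log m / m :=
              div_le_div_of_nonneg_right h6 (by linarith)
          _ ≤ G / Real.log 2 * Real.log m / ((m : ℝ) - 1) :=
              div_le_div_of_nonneg_left h7 (hsub m hm) (by linarith)
          _ = G / Real.log 2 * (Real.log m / ((m : ℝ) - 1)) := by ring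
      have h6 : G / Real.log 2 * ∑ m ∈ M, Real.log m / ((m : ℝ) - 1) ≤
          G / Real.log 2 * (96 * u * Real.log 2) := by
        refine mul_le_mul_of_nonneg_left ?_ (by positivity)
        rw [hl4] at hsmall
        linarith
      have h7 : G / Real.log 2 * (96 * u * Real.log 2) = 96 * G * u := by
        field_simp
      linarith
    calc min c1 c2 * Real.exp (∑ m ∈ M, g m / m)
        ≤ c2 * Real.exp (96 * G * u) :=
          mul_le_mul (min_le_right _ _) (Real.exp_le_exp.2 h3) (Real.exp_pos _).le hc2p.le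
      _ = 1 := by
          rw [hc2, ← Real.exp_add]
          simp
  · -- large `x`
    have hl4p : 0 < Real.log 4 := by linarith
    have hx4 : 4 ≤ x := by
      by_contra hlt
      push Not at hlt
      have h1 : (x : ℝ) < 4 := by exact_mod_cast hlt
      have h2 : Real.log x < Real.log 4 :=
        Real.log_lt_log (by exact_mod_cast hx1) h1
      nlinarith
    have hQlog : (1 / 4 : ℝ) * Real.log x ≤ Real.log (Nat.sqrt x) := sqrt_log hx4
    set Q : ℕ := Nat.sqrt x with hQd
    have hLu : 2 * (u * Real.log 4) ≤ Real.log Q := by linarith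
    have hLpos : 0 < Real.log Q := lt_of_lt_of_le (by positivity) hLu
    set y : ℝ := Real.exp (Real.log Q / u) with hy
    have hy4 : 4 ≤ y := by
      have h2 : Real.log 4 ≤ Real.log Q / u := by
        rw [le_div_iff₀ hu0]
        nlinarith
      have h3 := Real.exp_le_exp.2 h2
      rwa [Real.exp_log (by norm_num)] at h3
    set Y : ℕ := ⌊y⌋₊ with hYdef
    have hY1 : (Y : ℝ) ≤ y := Nat.floor_le (by linarith)
    have hY2 : y / 2 ≤ Y := by
      have := Nat.lt_floor_add_one y
      rw [← hYdef] at this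
      linarith
    have hY : 2 ≤ Y := by
      have : (2 : ℝ) ≤ Y := by linarith
      exact_mod_cast this
    have hYpos : (0 : ℝ) < Y := by exact_mod_cast (by omega : 0 < Y)
    have hlY : 0 < Real.log Y := Real.log_pos (by exact_mod_cast (by omega : 1 < Y))
    have hlogY1 : u * Real.log Y ≤ Real.log Q := by
      have h2 := Real.log_le_log hYpos hY1
      rw [hy, Real.log_exp, le_div_iff₀ hu0] at h2
      linarith
    have hlogY2 : Real.log Q ≤ 2 * u * Real.log Y := by
      have h2 : Real.log (y / 2) ≤ Real.log Y := Real.log_le_log (by linarith) hY2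
      rw [Real.log_div (by linarith) (by norm_num), hy, Real.log_exp] at h2
      have h3 : Real.log 4 ≤ Real.log Q / u := by
        rw [le_div_iff₀ hu0]
        nlinarith
      have h4 : Real.log Q / u ≤ 2 * Real.log Y := by linarith
      rw [div_le_iff₀ hu0] at h4
      linarith
    set P : Finset ℕ := M.filter (fun m => m ≤ Y) with hP
    have hPM : ∀ m ∈ P, m ∈ M := fun m hm => (mem_filter.1 hm).1
    have hPY : ∀ m ∈ P, m ≤ Y := fun m hm => (mem_filter.1 hm).2
    have hsumlog : ∑ m ∈ P, f m * Real.log m ≤ 6 * G * Real.log Y := by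
      have h2 : ∑ m ∈ P, f m * Real.log m ≤ G * ∑ m ∈ P, Real.log m / ((m : ℝ) - 1) := by
        rw [mul_sum]
        refine sum_le_sum fun m hm => ?_
        have hmM := hPM m hm
        have h3 : f m * Real.log m = g m * (Real.log m / ((m : ℝ) - 1)) := by
          simp only [hf]
          ring
        rw [h3]
        exact mul_le_mul_of_nonneg_right (hgG m hmM) (hlog0 m hmM)
      have h3 := mul_le_mul_of_nonneg_left (sum_log_C P (fun m hm => hM2 m (hPM m hm))
        (fun m hm k hk => hc m (hPM m hm) k (hPM k hk)) Y hY hPY) hG.le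
      linarith
    have h2 := rankin_cut P (fun m hm => by have := hM2 m (hPM m hm); omega) f
      (fun m hm => hf0 m (hPM m hm)) Y hY hPY (6 * G) hsumlog Q hsq1 (by
        have h3 : 2 * (6 * G) + 1 = u := by
          rw [hu]
          ring
        rw [h3]
        exact hlogY1)
    have h3 : ∑ T ∈ P.powerset.filter (fun T => ∏ m ∈ T, m ≤ Q), ∏ m ∈ T, f m ≤
        ∑ T ∈ M.powerset.filter (fun T => ∏ m ∈ T, m ≤ Q), ∏ m ∈ T, f m := by
      refine sum_le_sum_of_subset_of_nonneg ?_ ?_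
      · intro T hT
        rw [mem_filter, mem_powerset] at hT ⊢
        exact ⟨fun m hm => hPM m (hT.1 hm), hT.2⟩
      · intro T hT _
        exact prod_nonneg fun m hm => hf0 m (mem_powerset.1 (mem_filter.1 hT).1 hm)
    have h4 := Helper78.SV.prod_lower P f (fun m hm => hf0 m (hPM m hm))
    -- the sum of the squares
    have h5 : ∑ m ∈ P, f m ^ 2 ≤ 8 * G ^ 2 := by
      have h6 : ∑ m ∈ P, f m ^ 2 ≤ 4 * G ^ 2 * ∑ m ∈ P, (1 / (m : ℝ)) ^ 2 := by
        rw [mul_sum]
        refine sum_le_sum fun m hm => ?_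
        have hmM := hPM m hm
        have hm2 : (2 : ℝ) ≤ m := by exact_mod_cast hM2 m hmM
        have h7 : f m ≤ 2 * G * (1 / (m : ℝ)) := by
          simp only [hf]
          rw [mul_one_div, div_le_div_iff₀ (hsub m hmM) (by linarith)]
          have h8 : g m * m ≤ G * m := mul_le_mul_of_nonneg_right (hgG m hmM) (by linarith)
          nlinarith
        calc f m ^ 2 ≤ (2 * G * (1 / (m : ℝ))) ^ 2 := pow_le_pow_left₀ (hf0 m hmM) h7 2
          _ = 4 * G ^ 2 * (1 / (m : ℝ)) ^ 2 := by ring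
      have h7 := mul_le_mul_of_nonneg_left (sum_sq_C P (fun m hm => by
        have := hM2 m (hPM m hm); omega)) (show 0 ≤ 4 * G ^ 2 by positivity)
      linarith
    -- the sum over all moduli
    have h6 : ∑ m ∈ M, g m / m ≤ ∑ m ∈ P, f m + 48 * u * G := by
      have h7 : ∑ m ∈ M, g m / m ≤ ∑ m ∈ M, ((if m ≤ Y then f m else 0) +
          G / Real.log Y * (Real.log m / ((m : ℝ) - 1))) := by
        refine sum_le_sum fun m hm => ?_
        have hm2 : (2 : ℝ) ≤ m := by exact_mod_cast hM2 m hm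
        have hlm := hlog0 m hm
        split_ifs with hmY
        · have h8 : g m / m ≤ f m := by
            simp only [hf]
            exact div_le_div_of_nonneg_left (hg0 m hm) (hsub m hm) (by linarith)
          have h9 : 0 ≤ G / Real.log Y * (Real.log m / ((m : ℝ) - 1)) := by positivity
          linarith
        · have h8 : Real.log Y ≤ Real.log m :=
            Real.log_le_log hYpos (by exact_mod_cast (not_le.1 hmY).le)
          have h9 : g m ≤ G / Real.log Y * Real.log m := by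
            rw [div_mul_eq_mul_div, le_div_iff₀ hlY]
            exact mul_le_mul (hgG m hm) h8 hlY.le hG.le
          have h10 : 0 ≤ G / Real.log Y * Real.log m := (hg0 m hm).trans h9
          calc g m / m ≤ G / Real.log Y * Real.log m / m :=
                div_le_div_of_nonneg_right h9 (by linarith)
            _ ≤ G / Real.log Y * Real.log m / ((m : ℝ) - 1) :=
                div_le_div_of_nonneg_left h10 (hsub m hm) (by linarith)
            _ = 0 + G / Real.log Y * (Real.log m / ((m : ℝ) - 1)) := by ring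
      rw [sum_add_distrib, ← mul_sum, ← sum_filter] at h7
      have h10 : G / Real.log Y * ∑ m ∈ M, Real.log m / ((m : ℝ) - 1) ≤ 48 * u * G := by
        have h12 : ∑ m ∈ M, Real.log m / ((m : ℝ) - 1) ≤ 48 * u * Real.log Y := by
          linarith
        calc G / Real.log Y * ∑ m ∈ M, Real.log m / ((m : ℝ) - 1)
            ≤ G / Real.log Y * (48 * u * Real.log Y) :=
              mul_le_mul_of_nonneg_left h12 (by positivity)
          _ = 48 * u * G := by
              field_simp
      linarith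
    refine le_trans ?_ (h2.trans h3)
    calc min c1 c2 * Real.exp (∑ m ∈ M, g m / m)
        ≤ c1 * Real.exp (∑ m ∈ M, g m / m) :=
          mul_le_mul_of_nonneg_right (min_le_left _ _) (Real.exp_pos _).le
      _ = 1 / 2 * Real.exp (-(8 * G ^ 2) - 48 * u * G + ∑ m ∈ M, g m / m) := by
          rw [hc1, mul_assoc, ← Real.exp_add]
      _ ≤ 1 / 2 * Real.exp (∑ m ∈ P, f m - ∑ m ∈ P, f m ^ 2) := by
          refine mul_le_mul_of_nonneg_left (Real.exp_le_exp.2 ?_) (by norm_num)
          linarith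
      _ ≤ 1 / 2 * ∏ m ∈ P, (1 + f m) := mul_le_mul_of_nonneg_left h4 (by norm_num)

/-- THE ENERGY INEQUALITY for pairwise coprime moduli. -/
theorem energyC (G : ℝ) (hG : 0 < G) : ∃ c : ℝ, 0 < c ∧ ∀ (x : ℕ) (A M : Finset ℕ),
    (∀ a ∈ A, a < x) → (∀ m ∈ M, 2 ≤ m) → (∀ m ∈ M, m ≤ x) →
    (∀ m ∈ M, ∀ k ∈ M, m ≠ k → Nat.Coprime m k) →
      c * (A.card : ℝ) ^ 4 * Real.exp (∑ m ∈ M, min G (gg A m) / m) ≤
        x * ∑ n ∈ Finset.range (2 * x), (rr A n : ℝ) ^ 2 := by
  classical
  obtain ⟨c, hc, hcs⟩ := sum_expC G hG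
  refine ⟨c / 53, by positivity, fun x A M hA hM2 hMx hcop => ?_⟩
  rcases A.eq_empty_or_nonempty with hA0 | hne
  · subst hA0
    have : (0 : ℝ) ≤ x * ∑ n ∈ Finset.range (2 * x), (rr ∅ n : ℝ) ^ 2 := by positivity
    refine le_trans (le_of_eq ?_) this
    simp only [Finset.card_empty, Nat.cast_zero]
    ring
  obtain ⟨a0, ha0⟩ := hne
  have hne : A.Nonempty := ⟨a0, ha0⟩
  have hx : 0 < x := by have := hA a0 ha0; omega
  set g : ℕ → ℝ := fun m => min G (gg A m) with hg
  have hgg0 : ∀ m, 0 ≤ gg A m := fun m => sq_nonneg _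
  have hg0 : ∀ m ∈ M, 0 ≤ g m := fun m _ => le_min hG.le (hgg0 m)
  have hgG : ∀ m ∈ M, g m ≤ G := fun m _ => min_le_left _ _
  have hsub : ∀ m ∈ M, (0 : ℝ) < (m : ℝ) - 1 := by
    intro m hm
    have : (2 : ℝ) ≤ m := by exact_mod_cast hM2 m hm
    linarith
  have h1 := hcs M g x hx hM2 hMx hcop hg0 hgG
  have h2 : ∑ T ∈ M.powerset.filter (fun T => ∏ m ∈ T, m ≤ Nat.sqrt x),
        ∏ m ∈ T, (g m / ((m : ℝ) - 1)) ≤
      ∑ T ∈ M.powerset.filter (fun T => ∏ m ∈ T, m ≤ Nat.sqrt x),
        ∏ m ∈ T, (gg A m / ((m : ℝ) - 1)) := by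
    refine sum_le_sum fun T hT => Finset.prod_le_prod (fun m hm => ?_) (fun m hm => ?_)
    · have hmM := mem_powerset.1 (mem_filter.1 hT).1 hm
      exact div_nonneg (hg0 m hmM) (hsub m hmM).le
    · have hmM := mem_powerset.1 (mem_filter.1 hT).1 hm
      exact div_le_div_of_nonneg_right (min_le_right _ _) (hsub m hmM).le
  have h3 : (A.card : ℝ) ^ 4 * ∑ T ∈ M.powerset.filter (fun T => ∏ m ∈ T, m ≤ Nat.sqrt x),
        ∏ m ∈ T, (gg A m / ((m : ℝ) - 1)) ≤
      53 * x * ∑ n ∈ range (2 * x), ((Helper25.RC.repF A n : ℕ) : ℝ) ^ 2 := by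
    refine le_trans ?_ (sieveC A hx (Nat.sqrt_le x) hA M hM2 hcop)
    rw [mul_sum]
    refine sum_le_sum fun T hT => ?_
    have hTM : ∀ m ∈ T, m ∈ M := fun m hm => mem_powerset.1 (mem_filter.1 hT).1 hm
    exact fourthC A hne T (fun m hm => hM2 m (hTM m hm))
      (fun m hm k hk => hcop m (hTM m hm) k (hTM k hk))
  have h4 : c * (A.card : ℝ) ^ 4 * Real.exp (∑ m ∈ M, g m / m) ≤
      53 * (x * ∑ n ∈ Finset.range (2 * x), (rr A n : ℝ) ^ 2) := by
    calc c * (A.card : ℝ) ^ 4 * Real.exp (∑ m ∈ M, g m / m)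
        = (A.card : ℝ) ^ 4 * (c * Real.exp (∑ m ∈ M, g m / m)) := by ring
      _ ≤ (A.card : ℝ) ^ 4 * ∑ T ∈ M.powerset.filter (fun T => ∏ m ∈ T, m ≤ Nat.sqrt x),
        ∏ m ∈ T, (gg A m / ((m : ℝ) - 1)) :=
          mul_le_mul_of_nonneg_left (h1.trans h2) (by positivity)
      _ ≤ _ := h3
      _ = _ := by
          have : ∀ n, Helper25.RC.repF A n = rr A n := fun n => rfl
          simp only [this]
          ring
  have h5 : c / 53 * (A.card : ℝ) ^ 4 * Real.exp (∑ m ∈ M, g m / m) =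
      (c * (A.card : ℝ) ^ 4 * Real.exp (∑ m ∈ M, g m / m)) / 53 := by ring
  show c / 53 * (A.card : ℝ) ^ 4 * Real.exp (∑ m ∈ M, g m / m) ≤ _
  rw [h5, div_le_iff₀ (by norm_num)]
  calc _ ≤ _ := h4
    _ = _ := by ring

end Pool.Agent.Helper51.SV
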