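import Mathlib

/-!
Definitions for sets of natural numbers restricted modulo primes.
-/

set_option autoImplicit false

namespace Pool.Agent.Helper51.SV

/-- `r(n)`: the number of ordered pairs of elements of `A` with sum `n` -/
noncomputable def rep (A : Set ℕ) (n : ℕ) : ℕ :=
  {u : ℕ × ℕ | u.1 ∈ A ∧ u.2 ∈ A ∧ u.1 + u.2 = n}.ncard

/-- the number of elements of `A` below `x` -/
noncomputable def count (A : Set ℕ) (x : ℕ) : ℕ := {a : ℕ | a ∈ A ∧ a < x}.ncard

/-- the number of residue classes modulo `q` that contain an element of `A` -/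
noncomputable def classes (A : Set ℕ) (q : ℕ) : ℕ := ((fun a => a % q) '' A).ncard

/-- the upper density of `A` relative to the square root is positive -/
def Thick (A : Set ℕ) : Prop :=
  ∃ c : ℝ, 0 < c ∧ ∀ X : ℕ, ∃ x : ℕ, X ≤ x ∧ c * √x ≤ (count A x : ℝ)

/-- the number of residue classes `r` modulo `q` such that the elements of `A` in this class form
a thick set -/
noncomputable def thickClasses (A : Set ℕ) (q : ℕ) : ℕ :=
  {r : ℕ | r < q ∧ Thick {a : ℕ | a ∈ A ∧ a % q = r}}.ncard

end Pool.Agent.Helper51.SV
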