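import Pool.Agent.Helper51.SV.Mont
import Pool.Agent.Helper51.SV.Main
import Pool.Agent.Helper51.SV.Abs
import Pool.Agent.Helper38.RC.LS2
import Pool.Agent.Helper78.SV.Sum

/-!
The energy inequality for sets restricted modulo primes, and its consequences.
-/

set_option autoImplicit false

namespace Pool.Agent.Helper51.SV

open Finset

theorem F_eq (A : Finset ℕ) (t : ℝ) : F A t = Helper38.RC.expSum A t := by
  unfold F Helper38.RC.expSum
  refine Finset.sum_congr rfl fun a _ => ?_
  unfold ee
  congr 1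
  push_cast
  ring

theorem energy_ineq : EnergyIneq 53 := by
  intro x A hA
  rcases A.eq_empty_or_nonempty with hA0 | hne
  · subst hA0
    have : (0 : ℝ) ≤ 53 * x * ∑ n ∈ Finset.range (2 * x), (rr ∅ n : ℝ) ^ 2 := by positivity
    refine le_trans (le_of_eq ?_) this
    simp
  obtain ⟨a0, ha0⟩ := hne
  have hx : 0 < x := by have := hA a0 ha0; omega
  have hne : A.Nonempty := ⟨a0, ha0⟩
  have hS : A ⊆ range x := fun a ha => mem_range.2 (hA a ha)
  have h1 := Helper38.RC.farey_sieve A (Q := Nat.sqrt x) hx (Nat.sqrt_le x) hS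
  refine le_trans ?_ h1
  rw [Finset.mul_sum]
  calc ∑ q ∈ (Finset.Icc 1 (Nat.sqrt x)).filter Squarefree,
        (A.card : ℝ) ^ 4 * ∏ p ∈ q.primeFactors, (gg A p / ((p : ℝ) - 1))
      ≤ ∑ q ∈ (Finset.Icc 1 (Nat.sqrt x)).filter Squarefree,
        ∑ a ∈ Helper38.RC.units q, ‖Helper38.RC.expSum A ((a : ℝ) / q)‖ ^ 4 := by
        refine Finset.sum_le_sum fun q hq => ?_
        have h2 := fourth A hne (Finset.mem_filter.1 hq).2
        refine h2.trans (le_of_eq ?_)
        refine Finset.sum_congr rfl fun a _ => ?_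
        rw [F_eq]
    _ ≤ _ := Finset.sum_le_sum_of_subset_of_nonneg (Finset.filter_subset _ _)
        (fun q _ _ => Finset.sum_nonneg fun a _ => by positivity)

theorem sum_lower' : SumLower := by
  intro h C h0 h1 hC
  exact Helper78.SV.sum_lower h C h0 h1 hC

end Pool.Agent.Helper51.SV
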