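import Pool.Agent.Helper51.SV.Defs
import Pool.Agent.Helper51.SV.Energy
import Pool.Agent.Helper78.SV.Exp
import Pool.Agent.Helper38.RC.Inf

/-!
Representation functions of sets restricted modulo primes.
-/

set_option autoImplicit false

namespace Pool.Agent.Helper51.SV

open Finset

theorem log_sum : LogSum := by
  refine ⟨6, fun Y hY => ?_⟩
  refine le_trans (le_of_eq ?_) (Helper78.SV.sum_log_div_sub_one_le Y hY)
  refine Finset.sum_congr rfl fun p _ => ?_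
  rw [one_div, mul_comm, div_eq_mul_inv]

theorem sum_exp' : SumExp := by
  intro G hG
  exact Helper78.SV.sum_exp G hG

theorem rep_eq_rs (A : Set ℕ) (n : ℕ) : rep A n = rs A n := rfl

theorem rep_coe (A : Finset ℕ) (n : ℕ) : rep (A : Set ℕ) n = rr A n := by
  unfold rep rr
  rw [← Set.ncard_coe_finset]
  congr 1
  ext u
  simp only [Set.mem_ofPred_eq, Finset.coe_filter, Finset.mem_product, Finset.mem_coe]
  tauto

theorem classes_coe (A : Finset ℕ) (q : ℕ) : classes (A : Set ℕ) q = (A.image (· % q)).card := by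
  unfold classes
  rw [← Set.ncard_coe_finset, Finset.coe_image]

theorem count_eq (A : Set ℕ) (x : ℕ) : count A x = (tr A x).card := by
  rw [card_tr]
  rfl

/-- part (1) -/
theorem part1 (G : ℝ) (hG : 0 < G) : ∃ c : ℝ, 0 < c ∧ ∀ (x : ℕ) (A : Finset ℕ),
    (∀ a ∈ A, a < x) →
      c * (A.card : ℝ) ^ 4 * Real.exp (∑ p ∈ (Finset.Icc 1 x).filter Nat.Prime,
          min G (((p : ℝ) / (classes (A : Set ℕ) p : ℝ) - 1) ^ 2) / p) ≤
        x * ∑ n ∈ Finset.range (2 * x), (rep (A : Set ℕ) n : ℝ) ^ 2 := by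
  obtain ⟨c, hc, h⟩ := abs_form (by norm_num : (0 : ℝ) < 53) energy_ineq sum_exp' log_sum G hG
  refine ⟨c, hc, fun x A hA => ?_⟩
  have h1 := h x A hA
  simp only [rep_coe, classes_coe]
  exact h1

/-- part (2), finite form -/
theorem part2 (δ K : ℝ) (hδ : 0 < δ) (hδ2 : δ ≤ 1 / 2) : ∃ c : ℝ, 0 < c ∧ ∀ A : Set ℕ,
    (∀ p : ℕ, p.Prime → (classes A p : ℝ) ≤ (1 - δ) * p + K) → ∀ x : ℕ, 2 ≤ x →
      ∃ n : ℕ, n < 2 * x ∧
        c * (count A x : ℝ) ^ 2 * Real.log x ^ ((δ / (1 - δ)) ^ 2) ≤ x * (rep A n : ℝ) := by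
  obtain ⟨c, hc, h⟩ := finite_form (by norm_num : (0 : ℝ) < 53) energy_ineq sum_lower' δ K hδ hδ2
  refine ⟨c, hc, fun A hA x hx => ?_⟩
  have hxpos : (0 : ℝ) < x := by positivity
  have h1 := h (tr A x) x hx (fun a ha => (mem_tr.1 ha).1) (fun p hp => by
    refine le_trans ?_ (hA p hp)
    exact_mod_cast image_tr_le A x p hp.pos)
  rw [count_eq]
  rcases (tr A x).eq_empty_or_nonempty with hT | hT
  · refine ⟨0, by omega, ?_⟩
    rw [hT]
    have : (0 : ℝ) ≤ x * (rep A 0 : ℝ) := by positivity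
    simpa using this
  · obtain ⟨n, hn2, hn⟩ := large_value (tr A x) x (fun a ha => (mem_tr.1 ha).1) hT
      (c * ((tr A x).card : ℝ) ^ 2 * Real.log x ^ ((δ / (1 - δ)) ^ 2) / x) (by
        rw [div_mul_eq_mul_div, div_le_iff₀ hxpos]
        calc _ = c * ((tr A x).card : ℝ) ^ 4 * Real.log x ^ ((δ / (1 - δ)) ^ 2) := by ring
          _ ≤ _ := h1
          _ = _ := by ring)
    refine ⟨n, hn2, ?_⟩
    rw [div_le_iff₀ hxpos] at hn
    refine hn.trans ?_
    rw [mul_comm]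
    gcongr
    exact rr_tr_le A x n

/-- part (2), infinite form -/
theorem part2' (A : Set ℕ) (hT : Thick A) (δ K : ℝ) (hδ : 0 < δ) (hδ2 : δ ≤ 1 / 2)
    (hA : ∀ p : ℕ, p.Prime → (classes A p : ℝ) ≤ (1 - δ) * p + K) :
    ∃ c : ℝ, 0 < c ∧ ∀ N : ℕ, ∃ n : ℕ, N ≤ n ∧
      c * Real.log n ^ ((δ / (1 - δ)) ^ 2) ≤ (rep A n : ℝ) := by
  obtain ⟨c, hc, hx⟩ := hT
  exact part2b (by norm_num : (0 : ℝ) < 53) energy_ineq sum_lower' δ K hδ hδ2 A hA c hc hx

end Pool.Agent.Helper51.SV
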