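import Mathlib

/-!
Montgomery's lemma: lower bounds for exponential sums over a set that omits residue classes.
-/

set_option autoImplicit false

namespace Pool.Agent.Helper51.SV

open Finset

/-- the additive character `exp (2 pi i t)` -/
noncomputable def ee (t : ℝ) : ℂ := Complex.exp (2 * Real.pi * Complex.I * t)

/-- the exponential sum over `A` -/
noncomputable def F (A : Finset ℕ) (t : ℝ) : ℂ := ∑ a ∈ A, ee (a * t)

theorem ee_add (s t : ℝ) : ee (s + t) = ee s * ee t := by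
  unfold ee
  rw [← Complex.exp_add]
  congr 1
  push_cast
  ring

theorem ee_nat (n : ℕ) : ee n = 1 := by
  unfold ee
  rw [Complex.exp_eq_one_iff]
  exact ⟨n, by push_cast; ring⟩

theorem ee_zero : ee 0 = 1 := by
  have := ee_nat 0
  simpa using this

theorem ee_nsmul (n : ℕ) (t : ℝ) : ee (n * t) = ee t ^ n := by
  unfold ee
  rw [← Complex.exp_nat_mul]
  congr 1
  push_cast
  ring

theorem ee_neg (t : ℝ) : ee (-t) = (starRingEnd ℂ) (ee t) := by
  unfold ee
  rw [← Complex.exp_conj]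
  congr 1
  simp only [map_mul, Complex.conj_I, Complex.conj_ofReal, map_ofNat]
  push_cast
  ring

theorem norm_ee (t : ℝ) : ‖ee t‖ = 1 := by
  unfold ee
  rw [Complex.norm_exp]
  simp

theorem F_zero (A : Finset ℕ) : F A 0 = (A.card : ℂ) := by
  unfold F
  simp [ee_zero]

/-- `F` has period one -/
theorem F_add_nat (A : Finset ℕ) (t : ℝ) (n : ℕ) : F A (t + n) = F A t := by
  unfold F
  refine Finset.sum_congr rfl fun a _ => ?_
  have : (a : ℝ) * (t + n) = a * t + ((a * n : ℕ) : ℝ) := by push_cast; ring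
  rw [this, ee_add, ee_nat, mul_one]

theorem ee_div_eq_one {m : ℕ} (hm : 0 < m) {a b : ℕ} (h : ee ((a : ℝ) / m - (b : ℝ) / m) = 1) :
    a ≡ b [MOD m] := by
  unfold ee at h
  rw [Complex.exp_eq_one_iff] at h
  obtain ⟨k, hk⟩ := h
  have hπ : (2 * Real.pi * Complex.I : ℂ) ≠ 0 := Complex.two_pi_I_ne_zero
  have h1 : (((a : ℝ) / m - (b : ℝ) / m : ℝ) : ℂ) = (k : ℂ) := by
    have : (2 * Real.pi * Complex.I : ℂ) * (((a : ℝ) / m - (b : ℝ) / m : ℝ) : ℂ) =
        (2 * Real.pi * Complex.I : ℂ) * (k : ℂ) := by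
      rw [hk]; ring
    exact mul_left_cancel₀ hπ this
  have h2 : ((a : ℝ) / m - (b : ℝ) / m : ℝ) = (k : ℝ) := by exact_mod_cast h1
  have hm' : (m : ℝ) ≠ 0 := by exact_mod_cast hm.ne'
  have h3 : (a : ℝ) - b = m * k := by
    field_simp at h2
    linarith
  have h4 : (a : ℤ) - b = m * k := by exact_mod_cast h3
  have h5 : (a : ℤ) ≡ b [ZMOD m] := by
    rw [Int.modEq_iff_dvd]
    exact ⟨-k, by linarith⟩
  exact (Int.natCast_modEq_iff).1 h5

theorem geom {m : ℕ} (hm : 0 < m) (a b : ℕ) :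
    ∑ j ∈ range m, ee ((a : ℝ) / m - (b : ℝ) / m) ^ j = if a ≡ b [MOD m] then (m : ℂ) else 0 := by
  have hm' : (m : ℝ) ≠ 0 := by exact_mod_cast hm.ne'
  have hpow : ee ((a : ℝ) / m - (b : ℝ) / m) ^ m = 1 := by
    rw [← ee_nsmul]
    have : (m : ℝ) * ((a : ℝ) / m - (b : ℝ) / m) = (a : ℝ) + (-(b : ℝ)) := by
      field_simp
      ring
    rw [this, ee_add, ee_neg, ee_nat, ee_nat]
    simp
  split_ifs with h
  · have h1 : ee ((a : ℝ) / m - (b : ℝ) / m) = 1 := by
      have h2 : (m : ℤ) ∣ (a : ℤ) - b := by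
        have := (Nat.modEq_iff_dvd).1 h.symm
        exact this
      obtain ⟨k, hk⟩ := h2
      have h3 : ((a : ℝ) / m - (b : ℝ) / m) = (k : ℝ) := by
        have : (a : ℝ) - b = m * k := by exact_mod_cast hk
        field_simp
        linarith
      rw [h3]
      unfold ee
      rw [Complex.exp_eq_one_iff]
      exact ⟨k, by push_cast; ring⟩
    simp [h1]
  · have h1 : ee ((a : ℝ) / m - (b : ℝ) / m) ≠ 1 := fun h' => h (ee_div_eq_one hm h')
    rw [geom_sum_eq h1, hpow]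
    simp

theorem normsq_eq (z : ℂ) : ((‖z‖ ^ 2 : ℝ) : ℂ) = z * (starRingEnd ℂ) z := by
  rw [Complex.mul_conj, Complex.normSq_eq_norm_sq]

/-- Parseval modulo `m` -/
theorem parseval (A : Finset ℕ) {m : ℕ} (hm : 0 < m) (β : ℝ) :
    ∑ j ∈ range m, ‖F A (β + (j : ℝ) / m)‖ ^ 2 =
      m * ∑ r ∈ A.image (· % m), ‖∑ a ∈ A.filter (fun a => a % m = r), ee (a * β)‖ ^ 2 := by
  have h : ((∑ j ∈ range m, ‖F A (β + (j : ℝ) / m)‖ ^ 2 : ℝ) : ℂ) =
      ((m * ∑ r ∈ A.image (· % m), ‖∑ a ∈ A.filter (fun a => a % m = r), ee (a * β)‖ ^ 2 : ℝ) :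
        ℂ) := by
    push_cast
    have e1 : ∀ j ∈ range m, ((‖F A (β + (j : ℝ) / m)‖ : ℝ) : ℂ) ^ 2 =
        ∑ a ∈ A, ∑ b ∈ A, ee (a * β) * (starRingEnd ℂ) (ee (b * β)) *
          ee ((a : ℝ) / m - (b : ℝ) / m) ^ j := by
      intro j _
      have := normsq_eq (F A (β + (j : ℝ) / m))
      push_cast at this
      rw [this]
      unfold F
      rw [map_sum, Finset.sum_mul_sum]
      refine Finset.sum_congr rfl fun a _ => Finset.sum_congr rfl fun b _ => ?_
      rw [← ee_nsmul, ← ee_neg, ← ee_neg, ← ee_add, ← ee_add, ← ee_add]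
      congr 1
      ring
    rw [Finset.sum_congr rfl e1, Finset.sum_comm]
    have e2 : ∀ a ∈ A, ∑ j ∈ range m, ∑ b ∈ A, ee (a * β) * (starRingEnd ℂ) (ee (b * β)) *
          ee ((a : ℝ) / m - (b : ℝ) / m) ^ j =
        ∑ b ∈ A, ee (a * β) * (starRingEnd ℂ) (ee (b * β)) *
          (if a ≡ b [MOD m] then (m : ℂ) else 0) := by
      intro a _
      rw [Finset.sum_comm]
      refine Finset.sum_congr rfl fun b _ => ?_
      rw [← Finset.mul_sum, geom hm]
    rw [Finset.sum_congr rfl e2]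
    have e3 : ∀ r ∈ A.image (· % m),
        ((‖∑ a ∈ A.filter (fun a => a % m = r), ee (a * β)‖ : ℝ) : ℂ) ^ 2 =
        ∑ a ∈ A.filter (fun a => a % m = r), ∑ b ∈ A.filter (fun a => a % m = r),
          ee (a * β) * (starRingEnd ℂ) (ee (b * β)) := by
      intro r _
      have := normsq_eq (∑ a ∈ A.filter (fun a => a % m = r), ee (a * β))
      push_cast at this
      rw [this, map_sum, Finset.sum_mul_sum]
    rw [Finset.sum_congr rfl e3, Finset.mul_sum,
      ← Finset.sum_fiberwise_of_maps_to (s := A) (t := A.image (· % m)) (g := (· % m))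
        (fun a ha => Finset.mem_image_of_mem _ ha)]
    refine Finset.sum_congr rfl fun r _ => ?_
    rw [Finset.mul_sum]
    refine Finset.sum_congr rfl fun a ha => ?_
    have ha' := (Finset.mem_filter.1 ha).2
    rw [Finset.mul_sum, Finset.sum_filter]
    refine Finset.sum_congr rfl fun b _ => ?_
    by_cases hab : b % m = r
    · have : a ≡ b [MOD m] := by
        show a % m = b % m
        rw [hab]; exact ha'
      rw [if_pos this, if_pos hab]
      ring
    · have : ¬ a ≡ b [MOD m] := by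
        intro h
        apply hab
        have h' : a % m = b % m := h
        rw [← h']; exact ha'
      rw [if_neg this, if_neg hab, mul_zero]
  exact_mod_cast h

/-- the large sieve step modulo `m` -/
theorem step (A : Finset ℕ) {m : ℕ} (hm : 0 < m) (β : ℝ) (hA : A.Nonempty) :
    ((m : ℝ) / ((A.image (· % m)).card : ℝ) - 1) * ‖F A β‖ ^ 2 ≤
      ∑ j ∈ (range m).erase 0, ‖F A (β + (j : ℝ) / m)‖ ^ 2 := by
  have h0 : 0 ∈ range m := mem_range.2 hm
  have h1 := Finset.add_sum_erase (range m) (fun j : ℕ => ‖F A (β + (j : ℝ) / m)‖ ^ 2) h0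
  simp only [Nat.cast_zero, zero_div, add_zero] at h1
  have h2 := parseval A hm β
  have hN : (0 : ℝ) < ((A.image (· % m)).card : ℝ) := by
    exact_mod_cast Finset.card_pos.2 (hA.image _)
  have h3 : F A β = ∑ r ∈ A.image (· % m), ∑ a ∈ A.filter (fun a => a % m = r), ee (a * β) := by
    unfold F
    exact (Finset.sum_fiberwise_of_maps_to (fun a ha => Finset.mem_image_of_mem _ ha) _).symm
  have h4 : ‖F A β‖ ^ 2 ≤ ((A.image (· % m)).card : ℝ) *
      ∑ r ∈ A.image (· % m), ‖∑ a ∈ A.filter (fun a => a % m = r), ee (a * β)‖ ^ 2 := by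
    calc ‖F A β‖ ^ 2 ≤ (∑ r ∈ A.image (· % m),
          ‖∑ a ∈ A.filter (fun a => a % m = r), ee (a * β)‖) ^ 2 := by
          rw [h3]
          gcongr
          exact norm_sum_le _ _
      _ ≤ _ := sq_sum_le_card_mul_sum_sq
  have h5 : (m : ℝ) / ((A.image (· % m)).card : ℝ) * ‖F A β‖ ^ 2 ≤
      ∑ j ∈ range m, ‖F A (β + (j : ℝ) / m)‖ ^ 2 := by
    rw [h2, div_mul_eq_mul_div, div_le_iff₀ hN]
    calc (m : ℝ) * ‖F A β‖ ^ 2 ≤ m * (((A.image (· % m)).card : ℝ) *
      ∑ r ∈ A.image (· % m), ‖∑ a ∈ A.filter (fun a => a % m = r), ee (a * β)‖ ^ 2) := by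
          gcongr
      _ = _ := by ring
  linarith

theorem card_image_le' (A : Finset ℕ) {m : ℕ} (hm : 0 < m) : (A.image (· % m)).card ≤ m := by
  calc (A.image (· % m)).card ≤ (range m).card := by
        refine Finset.card_le_card fun r hr => ?_
        obtain ⟨a, _, rfl⟩ := Finset.mem_image.1 hr
        exact mem_range.2 (Nat.mod_lt _ hm)
    _ = m := card_range m

/-- the local factor is nonnegative -/
theorem fac_nonneg (A : Finset ℕ) {m : ℕ} (hm : 0 < m) (hA : A.Nonempty) :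
    0 ≤ (m : ℝ) / ((A.image (· % m)).card : ℝ) - 1 := by
  have hN : (0 : ℝ) < ((A.image (· % m)).card : ℝ) := by
    exact_mod_cast Finset.card_pos.2 (hA.image _)
  rw [sub_nonneg, le_div_iff₀ hN, one_mul]
  exact_mod_cast card_image_le' A hm

/-- the reduced residues modulo `q` -/
def cop (q : ℕ) : Finset ℕ := (range q).filter (fun a => Nat.Coprime a q)

theorem crt_step (A : Finset ℕ) {p q : ℕ} (hp : p.Prime) (hq : 0 < q) (hpq : Nat.Coprime p q)
    (β : ℝ) :
    ∑ a ∈ cop q, ∑ j ∈ (range p).erase 0, ‖F A (β + (a : ℝ) / q + (j : ℝ) / p)‖ ^ 2 ≤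
      ∑ b ∈ cop (p * q), ‖F A (β + (b : ℝ) / ((p * q : ℕ) : ℝ))‖ ^ 2 := by
  have hpos : 0 < p * q := Nat.mul_pos hp.pos hq
  have hp0 : (p : ℝ) ≠ 0 := by exact_mod_cast hp.pos.ne'
  have hq0 : (q : ℝ) ≠ 0 := by exact_mod_cast hq.ne'
  rw [← Finset.sum_product']
  set f : ℕ × ℕ → ℕ := fun u => (u.1 * p + u.2 * q) % (p * q) with hf
  have hval : ∀ u : ℕ × ℕ, ‖F A (β + (u.1 : ℝ) / q + (u.2 : ℝ) / p)‖ ^ 2 =
      ‖F A (β + (f u : ℝ) / ((p * q : ℕ) : ℝ))‖ ^ 2 := by
    intro u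
    have h1 : ((u.1 * p + u.2 * q : ℕ) : ℝ) =
        ((p * q : ℕ) : ℝ) * (((u.1 * p + u.2 * q) / (p * q) : ℕ) : ℝ) + (f u : ℝ) := by
      exact_mod_cast (Nat.div_add_mod (u.1 * p + u.2 * q) (p * q)).symm
    have h2 : β + (u.1 : ℝ) / q + (u.2 : ℝ) / p =
        β + (f u : ℝ) / ((p * q : ℕ) : ℝ) + (((u.1 * p + u.2 * q) / (p * q) : ℕ) : ℝ) := by
      have h3 : (u.1 : ℝ) / q + (u.2 : ℝ) / p = ((u.1 * p + u.2 * q : ℕ) : ℝ) / ((p * q : ℕ) : ℝ) := by
        push_cast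
        field_simp
      rw [add_assoc, h3, h1]
      push_cast
      field_simp
      ring
    rw [h2, F_add_nat]
  rw [Finset.sum_congr rfl (fun u _ => hval u)]
  have hinj : Set.InjOn f ((cop q ×ˢ (range p).erase 0 : Finset (ℕ × ℕ)) : Set (ℕ × ℕ)) := by
    intro u hu v hv huv
    have hu' := Finset.mem_product.1 (Finset.mem_coe.1 hu)
    have hv' := Finset.mem_product.1 (Finset.mem_coe.1 hv)
    have hu1 := mem_range.1 (Finset.mem_filter.1 hu'.1).1
    have hv1 := mem_range.1 (Finset.mem_filter.1 hv'.1).1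
    have hu2 := mem_range.1 (Finset.mem_erase.1 hu'.2).2
    have hv2 := mem_range.1 (Finset.mem_erase.1 hv'.2).2
    have hm : u.1 * p + u.2 * q ≡ v.1 * p + v.2 * q [MOD p * q] := huv
    have hmq : u.1 * p + u.2 * q ≡ v.1 * p + v.2 * q [MOD q] := hm.of_mul_left _
    have hmp : u.1 * p + u.2 * q ≡ v.1 * p + v.2 * q [MOD p] := hm.of_mul_right _
    have e1 : u.1 * p ≡ v.1 * p [MOD q] := by
      have := hmq
      simp only [Nat.ModEq, Nat.add_mul_mod_self_right] at this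
      exact this
    have e2 : u.2 * q ≡ v.2 * q [MOD p] := by
      have := hmp
      simp only [Nat.ModEq] at this
      rw [add_comm (u.1 * p), add_comm (v.1 * p), Nat.add_mul_mod_self_right,
        Nat.add_mul_mod_self_right] at this
      exact this
    have e3 : u.1 ≡ v.1 [MOD q] := Nat.ModEq.cancel_right_of_coprime hpq.symm.gcd_eq_one e1
    have e4 : u.2 ≡ v.2 [MOD p] := Nat.ModEq.cancel_right_of_coprime hpq.gcd_eq_one e2
    have e5 : u.1 = v.1 := Nat.ModEq.eq_of_lt_of_lt e3 hu1 hv1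
    have e6 : u.2 = v.2 := Nat.ModEq.eq_of_lt_of_lt e4 hu2 hv2
    exact Prod.ext e5 e6
  rw [← Finset.sum_image (f := fun b : ℕ => ‖F A (β + (b : ℝ) / ((p * q : ℕ) : ℝ))‖ ^ 2) hinj]
  refine Finset.sum_le_sum_of_subset_of_nonneg ?_ (fun _ _ _ => by positivity)
  intro b hb
  obtain ⟨u, hu, rfl⟩ := Finset.mem_image.1 hb
  have hu' := Finset.mem_product.1 hu
  have hu1 := (Finset.mem_filter.1 hu'.1)
  have hu2 := (Finset.mem_erase.1 hu'.2)
  refine Finset.mem_filter.2 ⟨mem_range.2 (Nat.mod_lt _ hpos), ?_⟩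
  have hc : Nat.Coprime (u.1 * p + u.2 * q) (p * q) := by
    refine Nat.Coprime.mul_right ?_ ?_
    · rw [add_comm, Nat.coprime_add_mul_right_left]
      refine Nat.Coprime.mul_left ?_ hpq.symm
      rw [Nat.coprime_comm]
      exact (Nat.Prime.coprime_iff_not_dvd hp).2 fun hd =>
        absurd (Nat.le_of_dvd (Nat.pos_of_ne_zero hu2.1) hd) (not_le.2 (mem_range.1 hu2.2))
    · rw [Nat.coprime_add_mul_right_left]
      exact Nat.Coprime.mul_left hu1.2 hpq
  show Nat.Coprime ((u.1 * p + u.2 * q) % (p * q)) (p * q)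
  unfold Nat.Coprime at hc ⊢
  rw [← hc]
  conv_rhs => rw [Nat.gcd_comm, Nat.gcd_rec]

/-- Montgomery's lemma. -/
theorem montgomery (A : Finset ℕ) (hA : A.Nonempty) (S : Finset ℕ) (hS : ∀ p ∈ S, p.Prime) :
    ∀ β : ℝ, (∏ p ∈ S, ((p : ℝ) / ((A.image (· % p)).card : ℝ) - 1)) * ‖F A β‖ ^ 2 ≤
      ∑ b ∈ cop (∏ p ∈ S, p), ‖F A (β + (b : ℝ) / ((∏ p ∈ S, p : ℕ) : ℝ))‖ ^ 2 := by
  classical
  induction S using Finset.induction_on with
  | empty =>
    intro β
    simp [cop]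
  | insert p S hpS ih =>
    intro β
    have hp : p.Prime := hS p (Finset.mem_insert_self _ _)
    have hS' : ∀ q ∈ S, q.Prime := fun q hq => hS q (Finset.mem_insert_of_mem hq)
    have ih' := ih hS'
    have hq : 0 < ∏ r ∈ S, r := Finset.prod_pos fun r hr => (hS' r hr).pos
    have hpq : Nat.Coprime p (∏ r ∈ S, r) := by
      refine Nat.Coprime.prod_right fun r hr => ?_
      exact (Nat.coprime_primes hp (hS' r hr)).2 fun h => hpS (h ▸ hr)
    rw [Finset.prod_insert hpS, Finset.prod_insert hpS]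
    refine le_trans ?_ (crt_step A hp hq hpq β)
    have h1 : ∀ a ∈ cop (∏ r ∈ S, r),
        ((p : ℝ) / ((A.image (· % p)).card : ℝ) - 1) *
          ‖F A (β + (a : ℝ) / ((∏ r ∈ S, r : ℕ) : ℝ))‖ ^ 2 ≤
        ∑ j ∈ (range p).erase 0, ‖F A (β + (a : ℝ) / ((∏ r ∈ S, r : ℕ) : ℝ) + (j : ℝ) / p)‖ ^ 2 :=
      fun a _ => step A hp.pos _ hA
    refine le_trans ?_ (Finset.sum_le_sum h1)
    rw [← Finset.mul_sum, mul_assoc]
    exact mul_le_mul_of_nonneg_left (ih' β) (fac_nonneg A hp.pos hA)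

theorem totient_prod (S : Finset ℕ) (hS : ∀ p ∈ S, p.Prime) :
    ((cop (∏ p ∈ S, p)).card : ℝ) = ∏ p ∈ S, ((p : ℝ) - 1) := by
  classical
  have h0 : ∀ q : ℕ, (cop q).card = Nat.totient q := by
    intro q
    unfold cop Nat.totient
    congr 1
    ext a
    simp only [Finset.mem_filter]
    rw [Nat.coprime_comm]
  rw [h0]
  induction S using Finset.induction_on with
  | empty => simp
  | insert p S hpS ih =>
    have hp : p.Prime := hS p (Finset.mem_insert_self _ _)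
    have hS' : ∀ q ∈ S, q.Prime := fun q hq => hS q (Finset.mem_insert_of_mem hq)
    have hpq : Nat.Coprime p (∏ r ∈ S, r) := by
      refine Nat.Coprime.prod_right fun r hr => ?_
      exact (Nat.coprime_primes hp (hS' r hr)).2 fun h => hpS (h ▸ hr)
    rw [Finset.prod_insert hpS, Finset.prod_insert hpS, Nat.totient_mul hpq, Nat.cast_mul,
      ih hS', Nat.totient_prime hp, Nat.cast_sub hp.one_le, Nat.cast_one]

/-- the fourth moment over reduced fractions with a squarefree denominator -/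
theorem fourth (A : Finset ℕ) (hA : A.Nonempty) {q : ℕ} (hq : Squarefree q) :
    (A.card : ℝ) ^ 4 * ∏ p ∈ q.primeFactors,
        (((p : ℝ) / ((A.image (· % p)).card : ℝ) - 1) ^ 2 / ((p : ℝ) - 1)) ≤
      ∑ a ∈ (range q).filter (fun a => Nat.Coprime a q), ‖F A ((a : ℝ) / q)‖ ^ 4 := by
  have hS : ∀ p ∈ q.primeFactors, p.Prime := fun p hp => Nat.prime_of_mem_primeFactors hp
  have hprod : ∏ p ∈ q.primeFactors, p = q := Nat.prod_primeFactors_of_squarefree hq
  have h1 := montgomery A hA q.primeFactors hS 0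
  have h2 := totient_prod q.primeFactors hS
  rw [hprod] at h1 h2
  rw [F_zero] at h1
  simp only [zero_add, Complex.norm_natCast] at h1
  have hφ : 0 < ∏ p ∈ q.primeFactors, ((p : ℝ) - 1) := by
    refine Finset.prod_pos fun p hp => ?_
    have : (2 : ℝ) ≤ p := by exact_mod_cast (hS p hp).two_le
    linarith
  have hfac : 0 ≤ ∏ p ∈ q.primeFactors, ((p : ℝ) / ((A.image (· % p)).card : ℝ) - 1) :=
    Finset.prod_nonneg fun p hp => fac_nonneg A (hS p hp).pos hA
  have h3 : (∑ b ∈ cop q, ‖F A ((b : ℝ) / q)‖ ^ 2) ^ 2 ≤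
      ((cop q).card : ℝ) * ∑ b ∈ cop q, (‖F A ((b : ℝ) / q)‖ ^ 2) ^ 2 :=
    sq_sum_le_card_mul_sum_sq
  have h4 : ((∏ p ∈ q.primeFactors, ((p : ℝ) / ((A.image (· % p)).card : ℝ) - 1)) *
      (A.card : ℝ) ^ 2) ^ 2 ≤ (∑ b ∈ cop q, ‖F A ((b : ℝ) / q)‖ ^ 2) ^ 2 := by
    gcongr
  have h5 := h4.trans h3
  rw [h2] at h5
  rw [Finset.prod_div_distrib, Finset.prod_pow, ← mul_div_assoc, div_le_iff₀ hφ]
  calc (A.card : ℝ) ^ 4 * (∏ p ∈ q.primeFactors, ((p : ℝ) / ((A.image (· % p)).card : ℝ) - 1)) ^ 2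
      = ((∏ p ∈ q.primeFactors, ((p : ℝ) / ((A.image (· % p)).card : ℝ) - 1)) *
      (A.card : ℝ) ^ 2) ^ 2 := by ring
    _ ≤ _ := h5
    _ = (∑ a ∈ (range q).filter (fun a => Nat.Coprime a q), ‖F A ((a : ℝ) / q)‖ ^ 4) *
        ∏ p ∈ q.primeFactors, ((p : ℝ) - 1) := by
        rw [mul_comm]
        congr 1
        refine Finset.sum_congr rfl fun b _ => ?_
        ring

end Pool.Agent.Helper51.SV
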