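import Mathlib

/-!
The nonzero squares modulo a prime which is 3 mod 4 form a difference set.
-/

set_option autoImplicit false

open Finset

namespace Pool.Agent.Helper51.SV

section Paley

variable {p : ℕ} [Fact p.Prime]

open Classical in
/-- the nonzero squares -/
noncomputable def sqs (p : ℕ) [Fact p.Prime] : Finset (ZMod p) :=
  univ.filter (fun a => a ≠ 0 ∧ IsSquare a)

theorem mem_sqs {a : ZMod p} : a ∈ sqs p ↔ a ≠ 0 ∧ IsSquare a := by
  simp [sqs]

theorem one_mem_sqs : (1 : ZMod p) ∈ sqs p := mem_sqs.2 ⟨one_ne_zero, IsSquare.one⟩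

theorem mul_mem_sqs {a b : ZMod p} (ha : a ∈ sqs p) (hb : b ∈ sqs p) : a * b ∈ sqs p := by
  rw [mem_sqs] at *
  exact ⟨mul_ne_zero ha.1 hb.1, ha.2.mul hb.2⟩

theorem inv_mem_sqs {a : ZMod p} (ha : a ∈ sqs p) : a⁻¹ ∈ sqs p := by
  rw [mem_sqs] at *
  exact ⟨inv_ne_zero ha.1, ha.2.inv⟩

theorem mem_or_neg (hp : p % 4 = 3) {a : ZMod p} (ha : a ≠ 0) :
    (a ∈ sqs p ∧ -a ∉ sqs p) ∨ (a ∉ sqs p ∧ -a ∈ sqs p) := by
  have hneg : ¬ IsSquare (-1 : ZMod p) := by
    rw [ZMod.exists_sq_eq_neg_one_iff]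
    omega
  have h2 : p ≠ 2 := by rintro rfl; omega
  have hm : ∀ b c : ZMod p, b ≠ 0 → c ≠ 0 → ¬ IsSquare b → ¬ IsSquare c → IsSquare (b * c) := by
    intro b c hb hc h1 h2'
    have hF : ringChar (ZMod p) ≠ 2 := by rwa [ZMod.ringChar_zmod_n]
    have e1 := (quadraticChar_neg_one_iff_not_isSquare (F := ZMod p)).2 h1
    have e2 := (quadraticChar_neg_one_iff_not_isSquare (F := ZMod p)).2 h2'
    rw [← quadraticChar_one_iff_isSquare (mul_ne_zero hb hc), map_mul, e1, e2]
    norm_num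
  by_cases h : IsSquare a
  · left
    refine ⟨mem_sqs.2 ⟨ha, h⟩, fun h' => hneg ?_⟩
    have h3 := (mem_sqs.1 h').2
    have h4 := h3.mul h.inv
    have : -a * a⁻¹ = -1 := by field_simp
    rwa [this] at h4
  · right
    refine ⟨fun h' => h (mem_sqs.1 h').2, mem_sqs.2 ⟨neg_ne_zero.2 ha, ?_⟩⟩
    have := hm (-1) a (neg_ne_zero.2 one_ne_zero) ha hneg h
    rwa [neg_one_mul] at this

/-- number of representations as a difference -/
noncomputable def dif (p : ℕ) [Fact p.Prime] (t : ZMod p) : ℕ :=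
  ((sqs p).filter (fun b => b + t ∈ sqs p)).card

theorem dif_zero : dif p 0 = (sqs p).card := by
  unfold dif
  congr 1
  refine filter_true_of_mem (fun a ha => by rwa [add_zero])

theorem dif_mul {s : ZMod p} (hs : s ∈ sqs p) (t : ZMod p) : dif p (s * t) = dif p t := by
  unfold dif
  symm
  refine Finset.card_bij (fun b _ => s * b) ?_ ?_ ?_
  · intro b hb
    rw [mem_filter] at hb ⊢
    refine ⟨mul_mem_sqs hs hb.1, ?_⟩
    rw [← mul_add]
    exact mul_mem_sqs hs hb.2
  · intro b _ b' _ h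
    exact mul_left_cancel₀ (mem_sqs.1 hs).1 h
  · intro b hb
    rw [mem_filter] at hb
    refine ⟨s⁻¹ * b, ?_, ?_⟩
    · rw [mem_filter]
      refine ⟨mul_mem_sqs (inv_mem_sqs hs) hb.1, ?_⟩
      have := mul_mem_sqs (inv_mem_sqs hs) hb.2
      rwa [mul_add, inv_mul_cancel_left₀ (mem_sqs.1 hs).1] at this
    · exact mul_inv_cancel_left₀ (mem_sqs.1 hs).1 b

theorem dif_neg (t : ZMod p) : dif p (-t) = dif p t := by
  unfold dif
  refine Finset.card_bij (fun b _ => b + -t) ?_ ?_ ?_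
  · intro b hb
    rw [mem_filter] at hb ⊢
    refine ⟨hb.2, ?_⟩
    rw [neg_add_cancel_right]
    exact hb.1
  · intro b _ b' _ h
    exact add_right_cancel h
  · intro b hb
    rw [mem_filter] at hb
    refine ⟨b + t, ?_, add_neg_cancel_right b t⟩
    rw [mem_filter, add_neg_cancel_right]
    exact ⟨hb.2, hb.1⟩

theorem dif_eq_one (hp : p % 4 = 3) {t : ZMod p} (ht : t ≠ 0) : dif p t = dif p 1 := by
  rcases mem_or_neg hp ht with h | h
  · have := dif_mul h.1 1
    rwa [mul_one] at this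
  · have := dif_mul h.2 1
    rw [mul_one, dif_neg] at this
    exact this

theorem card_sqs (hp : p % 4 = 3) : 2 * (sqs p).card + 1 = p := by
  classical
  have h1 : (sqs p).card = (univ.filter (fun a : ZMod p => a ≠ 0 ∧ a ∉ sqs p)).card := by
    refine Finset.card_bij (fun a _ => -a) ?_ ?_ ?_
    · intro a ha
      rw [mem_filter]
      have h0 := (mem_sqs.1 ha).1
      refine ⟨mem_univ _, neg_ne_zero.2 h0, ?_⟩
      rcases mem_or_neg hp h0 with h | h
      · exact h.2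
      · exact absurd ha h.1
    · intro a _ b _ h
      exact neg_injective h
    · intro b hb
      rw [mem_filter] at hb
      refine ⟨-b, ?_, neg_neg b⟩
      rcases mem_or_neg hp hb.2.1 with h | h
      · exact absurd h.1 hb.2.2
      · exact h.2
  have h2 : (univ : Finset (ZMod p)).card = p := by rw [card_univ, ZMod.card]
  have h3 : (univ.filter (fun a : ZMod p => a ∈ sqs p)) = sqs p := by
    ext a; simp
  have h4 := Finset.card_filter_add_card_filter_not (s := (univ : Finset (ZMod p)))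
    (fun a => a ∈ sqs p)
  rw [h3, h2] at h4
  have h5 : (univ.filter (fun a : ZMod p => ¬ a ∈ sqs p)) =
      insert 0 (univ.filter (fun a : ZMod p => a ≠ 0 ∧ a ∉ sqs p)) := by
    ext a
    rw [mem_insert, mem_filter, mem_filter]
    constructor
    · rintro ⟨_, h⟩
      by_cases h0 : a = 0
      · exact Or.inl h0
      · exact Or.inr ⟨mem_univ _, h0, h⟩
    · rintro (rfl | h)
      · exact ⟨mem_univ _, fun h => (mem_sqs.1 h).1 rfl⟩
      · exact ⟨mem_univ _, h.2.2⟩
  rw [h5, card_insert_of_notMem (by simp), ← h1] at h4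
  omega

theorem sum_dif : ∑ t : ZMod p, dif p t = (sqs p).card ^ 2 := by
  classical
  unfold dif
  rw [sq]
  have h1 : ∀ t : ZMod p, ((sqs p).filter (fun b => b + t ∈ sqs p)).card =
      ∑ b ∈ sqs p, if b + t ∈ sqs p then 1 else 0 := by
    intro t
    rw [card_filter]
  rw [sum_congr rfl (fun t _ => h1 t), sum_comm]
  have h2 : ∀ b ∈ sqs p, (∑ t : ZMod p, if b + t ∈ sqs p then 1 else 0) = (sqs p).card := by
    intro b _
    rw [← card_filter]
    refine Finset.card_bij (fun t _ => b + t) ?_ ?_ ?_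
    · intro t ht
      exact (mem_filter.1 ht).2
    · intro t _ t' _ h
      exact add_left_cancel h
    · intro c hc
      refine ⟨c - b, ?_, by ring⟩
      rw [mem_filter]
      exact ⟨mem_univ _, by rwa [add_sub_cancel]⟩
  rw [sum_congr rfl h2, sum_const, smul_eq_mul]

theorem two_dif (hp : p % 4 = 3) : 2 * dif p 1 + 1 = (sqs p).card := by
  classical
  have h1 := sum_dif (p := p)
  rw [← Finset.add_sum_erase univ _ (mem_univ (0 : ZMod p)), dif_zero] at h1
  have h2 : ∑ t ∈ univ.erase (0 : ZMod p), dif p t = (p - 1) * dif p 1 := by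
    rw [sum_congr rfl (fun t ht => dif_eq_one hp (mem_erase.1 ht).1), sum_const, smul_eq_mul,
      card_erase_of_mem (mem_univ _), card_univ, ZMod.card]
  rw [h2] at h1
  have h3 := card_sqs hp
  have h4 : p - 1 = 2 * (sqs p).card := by omega
  rw [h4] at h1
  have h5 : 0 < (sqs p).card := card_pos.2 ⟨1, one_mem_sqs⟩
  have h6 : (sqs p).card * (1 + 2 * dif p 1) = (sqs p).card * (sqs p).card := by
    rw [← sq, ← h1]; ring
  have := Nat.eq_of_mul_eq_mul_left h5 h6
  omega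

open Classical in
/-- additive quadruples of squares -/
noncomputable def quads (p : ℕ) [Fact p.Prime] : Finset ((ZMod p × ZMod p) × (ZMod p × ZMod p)) :=
  ((sqs p ×ˢ sqs p) ×ˢ (sqs p ×ˢ sqs p)).filter (fun q => q.1.1 + q.1.2 = q.2.1 + q.2.2)

theorem card_quads : (quads p).card = ∑ t : ZMod p, dif p t ^ 2 := by
  classical
  rw [Finset.card_eq_sum_card_fiberwise (f := fun q => q.1.1 - q.2.1) (t := univ)
    (fun q _ => mem_univ _)]
  refine sum_congr rfl (fun t _ => ?_)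
  unfold dif
  rw [sq, ← card_product]
  symm
  refine Finset.card_bij (fun v _ => ((v.1 + t, v.2), (v.1, v.2 + t))) ?_ ?_ ?_
  · rintro ⟨c, b⟩ h
    simp only [mem_product, mem_filter] at h
    simp only [quads, mem_filter, mem_product]
    refine ⟨⟨⟨⟨h.1.2, h.2.1⟩, h.1.1, h.2.2⟩, by ring⟩, by ring⟩
  · rintro ⟨c, b⟩ _ ⟨c', b'⟩ _ h
    simp only [Prod.mk.injEq] at h
    rw [h.1.2, h.2.1]
  · rintro ⟨⟨a, b⟩, c, d⟩ h
    simp only [quads, mem_filter, mem_product] at h
    obtain ⟨⟨⟨⟨ha, hb⟩, hc, hd⟩, h1⟩, h2⟩ := h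
    have e1 : c + t = a := by rw [← h2]; ring
    have e2 : b + t = d := by rw [← h2]; linear_combination h1
    refine ⟨(c, b), ?_, ?_⟩
    · simp only [mem_product, mem_filter]
      rw [e1, e2]
      exact ⟨⟨hc, ha⟩, hb, hd⟩
    · simp only [Prod.mk.injEq]
      exact ⟨⟨e1, trivial⟩, trivial, e2⟩

theorem card_quads_eq (hp : p % 4 = 3) :
    2 * (quads p).card = 2 * (sqs p).card ^ 2 + (sqs p).card * ((sqs p).card - 1) ^ 2 := by
  classical
  rw [card_quads, ← Finset.add_sum_erase univ _ (mem_univ (0 : ZMod p)), dif_zero]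
  have h2 : ∑ t ∈ univ.erase (0 : ZMod p), dif p t ^ 2 = (p - 1) * dif p 1 ^ 2 := by
    rw [sum_congr rfl (fun t ht => by rw [dif_eq_one hp (mem_erase.1 ht).1]), sum_const,
      smul_eq_mul, card_erase_of_mem (mem_univ _), card_univ, ZMod.card]
  rw [h2]
  have h3 := card_sqs hp
  have h4 : p - 1 = 2 * (sqs p).card := by omega
  have h5 := two_dif hp
  rw [h4, ← h5, Nat.add_sub_cancel]
  ring

/-- the density of the energy of the squares -/
theorem quads_le (hp : p % 4 = 3) :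
    (p : ℝ) * (quads p).card ≤
      Real.exp (1 / (p : ℝ) + 5 * (1 / ((p : ℝ) - 2) - 1 / ((p : ℝ) - 1))) *
        ((sqs p).card : ℝ) ^ 4 := by
  have h1 := card_quads_eq hp
  have h3 := card_sqs hp
  have h5 : 0 < (sqs p).card := card_pos.2 ⟨1, one_mem_sqs⟩
  set n := (sqs p).card with hn
  have hn1 : (1 : ℝ) ≤ n := by exact_mod_cast h5
  have e1 : 2 * ((quads p).card : ℝ) = 2 * (n : ℝ) ^ 2 + n * ((n : ℝ) - 1) ^ 2 := by
    have h6 : ((n - 1 : ℕ) : ℝ) = (n : ℝ) - 1 := by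
      rw [Nat.cast_sub h5, Nat.cast_one]
    rw [← h6]
    exact_mod_cast h1
  have e2 : (p : ℝ) = 2 * n + 1 := by
    rw [← h3]; push_cast; ring
  have e3 : (quads p).card = ((n : ℝ) ^ 3 + n) / 2 := by
    have : ((quads p).card : ℝ) = (2 * ((quads p).card : ℝ)) / 2 := by ring
    rw [this, e1]; ring
  have hexp : 1 + (1 / (p : ℝ) + 5 * (1 / ((p : ℝ) - 2) - 1 / ((p : ℝ) - 1))) ≤
      Real.exp (1 / (p : ℝ) + 5 * (1 / ((p : ℝ) - 2) - 1 / ((p : ℝ) - 1))) := by
    have := Real.add_one_le_exp (1 / (p : ℝ) + 5 * (1 / ((p : ℝ) - 2) - 1 / ((p : ℝ) - 1)))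
    linarith
  refine le_trans ?_ (mul_le_mul_of_nonneg_right hexp (by positivity))
  rw [e3, e2]
  have k1 : (0 : ℝ) < 2 * n + 1 - 2 := by linarith
  have k2 : (0 : ℝ) < 2 * n + 1 - 1 := by linarith
  have k3 : (0 : ℝ) < 2 * n + 1 := by linarith
  have k4 : (1 : ℝ) + (1 / (2 * (n : ℝ) + 1) + 5 * (1 / (2 * (n : ℝ) + 1 - 2) -
      1 / (2 * (n : ℝ) + 1 - 1))) = ((2 * n + 1) * (2 * n - 1) * (2 * n) + (2 * n - 1) * (2 * n) +
        5 * (2 * n + 1)) / ((2 * n + 1) * (2 * n - 1) * (2 * n)) := by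
    have : (2 * (n : ℝ) - 1) ≠ 0 := by linarith
    have : (2 * (n : ℝ) + 1 - 2) = 2 * n - 1 := by ring
    rw [this]
    field_simp
    ring
  rw [k4, div_mul_eq_mul_div, le_div_iff₀ (by
    have : (0 : ℝ) < 2 * n - 1 := by linarith
    positivity)]
  obtain ⟨m, hm⟩ : ∃ m : ℝ, (n : ℝ) = m + 1 := ⟨n - 1, by ring⟩
  have hm0 : 0 ≤ m := by linarith
  rw [hm]
  have : 0 ≤ m ^ 2 := by positivity
  have : 0 ≤ m ^ 3 := by positivity
  have : 0 ≤ m ^ 4 := by positivity
  have : 0 ≤ m ^ 5 := by positivity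
  have : 0 ≤ m ^ 6 := by positivity
  have : 0 ≤ m ^ 7 := by positivity
  nlinarith

end Paley

end Pool.Agent.Helper51.SV
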