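import Pool.Agent.Helper51.SV.Paley

/-!
Integers whose residues modulo several primes are squares.
-/

set_option autoImplicit false

open Finset

namespace Pool.Agent.Helper51.SV

open Classical in
/-- the nonzero squares modulo `p`, as natural numbers -/
noncomputable def sq (p : ℕ) : Finset ℕ :=
  (range p).filter (fun a => ((a : ℕ) : ZMod p) ≠ 0 ∧ IsSquare ((a : ℕ) : ZMod p))

/-- additive quadruples modulo `p` -/
noncomputable def qd (p : ℕ) : Finset ((ℕ × ℕ) × (ℕ × ℕ)) :=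
  ((sq p ×ˢ sq p) ×ˢ (sq p ×ˢ sq p)).filter (fun q => (q.1.1 + q.1.2) % p = (q.2.1 + q.2.2) % p)

theorem mem_sq {p a : ℕ} : a ∈ sq p ↔ a < p ∧ ((a : ZMod p) ≠ 0 ∧ IsSquare (a : ZMod p)) := by
  simp [sq]

theorem cast_inj {p a b : ℕ} (ha : a < p) (hb : b < p) (h : (a : ZMod p) = b) : a = b := by
  rw [ZMod.natCast_eq_natCast_iff] at h
  exact Nat.ModEq.eq_of_lt_of_lt h ha hb

theorem card_sq {p : ℕ} [Fact p.Prime] : (sq p).card = (sqs p).card := by
  refine Finset.card_bij (fun a _ => (a : ZMod p)) ?_ ?_ ?_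
  · intro a ha
    rw [mem_sqs]
    exact (mem_sq.1 ha).2
  · intro a ha b hb h
    exact cast_inj (mem_sq.1 ha).1 (mem_sq.1 hb).1 h
  · intro b hb
    refine ⟨b.val, ?_, ZMod.natCast_zmod_val b⟩
    rw [mem_sq, ZMod.natCast_zmod_val b]
    exact ⟨ZMod.val_lt b, mem_sqs.1 hb⟩

theorem card_qd {p : ℕ} [Fact p.Prime] : (qd p).card ≤ (quads p).card := by
  refine Finset.card_le_card_of_injOn
    (fun q => (((q.1.1 : ZMod p), (q.1.2 : ZMod p)), ((q.2.1 : ZMod p), (q.2.2 : ZMod p)))) ?_ ?_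
  · rintro ⟨⟨a, b⟩, c, d⟩ h
    simp only [qd, coe_filter, mem_product, Set.mem_ofPred_eq] at h
    simp only [quads, coe_filter, mem_product, Set.mem_ofPred_eq]
    obtain ⟨⟨⟨ha, hb⟩, hc, hd⟩, h1⟩ := h
    refine ⟨⟨⟨mem_sqs.2 (mem_sq.1 ha).2, mem_sqs.2 (mem_sq.1 hb).2⟩,
      mem_sqs.2 (mem_sq.1 hc).2, mem_sqs.2 (mem_sq.1 hd).2⟩, ?_⟩
    have := (ZMod.natCast_eq_natCast_iff' (a + b) (c + d) p).2 h1
    push_cast at this
    exact this
  · rintro ⟨⟨a, b⟩, c, d⟩ h ⟨⟨a', b'⟩, c', d'⟩ h' he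
    simp only [qd, coe_filter, mem_product, Set.mem_ofPred_eq, mem_sq] at h h'
    simp only [Prod.mk.injEq] at he ⊢
    exact ⟨⟨cast_inj h.1.1.1.1 h'.1.1.1.1 he.1.1, cast_inj h.1.1.2.1 h'.1.1.2.1 he.1.2⟩,
      cast_inj h.1.2.1.1 h'.1.2.1.1 he.2.1, cast_inj h.1.2.2.1 h'.1.2.2.1 he.2.2⟩

/-- the integers below `x` whose residues modulo the members of `P` are nonzero squares -/
noncomputable def sv (P : Finset ℕ) (x : ℕ) : Finset ℕ :=
  (range x).filter (fun n => ∀ p ∈ P, n % p ∈ sq p)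

section CRT

variable {P : Finset ℕ}

theorem crt_inj (hP : ∀ p ∈ P, p.Prime) {a b : ℕ} (h : ∀ p ∈ P, a % p = b % p)
    (hd : a / (∏ p ∈ P, p) = b / (∏ p ∈ P, p)) : a = b := by
  have h1 : ∏ p ∈ P, p ∣ ((b : ℤ) - a).natAbs := by
    refine Finset.prod_primes_dvd _ (fun p hp => (hP p hp).prime) (fun p hp => ?_)
    have h2 : (p : ℤ) ∣ (b : ℤ) - a := (Nat.modEq_iff_dvd).1 (h p hp)
    exact Int.natCast_dvd.1 h2
  have h3 : a ≡ b [MOD ∏ p ∈ P, p] := by
    rw [Nat.modEq_iff_dvd]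
    exact Int.natCast_dvd.2 h1
  rw [← Nat.div_add_mod a (∏ p ∈ P, p), ← Nat.div_add_mod b (∏ p ∈ P, p), hd, h3]

theorem crt_surj (hP : ∀ p ∈ P, p.Prime) (f : ∀ p ∈ P, ℕ) (hf : f ∈ P.pi (fun p => range p)) :
    ∃ n < ∏ p ∈ P, p, ∀ (p : ℕ) (hp : p ∈ P), n % p = f p hp := by
  have hinj : Set.InjOn (fun (n : ℕ) (p : ℕ) (_ : p ∈ P) => n % p)
      (range (∏ p ∈ P, p) : Finset ℕ) := by
    intro a ha b hb h
    rw [mem_coe, mem_range] at ha hb
    refine crt_inj hP (fun p hp => ?_) (by rw [Nat.div_eq_of_lt ha, Nat.div_eq_of_lt hb])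
    exact congrFun (congrFun h p) hp
  have hmaps : ∀ n ∈ range (∏ p ∈ P, p),
      (fun (p : ℕ) (_ : p ∈ P) => n % p) ∈ P.pi (fun p => range p) := by
    intro n _
    rw [mem_pi]
    intro p hp
    exact mem_range.2 (Nat.mod_lt _ (hP p hp).pos)
  have hcard : (P.pi (fun p => range p)).card ≤ (range (∏ p ∈ P, p)).card := by
    rw [card_pi, card_range]
    simp
  have himg : (range (∏ p ∈ P, p)).image (fun (n : ℕ) (p : ℕ) (_ : p ∈ P) => n % p) =
      P.pi (fun p => range p) := by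
    refine Finset.eq_of_subset_of_card_le ?_ ?_
    · intro g hg
      obtain ⟨n, hn, rfl⟩ := mem_image.1 hg
      exact hmaps n hn
    · rw [Finset.card_image_of_injOn hinj]
      exact hcard
  rw [← himg] at hf
  obtain ⟨n, hn, rfl⟩ := mem_image.1 hf
  exact ⟨n, mem_range.1 hn, fun p hp => rfl⟩

theorem card_sv_le (hP : ∀ p ∈ P, p.Prime) (x : ℕ) :
    (sv P x).card ≤ (∏ p ∈ P, (sq p).card) * (x / (∏ p ∈ P, p) + 1) := by
  rw [← card_pi, ← card_range (x / (∏ p ∈ P, p) + 1), ← card_product]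
  refine Finset.card_le_card_of_injOn
    (fun n => ((fun p _ => n % p), n / (∏ p ∈ P, p))) ?_ ?_
  · intro n hn
    simp only [sv, coe_filter, mem_range, Set.mem_ofPred_eq] at hn
    rw [mem_coe, mem_product, mem_pi, mem_range]
    exact ⟨fun p hp => hn.2 p hp, Nat.lt_succ_of_le (Nat.div_le_div_right hn.1.le)⟩
  · intro n _ n' _ h
    simp only [Prod.mk.injEq] at h
    exact crt_inj hP (fun p hp => congrFun (congrFun h.1 p) hp) h.2

theorem le_card_sv (hP : ∀ p ∈ P, p.Prime) (x : ℕ) :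
    (∏ p ∈ P, (sq p).card) * (x / (∏ p ∈ P, p)) ≤ (sv P x).card := by
  have hQ : 0 < ∏ p ∈ P, p := Finset.prod_pos (fun p hp => (hP p hp).pos)
  rw [← card_pi, ← card_range (x / (∏ p ∈ P, p)), ← card_product]
  refine Finset.card_le_card_of_surjOn
    (fun n => ((fun p _ => n % p), n / (∏ p ∈ P, p))) ?_
  rintro ⟨f, k⟩ h
  rw [mem_coe, mem_product, mem_pi, mem_range] at h
  simp only at h
  obtain ⟨n, hn, hnf⟩ := crt_surj hP f (by
    rw [mem_pi]
    intro p hp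
    exact mem_range.2 (mem_sq.1 (h.1 p hp)).1)
  have hmod : ∀ p ∈ P, (n + k * (∏ p ∈ P, p)) % p = n % p := by
    intro p hp
    obtain ⟨e, he⟩ := (Finset.dvd_prod_of_mem (fun p => p) hp : p ∣ ∏ p ∈ P, p)
    rw [he, show k * (p * e) = p * (k * e) by ring, Nat.add_mul_mod_self_left]
  have hdiv : (n + k * (∏ p ∈ P, p)) / (∏ p ∈ P, p) = k := by
    rw [Nat.add_mul_div_right _ _ hQ, Nat.div_eq_of_lt hn, zero_add]
  refine ⟨n + k * (∏ p ∈ P, p), ?_, ?_⟩
  · rw [mem_coe]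
    simp only [sv, mem_filter, mem_range]
    constructor
    · have h1 : (k + 1) * (∏ p ∈ P, p) ≤ x := by
        have h2 : k + 1 ≤ x / (∏ p ∈ P, p) := h.2
        exact (Nat.mul_le_mul_right _ h2).trans (Nat.div_mul_le_self _ _)
      have h3 : (k + 1) * (∏ p ∈ P, p) = k * (∏ p ∈ P, p) + ∏ p ∈ P, p := by ring
      omega
    · intro p hp
      rw [hmod p hp, hnf p hp]
      exact h.1 p hp
  · simp only [Prod.mk.injEq]
    refine ⟨?_, hdiv⟩
    funext p hp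
    rw [hmod p hp, hnf p hp]

end CRT

end Pool.Agent.Helper51.SV
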