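import Pool.Agent.Helper51.SV.PaleyB
import Pool.Agent.Helper51.SV.Final
import Pool.Agent.Helper38.SP.Sel

/-!
The energy bound for sieved sets is sharp for primes which are 3 mod 4.
-/

set_option autoImplicit false

open Finset

namespace Pool.Agent.Helper51.SV

open Pool.Agent.Helper38.SP (quad EX EX_quad select)

theorem card_quad_eq (A : Finset ℕ) {x : ℕ} (hA : ∀ a ∈ A, a < x) :
    ∑ n ∈ range (2 * x), (rep (A : Set ℕ) n : ℝ) ^ 2 = (quad A).card := by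
  have h1 : (quad A).card = ∑ n ∈ range (2 * x), rr A n ^ 2 := by
    rw [Finset.card_eq_sum_card_fiberwise (f := fun q => q.1.1 + q.1.2) (t := range (2 * x))]
    · refine sum_congr rfl (fun n _ => ?_)
      unfold rr
      rw [pow_two, ← card_product]
      congr 1
      ext ⟨⟨a, b⟩, c, d⟩
      simp only [quad, mem_filter, mem_product]
      constructor
      · rintro ⟨⟨⟨h1, h2⟩, h3⟩, h4⟩
        exact ⟨⟨h1, h4⟩, h2, by omega⟩
      · rintro ⟨⟨h1, h4⟩, h2, h5⟩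
        exact ⟨⟨⟨h1, h2⟩, by omega⟩, h4⟩
    · rintro ⟨⟨a, b⟩, c, d⟩ h
      simp only [quad, coe_filter, mem_product, Set.mem_ofPred_eq] at h
      have := hA a h.1.1.1
      have := hA b h.1.1.2
      simp only [coe_range, Set.mem_Iio]
      omega
  rw [h1]
  push_cast
  refine sum_congr rfl (fun n _ => ?_)
  rw [rep_coe]

theorem card_quad_sv {P : Finset ℕ} (hP : ∀ p ∈ P, p.Prime) (x : ℕ) :
    (quad (sv P x)).card ≤ (∏ p ∈ P, (qd p).card) * (x / (∏ p ∈ P, p) + 1) ^ 3 := by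
  have h3 : (x / (∏ p ∈ P, p) + 1) ^ 3 = ((range (x / (∏ p ∈ P, p) + 1)) ×ˢ
      ((range (x / (∏ p ∈ P, p) + 1)) ×ˢ (range (x / (∏ p ∈ P, p) + 1)))).card := by
    rw [card_product, card_product, card_range]
    ring
  rw [← card_pi, h3, ← card_product]
  refine Finset.card_le_card_of_injOn
    (fun q => ((fun p _ => ((q.1.1 % p, q.1.2 % p), (q.2.1 % p, q.2.2 % p))),
      (q.1.1 / (∏ p ∈ P, p), q.1.2 / (∏ p ∈ P, p), q.2.1 / (∏ p ∈ P, p)))) ?_ ?_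
  · rintro ⟨⟨a, b⟩, c, d⟩ h
    simp only [quad, sv, coe_filter, mem_product, mem_filter, mem_range, Set.mem_ofPred_eq] at h
    obtain ⟨⟨⟨ha, hb⟩, hc, hd⟩, he⟩ := h
    rw [mem_coe, mem_product, mem_pi, mem_product, mem_product, mem_range, mem_range, mem_range]
    refine ⟨fun p hp => ?_, Nat.lt_succ_of_le (Nat.div_le_div_right ha.1.le),
      Nat.lt_succ_of_le (Nat.div_le_div_right hb.1.le),
      Nat.lt_succ_of_le (Nat.div_le_div_right hc.1.le)⟩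
    simp only [qd, mem_filter, mem_product]
    refine ⟨⟨⟨ha.2 p hp, hb.2 p hp⟩, hc.2 p hp, hd.2 p hp⟩, ?_⟩
    rw [← Nat.add_mod, ← Nat.add_mod, he]
  · rintro ⟨⟨a, b⟩, c, d⟩ h ⟨⟨a', b'⟩, c', d'⟩ h' he
    have g1 := (mem_filter.1 (mem_coe.1 h)).2
    have g2 := (mem_filter.1 (mem_coe.1 h')).2
    simp only [Prod.mk.injEq] at g1 g2 he
    obtain ⟨hf, e1, e2, e3⟩ := he
    have hf' : ∀ p ∈ P, (a % p = a' % p ∧ b % p = b' % p) ∧ c % p = c' % p ∧ d % p = d' % p := by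
      intro p hp
      have := congrFun (congrFun hf p) hp
      simpa only [Prod.mk.injEq] using this
    have k1 : a = a' := crt_inj hP (fun p hp => (hf' p hp).1.1) e1
    have k2 : b = b' := crt_inj hP (fun p hp => (hf' p hp).1.2) e2
    have k3 : c = c' := crt_inj hP (fun p hp => (hf' p hp).2.1) e3
    simp only [Prod.mk.injEq]
    refine ⟨⟨k1, k2⟩, k3, ?_⟩
    omega

theorem tele (P : Finset ℕ) (hP : ∀ p ∈ P, 3 ≤ p) :
    ∑ p ∈ P, 5 * (1 / ((p : ℝ) - 2) - 1 / ((p : ℝ) - 1)) ≤ 5 := by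
  have h1 : ∀ N : ℕ, ∑ n ∈ range N, (1 / ((n : ℝ) + 1) - 1 / ((n : ℝ) + 2)) =
      1 - 1 / ((N : ℝ) + 1) := by
    intro N
    induction N with
    | zero => simp
    | succ N ih =>
      rw [sum_range_succ, ih]
      push_cast
      have : (N : ℝ) + 1 + 1 = N + 2 := by ring
      rw [this]
      ring
  have h2 : ∑ p ∈ P, 5 * (1 / ((p : ℝ) - 2) - 1 / ((p : ℝ) - 1)) =
      5 * ∑ n ∈ P.image (fun p : ℕ => p - 3), (1 / ((n : ℝ) + 1) - 1 / ((n : ℝ) + 2)) := by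
    rw [Finset.sum_image, Finset.mul_sum]
    · refine sum_congr rfl (fun p hp => ?_)
      have := hP p hp
      rw [Nat.cast_sub this]
      push_cast
      congr 3
      · ring
      · ring
    · intro a ha b hb h
      have := hP a ha
      have := hP b hb
      have h' : a - 3 = b - 3 := h
      omega
  rw [h2]
  obtain ⟨N, hN⟩ : ∃ N : ℕ, P.image (fun p : ℕ => p - 3) ⊆ range N :=
    ⟨(P.image (fun p : ℕ => p - 3)).sup id + 1, fun n hn => by
      rw [mem_range]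
      have : n ≤ (P.image (fun p : ℕ => p - 3)).sup id := Finset.le_sup (f := id) hn
      omega⟩
  have h3 : ∑ n ∈ P.image (fun p : ℕ => p - 3), (1 / ((n : ℝ) + 1) - 1 / ((n : ℝ) + 2)) ≤
      ∑ n ∈ range N, (1 / ((n : ℝ) + 1) - 1 / ((n : ℝ) + 2)) := by
    refine Finset.sum_le_sum_of_subset_of_nonneg hN (fun n _ _ => ?_)
    rw [sub_nonneg]
    exact one_div_le_one_div_of_le (by positivity) (by linarith)
  rw [h1 N] at h3
  have h4 : (0 : ℝ) ≤ 1 / ((N : ℝ) + 1) := by positivity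
  linarith

/-- the density of the additive energy of the sieved set -/
theorem density {P : Finset ℕ} (hP : ∀ p ∈ P, p.Prime ∧ p % 4 = 3) :
    ((∏ p ∈ P, p : ℕ) : ℝ) * (∏ p ∈ P, ((qd p).card : ℝ)) ≤
      Real.exp 5 * Real.exp (∑ p ∈ P, 1 / (p : ℝ)) * ((∏ p ∈ P, (sq p).card : ℕ) : ℝ) ^ 4 := by
  have hP3 : ∀ p ∈ P, 3 ≤ p := fun p hp => by
    have := (hP p hp).2
    omega
  have h1 : ((∏ p ∈ P, p : ℕ) : ℝ) * (∏ p ∈ P, ((qd p).card : ℝ)) =
      ∏ p ∈ P, ((p : ℝ) * (qd p).card) := by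
    rw [Nat.cast_prod, Finset.prod_mul_distrib]
  have h2 : ∏ p ∈ P, ((p : ℝ) * (qd p).card) ≤ ∏ p ∈ P,
      (Real.exp (1 / (p : ℝ) + 5 * (1 / ((p : ℝ) - 2) - 1 / ((p : ℝ) - 1))) *
        ((sq p).card : ℝ) ^ 4) := by
    refine Finset.prod_le_prod (fun p _ => by positivity) (fun p hp => ?_)
    have : Fact p.Prime := ⟨(hP p hp).1⟩
    have h3 := quads_le (hP p hp).2
    rw [← card_sq] at h3
    refine le_trans ?_ h3
    have h4 : ((qd p).card : ℝ) ≤ (quads p).card := by exact_mod_cast card_qd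
    exact mul_le_mul_of_nonneg_left h4 (Nat.cast_nonneg p)
  have h3 : ∏ p ∈ P, (Real.exp (1 / (p : ℝ) + 5 * (1 / ((p : ℝ) - 2) - 1 / ((p : ℝ) - 1))) *
      ((sq p).card : ℝ) ^ 4) =
      (∏ p ∈ P, Real.exp (1 / (p : ℝ) + 5 * (1 / ((p : ℝ) - 2) - 1 / ((p : ℝ) - 1)))) *
        ((∏ p ∈ P, (sq p).card : ℕ) : ℝ) ^ 4 := by
    rw [Finset.prod_mul_distrib, Finset.prod_pow, Nat.cast_prod]
  have h5 : ∏ p ∈ P, Real.exp (1 / (p : ℝ) + 5 * (1 / ((p : ℝ) - 2) - 1 / ((p : ℝ) - 1))) ≤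
      Real.exp 5 * Real.exp (∑ p ∈ P, 1 / (p : ℝ)) := by
    rw [← Real.exp_sum, ← Real.exp_add, Real.exp_le_exp, Finset.sum_add_distrib]
    have := tele P hP3
    linarith
  rw [h1]
  refine (h2.trans (le_of_eq h3)).trans ?_
  exact mul_le_mul_of_nonneg_right h5 (pow_nonneg (Nat.cast_nonneg _) 4)

/-- selection of a random subset -/
theorem selection (S : Finset ℕ) (x : ℕ) (Q w F D N : ℝ) (hN : (S.card : ℝ) = N) (hx1 : 900 ≤ x)
    (hF1 : 1 ≤ F) (hQ1 : 1 ≤ Q) (hw1 : 1 ≤ w) (hx2r : 4 * Q ^ 2 ≤ x) (_hD : 0 ≤ D)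
    (hQF : Q * D ≤ F * w ^ 4)
    (hN1 : N ≤ w * ((x : ℝ) / Q + 1)) (hN2 : w * ((x : ℝ) / Q - 1) ≤ N)
    (h1 : ((quad S).card : ℝ) ≤ D * ((x : ℝ) / Q + 1) ^ 3) :
    ∃ A ⊆ S, √(x : ℝ) ≤ (A.card : ℝ) ∧ ((quad A).card : ℝ) ≤ 160 * F * x := by
  have hxr : (900 : ℝ) ≤ x := by exact_mod_cast hx1
  have hx4 : 4 * Q ≤ x := by nlinarith
  obtain ⟨s, hs⟩ : ∃ s : ℝ, s = √(x : ℝ) := ⟨_, rfl⟩
  rw [← hs]
  have hs2 : s * s = x := by rw [hs]; exact Real.mul_self_sqrt (by linarith)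
  have hs0 : 0 ≤ s := by rw [hs]; exact Real.sqrt_nonneg _
  have hs30 : 30 ≤ s := by nlinarith
  have hs0 : 0 < s := by linarith
  have hsQ : 2 * Q ≤ s := by nlinarith
  obtain ⟨l, hl⟩ : ∃ l : ℝ, l = 2 * Q / (w * s) := ⟨_, rfl⟩
  have hl0 : 0 ≤ l := by rw [hl]; positivity
  have hl1 : l ≤ 1 := by
    rw [hl, div_le_one (by positivity)]
    nlinarith
  have hsum : ∑ _a ∈ S, l = N * l := by rw [sum_const, nsmul_eq_mul, hN]
  have hP1' : N * l ≤ 3 * s := by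
    have h1 : N * l ≤ w * ((x : ℝ) / Q + 1) * l := mul_le_mul_of_nonneg_right hN1 hl0
    have h2 : w * ((x : ℝ) / Q + 1) * l = 2 * (x + Q) / s := by
      rw [hl]
      field_simp
    rw [h2] at h1
    refine h1.trans ?_
    rw [div_le_iff₀ hs0]
    nlinarith
  have hP2 : 3 / 2 * s ≤ N * l := by
    have h1 : w * ((x : ℝ) / Q - 1) * l ≤ N * l := mul_le_mul_of_nonneg_right hN2 hl0
    have h2 : w * ((x : ℝ) / Q - 1) * l = 2 * (x - Q) / s := by
      rw [hl]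
      field_simp
    rw [h2] at h1
    refine le_trans ?_ h1
    rw [le_div_iff₀ hs0]
    nlinarith
  have hFx : (x : ℝ) ≤ F * x := by nlinarith
  have hE : EX (fun _ => l) S (fun S => ((quad S).card : ℝ)) ≤ 80 * F * x := by
    refine (EX_quad (fun _ => hl0) (fun _ => hl1) S).trans ?_
    rw [sum_const, nsmul_eq_mul, hsum]
    have h3 : ((quad S).card : ℝ) * (l * l * (l * l)) ≤ 32 * F * x := by
      have h4 : ((quad S).card : ℝ) * (l * l * (l * l)) ≤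
          D * ((x : ℝ) / Q + 1) ^ 3 * (l * l * (l * l)) :=
        mul_le_mul_of_nonneg_right h1 (by positivity)
      refine h4.trans ?_
      have h5 : D * ((x : ℝ) / Q + 1) ^ 3 * (l * l * (l * l)) =
          (Q * D) * (16 * ((x : ℝ) + Q) ^ 3 / (w ^ 4 * x ^ 2)) := by
        rw [hl, ← hs2]
        field_simp
        ring
      rw [h5]
      refine (mul_le_mul_of_nonneg_right hQF (by positivity)).trans ?_
      have h6 : F * w ^ 4 * (16 * ((x : ℝ) + Q) ^ 3 / (w ^ 4 * x ^ 2)) =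
          F * (16 * ((x : ℝ) + Q) ^ 3 / x ^ 2) := by
        field_simp
      rw [h6]
      have h7 : 16 * ((x : ℝ) + Q) ^ 3 / x ^ 2 ≤ 32 * x := by
        rw [div_le_iff₀ (by positivity)]
        have h8 : (x : ℝ) + Q ≤ 5 / 4 * x := by linarith
        have h9 : ((x : ℝ) + Q) ^ 3 ≤ (5 / 4 * x) ^ 3 := by gcongr
        have h10 : (0 : ℝ) ≤ x ^ 3 := by positivity
        have h11 : (5 / 4 * (x : ℝ)) ^ 3 = 125 / 64 * x ^ 3 := by ring
        have h12 : 32 * (x : ℝ) * x ^ 2 = 32 * x ^ 3 := by ring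
        rw [h12]
        linarith
      calc F * (16 * ((x : ℝ) + Q) ^ 3 / x ^ 2) ≤ F * (32 * x) := by gcongr
        _ = 32 * F * x := by ring
    have h11 : (N * l) ^ 2 ≤ 9 * x := by
      have h0 : 0 ≤ N * l := by linarith
      nlinarith
    have h12 : N * l ≤ x / 10 := by nlinarith
    linarith
  have hQ' : 0 < 160 * F * x := by positivity
  have hδ : 0 < s / 2 := by linarith
  have hlt : 80 * F * x / (160 * F * x) + (({()} : Finset Unit).card : ℝ) * (3 * s) / (s / 2) ^ 2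
      < 1 := by
    have e1 : 80 * F * x / (160 * F * x) = 1 / 2 := by
      have : F * (x : ℝ) ≠ 0 := by positivity
      field_simp
      norm_num
    have e2 : (({()} : Finset Unit).card : ℝ) * (3 * s) / (s / 2) ^ 2 = 12 / s := by
      rw [card_singleton, Nat.cast_one]
      field_simp
      norm_num
    have e3 : 12 / s ≤ 12 / 30 := by gcongr
    rw [e1, e2]
    norm_num at e3 ⊢
    linarith
  obtain ⟨A, hA, hAE, hAc⟩ := select (fun _ => hl0) (fun _ => hl1) S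
    ({()} : Finset Unit) (fun _ _ => (1 : ℂ)) (fun _ _ => by simp) hE (by rw [hsum]; exact hP1')
    hQ' hδ hlt
  refine ⟨A, hA, ?_, hAE⟩
  have h1 := hAc () (mem_singleton_self _)
  have h2 : ∑ _a ∈ A, (1 : ℂ) - ∑ _a ∈ S, (l : ℂ) * 1 =
      (((A.card : ℝ) - N * l : ℝ) : ℂ) := by
    rw [sum_const, sum_const, ← hN]
    push_cast
    simp only [nsmul_eq_mul, mul_one]
  rw [h2, Complex.norm_real, Real.norm_eq_abs] at h1
  have h3 := (abs_le.1 h1).1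
  linarith

/-- (1) has the right order for primes which are 3 mod 4 -/
theorem sharp : ∃ C : ℝ, 0 < C ∧ ∀ P : Finset ℕ, (∀ p ∈ P, p.Prime ∧ p % 4 = 3) →
    ∃ X : ℕ, ∀ x : ℕ, X ≤ x → ∃ A : Finset ℕ, (∀ a ∈ A, a < x) ∧ √(x : ℝ) ≤ (A.card : ℝ) ∧
      (∀ p ∈ P, ∀ a ∈ A, (a : ZMod p) ≠ 0 ∧ IsSquare (a : ZMod p)) ∧
      (∑ n ∈ range (2 * x), (rep (A : Set ℕ) n : ℝ) ^ 2) ≤
        C * x * Real.exp (∑ p ∈ P, 1 / (p : ℝ)) := by
  refine ⟨160 * Real.exp 5, by positivity, fun P hP => ?_⟩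
  have hP1 : ∀ p ∈ P, p.Prime := fun p hp => (hP p hp).1
  have hden := density hP
  obtain ⟨Qn, hQn⟩ : ∃ Qn : ℕ, Qn = ∏ p ∈ P, p := ⟨_, rfl⟩
  obtain ⟨w, hw⟩ : ∃ w : ℕ, w = ∏ p ∈ P, (sq p).card := ⟨_, rfl⟩
  have hQ0 : 0 < Qn := by
    rw [hQn]
    exact Finset.prod_pos (fun p hp => (hP1 p hp).pos)
  have hw0 : 0 < w := by
    rw [hw]
    refine Finset.prod_pos (fun p hp => card_pos.2 ⟨1, ?_⟩)
    have : Fact p.Prime := ⟨hP1 p hp⟩
    rw [mem_sq, Nat.cast_one]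
    exact ⟨(hP1 p hp).one_lt, one_ne_zero, IsSquare.one⟩
  have c1 := fun x : ℕ => card_sv_le hP1 x
  have c2 := fun x : ℕ => le_card_sv hP1 x
  have c3 := fun x : ℕ => card_quad_sv hP1 x
  rw [← hQn, ← hw] at hden
  simp only [← hQn, ← hw] at c1 c2 c3
  obtain ⟨F, hF⟩ : ∃ F : ℝ, F = Real.exp 5 * Real.exp (∑ p ∈ P, 1 / (p : ℝ)) := ⟨_, rfl⟩
  rw [← hF] at hden
  have hF1 : 1 ≤ F := by
    have h1 : 1 ≤ Real.exp 5 := Real.one_le_exp (by norm_num)
    have h2 : 1 ≤ Real.exp (∑ p ∈ P, 1 / (p : ℝ)) :=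
      Real.one_le_exp (Finset.sum_nonneg (fun p _ => by positivity))
    rw [hF]
    nlinarith
  refine ⟨max 900 (4 * Qn ^ 2), fun x hx => ?_⟩
  have hx1 : 900 ≤ x := (le_max_left _ _).trans hx
  have hx2 : 4 * Qn ^ 2 ≤ x := (le_max_right _ _).trans hx
  have hx2r : 4 * (Qn : ℝ) ^ 2 ≤ x := by exact_mod_cast hx2
  have hQ1 : (1 : ℝ) ≤ Qn := by exact_mod_cast hQ0
  have hw1 : (1 : ℝ) ≤ w := by exact_mod_cast hw0
  have hK1 : ((x / Qn : ℕ) : ℝ) ≤ (x : ℝ) / Qn := Nat.cast_div_le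
  have hK2 : (x : ℝ) / Qn - 1 ≤ ((x / Qn : ℕ) : ℝ) := by
    have h1 : x < Qn * (x / Qn) + Qn := by
      have := Nat.div_add_mod x Qn
      have := Nat.mod_lt x hQ0
      omega
    have h2 : (x : ℝ) < Qn * ((x / Qn : ℕ) : ℝ) + Qn := by exact_mod_cast h1
    rw [sub_le_iff_le_add, div_le_iff₀ (by linarith)]
    linarith
  have hD : (0 : ℝ) ≤ ∏ p ∈ P, ((qd p).card : ℝ) := Finset.prod_nonneg (fun _ _ => Nat.cast_nonneg _)
  obtain ⟨A, hA, hA1, hA2⟩ := selection (sv P x) x Qn w F (∏ p ∈ P, ((qd p).card : ℝ))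
    (sv P x).card rfl hx1 hF1 hQ1 hw1 hx2r hD hden
    (by
      have h1 : ((sv P x).card : ℝ) ≤ w * (((x / Qn : ℕ) : ℝ) + 1) := by exact_mod_cast c1 x
      refine h1.trans (mul_le_mul_of_nonneg_left ?_ (by linarith))
      linarith)
    (by
      have h1 : w * ((x / Qn : ℕ) : ℝ) ≤ ((sv P x).card : ℝ) := by exact_mod_cast c2 x
      refine le_trans (mul_le_mul_of_nonneg_left hK2 (by linarith)) h1)
    (by
      have h2 : ((quad (sv P x)).card : ℝ) ≤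
          (∏ p ∈ P, ((qd p).card : ℝ)) * (((x / Qn : ℕ) : ℝ) + 1) ^ 3 := by
        exact_mod_cast c3 x
      refine h2.trans (mul_le_mul_of_nonneg_left ?_ hD)
      gcongr)
  have hAx : ∀ a ∈ A, a < x := fun a ha => mem_range.1 (mem_filter.1 (hA ha)).1
  refine ⟨A, hAx, hA1, ?_, ?_⟩
  · intro p hp a ha
    have h1 := (mem_filter.1 (hA ha)).2 p hp
    have h2 := (mem_sq.1 h1).2
    rwa [ZMod.natCast_mod] at h2
  · rw [card_quad_eq A hAx]
    refine hA2.trans (le_of_eq ?_)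
    rw [hF]
    ring

end Pool.Agent.Helper51.SV
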