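import Pool.Agent.Helper25.RC.Defs
import Pool.Agent.Helper5.RC.Col
import Pool.Agent.Helper38.JB.Base3

/-!
The union of two sets with bounded mean square, and bases.
-/

set_option autoImplicit false

namespace Pool.Agent.Helper51.Rel

open Finset Filter Pool.Agent.Helper25.RC

theorem blk_zero (B : Finset ℕ) : Pool.Agent.Helper5.RC.blk 0 B = B := by
  unfold Pool.Agent.Helper5.RC.blk
  simp

/-- quadruples of a finite set against the representation function -/
theorem sol_le (A : Set ℕ) (x : ℕ) :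
    ((Pool.Agent.Helper5.RC.sol (2 * x) (below A x)).card : ℝ) ≤
      ∑ n ∈ range (2 * x), (rep A n : ℝ) ^ 2 := by
  classical
  have h1 : (Pool.Agent.Helper5.RC.sol (2 * x) (below A x)).card =
      ∑ n ∈ range (2 * x), (repF (below A x) n) ^ 2 := by
    rw [card_eq_sum_card_fiberwise (f := fun q : (ℕ × ℕ) × (ℕ × ℕ) => q.1.1 + q.1.2)
      (t := range (2 * x))]
    · refine sum_congr rfl fun n hn => ?_
      rw [sq]
      unfold repF
      rw [← card_product]
      congr 1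
      ext q
      simp only [mem_filter, mem_product, Pool.Agent.Helper5.RC.mem_sol, mem_below]
      constructor
      · rintro ⟨⟨⟨h1, h2⟩, ⟨h3, h4⟩, h5⟩, h6⟩
        rw [Nat.mod_eq_of_lt (by omega), Nat.mod_eq_of_lt (by omega)] at h5
        exact ⟨⟨⟨h1, h2⟩, h6⟩, ⟨h3, h4⟩, by omega⟩
      · rintro ⟨⟨⟨h1, h2⟩, h6⟩, ⟨h3, h4⟩, h7⟩
        exact ⟨⟨⟨h1, h2⟩, ⟨h3, h4⟩, by rw [h6, h7]⟩, h6⟩
    · intro q hq
      have h := Pool.Agent.Helper5.RC.mem_sol.1 (mem_coe.1 hq)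
      have h1 := mem_below.1 h.1.1
      have h2 := mem_below.1 h.1.2
      rw [mem_coe, mem_range]
      show q.1.1 + q.1.2 < 2 * x
      omega
  rw [h1]
  push_cast
  refine sum_le_sum fun n _ => ?_
  have : (repF (below A x) n : ℝ) ≤ rep A n := by exact_mod_cast repF_below_le A x n
  gcongr

theorem rep_union_le (A B : Set ℕ) {x n : ℕ} (hn : n < x) :
    rep (A ∪ B) n ≤ rep A n + rep B n + 2 * ((below A x ×ˢ below B x).filter
      fun p => p.1 + p.2 = n).card := by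
  classical
  obtain ⟨U, hU⟩ : ∃ U, U = A ∪ B := ⟨_, rfl⟩
  rw [← hU]
  have h1 : rep U n ≤ rep A n + rep B n +
      (((below A x ×ˢ below B x).filter fun p => p.1 + p.2 = n).card +
        (((below A x ×ˢ below B x).filter fun p => p.1 + p.2 = n).image Prod.swap).card) := by
    unfold rep
    refine (card_le_card (t := ((antidiagonal n).filter (fun p => p.1 ∈ A ∧ p.2 ∈ A) ∪
      (antidiagonal n).filter (fun p => p.1 ∈ B ∧ p.2 ∈ B)) ∪
      (((below A x ×ˢ below B x).filter fun p => p.1 + p.2 = n) ∪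
        (((below A x ×ˢ below B x).filter fun p => p.1 + p.2 = n).image Prod.swap))) ?_).trans ?_
    · intro p hp
      rw [mem_filter, HasAntidiagonal.mem_antidiagonal, hU] at hp
      obtain ⟨h0, h1, h2⟩ := hp
      simp only [mem_union, mem_filter, HasAntidiagonal.mem_antidiagonal, mem_product, mem_image,
        mem_below]
      rcases h1 with h1 | h1 <;> rcases h2 with h2 | h2
      · exact Or.inl (Or.inl ⟨h0, h1, h2⟩)
      · exact Or.inr (Or.inl ⟨⟨⟨by omega, h1⟩, ⟨by omega, h2⟩⟩, h0⟩)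
      · exact Or.inr (Or.inr ⟨(p.2, p.1), ⟨⟨⟨by omega, h2⟩, ⟨by omega, h1⟩⟩, by
          show p.2 + p.1 = n
          omega⟩, rfl⟩)
      · exact Or.inl (Or.inr ⟨h0, h1, h2⟩)
    · refine (card_union_le _ _).trans ?_
      exact add_le_add (card_union_le _ _) (card_union_le _ _)
  have h2 : (((below A x ×ˢ below B x).filter fun p => p.1 + p.2 = n).image Prod.swap).card ≤
      ((below A x ×ˢ below B x).filter fun p => p.1 + p.2 = n).card := card_image_le
  omega

/-- the union of two sets with bounded mean square -/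
theorem union_ms {A B : Set ℕ} {K C : ℝ}
    (hA : ∀ x : ℕ, ∑ n ∈ range x, (rep A n : ℝ) ^ 2 ≤ K * x)
    (hB : ∀ x : ℕ, ∑ n ∈ range x, (rep B n : ℝ) ^ 2 ≤ C * x) (x : ℕ) :
    ∑ n ∈ range x, (rep (A ∪ B) n : ℝ) ^ 2 ≤ 12 * (K + C) * x := by
  have h1 := Pool.Agent.Helper5.RC.sums_le 0 0 (below A x) (below B x) (2 * x) (2 * x) 1 one_pos x
  rw [blk_zero, blk_zero] at h1
  have h2 := sol_le A x
  have h3 := sol_le B x
  have h4 := hA (2 * x)
  have h5 := hB (2 * x)
  push_cast at h4 h5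
  have h6 : ∑ n ∈ range x, (rep (A ∪ B) n : ℝ) ^ 2 ≤
      ∑ n ∈ range x, (4 * (rep A n : ℝ) ^ 2 + 4 * (rep B n : ℝ) ^ 2 +
        8 * (((below A x ×ˢ below B x).filter fun p => p.1 + p.2 = n).card : ℝ) ^ 2) := by
    refine sum_le_sum fun n hn => ?_
    have h := rep_union_le A B (mem_range.1 hn)
    have h' : (rep (A ∪ B) n : ℝ) ≤ rep A n + rep B n +
        2 * (((below A x ×ˢ below B x).filter fun p => p.1 + p.2 = n).card : ℝ) := by
      exact_mod_cast h
    obtain ⟨a, ha⟩ : ∃ a : ℝ, a = rep A n := ⟨_, rfl⟩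
    obtain ⟨b, hb⟩ : ∃ b : ℝ, b = rep B n := ⟨_, rfl⟩
    obtain ⟨d, hd⟩ : ∃ d : ℝ, d =
      (((below A x ×ˢ below B x).filter fun p => p.1 + p.2 = n).card : ℝ) := ⟨_, rfl⟩
    rw [← ha, ← hb, ← hd] at h' ⊢
    have h0 : (0 : ℝ) ≤ (rep (A ∪ B) n : ℝ) := by positivity
    calc (rep (A ∪ B) n : ℝ) ^ 2 ≤ (a + b + 2 * d) ^ 2 := by gcongr
      _ ≤ _ := by nlinarith [sq_nonneg (a - b), sq_nonneg (a - d), sq_nonneg (b - d)]
  rw [sum_add_distrib, sum_add_distrib, ← mul_sum, ← mul_sum, ← mul_sum] at h6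
  have h7 := hA x
  have h8 := hB x
  linarith

/-- a basis with bounded mean square which contains a given set with bounded mean square -/
theorem basis_union {B : Set ℕ} {C : ℝ}
    (hB : ∀ x : ℕ, ∑ n ∈ range x, (rep B n : ℝ) ^ 2 ≤ C * x) :
    ∃ (A : Set ℕ) (C' : ℝ), B ⊆ A ∧ (∀ᶠ n : ℕ in atTop, 1 ≤ rep A n) ∧
      ∀ x : ℕ, ∑ n ∈ range x, (rep A n : ℝ) ^ 2 ≤ C' * x := by
  obtain ⟨J, K, _, hJ⟩ := Pool.Agent.Helper38.JB.base3 ⊥ (by
    rw [Subgroup.coe_bot]
    exact Set.countable_singleton _)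
  refine ⟨J ∪ B, 12 * (K + C), Set.subset_union_right, ?_, union_ms hJ.1 hB⟩
  filter_upwards [hJ.2.1] with n hn
  obtain ⟨U, hU⟩ : ∃ U, U = J ∪ B := ⟨_, rfl⟩
  rw [← hU]
  refine hn.trans ?_
  classical
  unfold rep
  refine card_le_card fun p hp => ?_
  have h1 := mem_filter.1 hp
  refine mem_filter.2 ⟨h1.1, ?_, ?_⟩
  · rw [hU]; exact Or.inl h1.2.1
  · rw [hU]; exact Or.inl h1.2.2

end Pool.Agent.Helper51.Rel
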